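import Mathlib

/-!
# Periodic integral sections from Artin–Rees

Let `T` be a shift invariant set of vectors of integer functions on `ℤ^d`. Under three conditions
(each vector has coordinate sum one, there is an invariant real mean, any two members can be compared
through a finite modification) there is a periodic vector of integer functions with coordinate sum one
that satisfies all linear local relations of `T`.
-/

namespace Pool.Agent.Lib_MP_499141

open AddMonoidAlgebra

/-- The group ring of `ℤ^d`. -/
abbrev Lam (d : ℕ) : Type := AddMonoidAlgebra ℤ (Fin d → ℤ)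

variable {d : ℕ} {κ : Type} [Fintype κ] [DecidableEq κ]

instance : IsNoetherianRing (Lam d) := Algebra.FiniteType.isNoetherianRing ℤ (Lam d)

/-- The pairing of a group ring element with an integer function. -/
noncomputable def pair (b : (Fin d → ℤ) → ℤ) : Lam d →+ ℤ :=
  (Finsupp.liftAddHom fun h => AddMonoidHom.mulRight (b h)).comp
    (coeffAddEquiv (R := ℤ) (M := Fin d → ℤ)).toAddMonoidHom

theorem pair_single (b : (Fin d → ℤ) → ℤ) (h : Fin d → ℤ) (r : ℤ) :
    pair b (single h r) = r * b h := by
  simp [pair]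

theorem pair_single_mul (b : (Fin d → ℤ) → ℤ) (g : Fin d → ℤ) (r : ℤ) (f : Lam d) :
    pair b (single g r * f) = r * pair (fun h => b (g + h)) f := by
  induction f using AddMonoidAlgebra.induction_linear with
  | zero => simp
  | add x y hx hy => rw [mul_add, map_add, map_add, hx, hy]; ring
  | single m s => rw [single_mul_single, pair_single, pair_single]; ring

theorem pair_sub (b c : (Fin d → ℤ) → ℤ) (f : Lam d) :
    pair (fun h => b h - c h) f = pair b f - pair c f := by
  induction f using AddMonoidAlgebra.induction_linear with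
  | zero => simp
  | add x y hx hy => rw [map_add, map_add, map_add, hx, hy]; ring
  | single m s => rw [pair_single, pair_single, pair_single]; ring

/-- Evaluation of a vector of group ring elements at a vector of integer functions. -/
noncomputable def ev (t : κ → (Fin d → ℤ) → ℤ) : (κ → Lam d) →+ ℤ :=
  ∑ π, (pair (t π)).comp (Pi.evalAddMonoidHom (fun _ : κ => Lam d) π)

omit [DecidableEq κ] in
theorem ev_apply (t : κ → (Fin d → ℤ) → ℤ) (f : κ → Lam d) :
    ev t f = ∑ π, pair (t π) (f π) := by
  simp [ev]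

omit [DecidableEq κ] in
theorem ev_single_smul (t : κ → (Fin d → ℤ) → ℤ) (g : Fin d → ℤ) (r : ℤ) (f : κ → Lam d) :
    ev t ((single g r : Lam d) • f) = r * ev (fun π h => t π (g + h)) f := by
  rw [ev_apply, ev_apply, Finset.mul_sum]
  refine Finset.sum_congr rfl fun π _ => ?_
  rw [Pi.smul_apply, smul_eq_mul, pair_single_mul]

omit [DecidableEq κ] in
theorem ev_sub (t s : κ → (Fin d → ℤ) → ℤ) (f : κ → Lam d) :
    ev (fun π h => t π h - s π h) f = ev t f - ev s f := by
  simp only [ev_apply, pair_sub, Finset.sum_sub_distrib]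

/-- Shift invariance. -/
def ShiftInv (T : Set (κ → (Fin d → ℤ) → ℤ)) : Prop :=
  ∀ t ∈ T, ∀ g, (fun π h => t π (g + h)) ∈ T

/-- The module of linear relations of `T`. -/
noncomputable def relSub (T : Set (κ → (Fin d → ℤ) → ℤ)) (hT : ShiftInv T) :
    Submodule (Lam d) (κ → Lam d) where
  carrier := {f | ∀ t ∈ T, ev t f = 0}
  zero_mem' := fun t _ => map_zero _
  add_mem' := fun ha hb t ht => by rw [map_add, ha t ht, hb t ht, add_zero]
  smul_mem' := by
    intro c f hf
    induction c using AddMonoidAlgebra.induction_linear with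
    | zero => intro t _; simp
    | add x y hx hy => intro t ht; rw [add_smul, map_add, hx t ht, hy t ht, add_zero]
    | single m s => intro t ht; rw [ev_single_smul, hf _ (hT t ht m), mul_zero]

omit [DecidableEq κ] in
theorem mem_relSub {T : Set (κ → (Fin d → ℤ) → ℤ)} {hT : ShiftInv T} {f : κ → Lam d} :
    f ∈ relSub T hT ↔ ∀ t ∈ T, ev t f = 0 := Iff.rfl

/-- The constant vector one. -/
noncomputable def oneV : κ → Lam d := fun _ => 1

omit [DecidableEq κ] in
theorem ev_oneV (t : κ → (Fin d → ℤ) → ℤ) : ev t (oneV (d := d)) = ∑ π, t π 0 := by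
  rw [ev_apply]
  refine Finset.sum_congr rfl fun π _ => ?_
  rw [oneV, one_def, pair_single, one_mul]

/-- The dot product with a fixed vector. -/
noncomputable def dotL (δ : κ → Lam d) : (κ → Lam d) →ₗ[Lam d] Lam d where
  toFun f := ∑ π, f π * δ π
  map_add' f g := by simp [add_mul, Finset.sum_add_distrib]
  map_smul' c f := by simp [Finset.mul_sum, mul_assoc]

omit [DecidableEq κ] in
theorem dotL_apply (δ f : κ → Lam d) : dotL δ f = ∑ π, f π * δ π := rfl

/-- The vector of group ring elements attached to a finitely supported vector of functions. -/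
noncomputable def dvec (s : κ → (Fin d → ℤ) →₀ ℤ) : κ → Lam d :=
  fun π => mapDomain (fun h => -h) (ofCoeff (s π))

theorem coeff_mul_neg (f : Lam d) (s : (Fin d → ℤ) →₀ ℤ) (k : Fin d → ℤ) :
    (f * mapDomain (fun h => -h) (ofCoeff s)).coeff k = pair (fun h => s (h - k)) f := by
  induction f using AddMonoidAlgebra.induction_linear with
  | zero => simp
  | add x y hx hy => rw [add_mul, coeff_add, Finsupp.add_apply, hx, hy, map_add]
  | single m r =>
    rw [coeff_single_mul_apply, pair_single]
    congr 1
    have h1 : (-m + k : Fin d → ℤ) = (fun h => -h) (m - k) := by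
      show -m + k = -(m - k); abel
    rw [h1]
    exact Finsupp.mapDomain_apply neg_injective s (m - k)

omit [DecidableEq κ] in
theorem coeff_dotL (s : κ → (Fin d → ℤ) →₀ ℤ) (f : κ → Lam d) (k : Fin d → ℤ) :
    (dotL (dvec s) f).coeff k = ev (fun π h => s π (h - k)) f := by
  rw [dotL_apply, coeff_sum, Finsupp.finsetSum_apply, ev_apply]
  exact Finset.sum_congr rfl fun π _ => coeff_mul_neg _ _ _

/-- The ideal generated by `y^(N g) - 1`. -/
noncomputable def perIdeal (d N : ℕ) : Ideal (Lam d) :=
  Ideal.span {x | ∃ g : Fin d → ℤ, x = single (fun i => (N : ℤ) * g i) 1 - 1}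

/-- The push forward to the torus. -/
noncomputable def push (N : ℕ) (f : Lam d) : AddMonoidAlgebra ℤ (Fin d → ZMod N) :=
  mapDomain (fun g i => ((g i : ℤ) : ZMod N)) f

theorem push_add (N : ℕ) (f g : Lam d) : push N (f + g) = push N f + push N g :=
  mapDomain_add _ _ _

theorem push_mul (N : ℕ) (f g : Lam d) : push N (f * g) = push N f * push N g := by
  let φ : (Fin d → ℤ) →+ (Fin d → ZMod N) :=
    { toFun := fun g i => ((g i : ℤ) : ZMod N)
      map_zero' := by funext i; simp
      map_add' := by intro a b; funext i; simp }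
  exact mapDomain_mul φ f g

theorem push_perIdeal {N : ℕ} {f : Lam d} (hf : f ∈ perIdeal d N) : push N f = 0 := by
  induction hf using Submodule.span_induction with
  | mem x hx =>
    obtain ⟨g, rfl⟩ := hx
    have h1 : push N (single (fun i => (N : ℤ) * g i) 1 : Lam d) = 1 := by
      rw [push, mapDomain_single, one_def]
      congr 1
      funext i
      simp
    have h2 : push N (1 : Lam d) = 1 := by
      rw [push, one_def, mapDomain_single, one_def]
      congr 1
      funext i
      simp
    have h3 := push_add N (single (fun i => (N : ℤ) * g i) 1 - 1 : Lam d) 1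
    rw [sub_add_cancel, h1, h2] at h3
    exact (add_eq_right.1 h3.symm)
  | zero => simp [push]
  | add x y _ _ hx hy => rw [push_add, hx, hy, add_zero]
  | smul c x _ hx => rw [smul_eq_mul, push_mul, hx, mul_zero]

/-- A section of the reduction to the torus. -/
def sec (N : ℕ) (a : Fin d → ZMod N) : Fin d → ℤ := fun i => ((a i).val : ℤ)

theorem sub_sec_mem {N : ℕ} [NeZero N] (f : Lam d) :
    f - mapDomain (sec N) (push N f) ∈ perIdeal d N := by
  induction f using AddMonoidAlgebra.induction_linear with
  | zero => simp [push]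
  | add x y hx hy =>
    rw [push_add, mapDomain_add]
    have : x + y - (mapDomain (sec N) (push N x) + mapDomain (sec N) (push N y)) =
      (x - mapDomain (sec N) (push N x)) + (y - mapDomain (sec N) (push N y)) := by abel
    rw [this]
    exact Ideal.add_mem _ hx hy
  | single m r =>
    rw [push, mapDomain_single, mapDomain_single]
    set u : Fin d → ℤ := sec N (fun i => ((m i : ℤ) : ZMod N)) with hu
    have h1 : ∀ i, ∃ g : ℤ, m i = u i + N * g := by
      intro i
      have h2 : ((u i : ℤ) : ZMod N) = ((m i : ℤ) : ZMod N) := by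
        simp [hu, sec]
      obtain ⟨g, hg⟩ := (ZMod.intCast_eq_intCast_iff_dvd_sub _ _ _).1 h2
      exact ⟨g, by linarith⟩
    choose g hg using h1
    have h3 : (single m r : Lam d) - single u r =
        single u r * (single (fun i => (N : ℤ) * g i) 1 - 1) := by
      rw [mul_sub, single_mul_single, mul_one, mul_one]
      congr 2
      funext i
      exact hg i
    rw [h3]
    exact Ideal.mul_mem_left _ _ (Ideal.subset_span ⟨g, rfl⟩)

theorem mem_perIdeal_iff {N : ℕ} [NeZero N] {f : Lam d} : f ∈ perIdeal d N ↔ push N f = 0 := by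
  refine ⟨push_perIdeal, fun h => ?_⟩
  have := sub_sec_mem (N := N) f
  rw [h, mapDomain_zero, sub_zero] at this
  exact this

theorem push_zsmul (N : ℕ) (k : ℤ) (f : Lam d) : push N (k • f) = k • push N f := by
  let φ : Lam d →+ AddMonoidAlgebra ℤ (Fin d → ZMod N) :=
    { toFun := push N, map_zero' := by simp [push], map_add' := push_add N }
  exact map_zsmul φ k f

theorem perIdeal_torsionFree {N : ℕ} [NeZero N] {k : ℤ} (hk : k ≠ 0) {f : Lam d}
    (h : k • f ∈ perIdeal d N) : f ∈ perIdeal d N := by
  rw [mem_perIdeal_iff] at h ⊢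
  rw [push_zsmul] at h
  ext a
  have h1 := congrArg (fun x => x.coeff a) h
  simp only [coeff_smul, Finsupp.smul_apply, coeff_zero, Finsupp.zero_apply, smul_eq_mul,
    mul_eq_zero] at h1
  simpa [hk] using h1

theorem mem_smul_top_pi {S : Type} [Fintype S] [DecidableEq S] (I : Ideal (Lam d))
    (f : S → Lam d) : f ∈ (I • ⊤ : Submodule (Lam d) (S → Lam d)) ↔ ∀ s, f s ∈ I := by
  constructor
  · intro h s
    induction h using Submodule.smul_induction_on' with
    | smul r hr n _ => exact Ideal.mul_mem_right _ _ hr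
    | add x _ y _ hx hy => exact Ideal.add_mem _ hx hy
  · intro h
    have h1 : f = ∑ s, (f s) • (Pi.single s 1 : S → Lam d) := by
      funext t
      rw [Finset.sum_apply]
      simp [Pi.single_apply]
    rw [h1]
    exact Submodule.sum_mem _ fun s _ => Submodule.smul_mem_smul (h s) trivial

theorem smul_top_torsionFree {S : Type} [Fintype S] [DecidableEq S] {N : ℕ} [NeZero N] {k : ℤ}
    (hk : k ≠ 0) {f : S → Lam d} (h : k • f ∈ (perIdeal d N • ⊤ : Submodule (Lam d) (S → Lam d))) :
    f ∈ (perIdeal d N • ⊤ : Submodule (Lam d) (S → Lam d)) := by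
  rw [mem_smul_top_pi] at h ⊢
  intro s
  exact perIdeal_torsionFree hk (h s)

theorem perIdeal_le (d N : ℕ) : perIdeal d N ≤ perIdeal d 1 := by
  rw [perIdeal, Ideal.span_le]
  rintro x ⟨g, rfl⟩
  refine Ideal.subset_span ⟨fun i => (N : ℤ) * g i, ?_⟩
  simp

/-- The ideal `(p, y - 1)`. -/
noncomputable def maxI (d p : ℕ) : Ideal (Lam d) := Ideal.span {(p : Lam d)} ⊔ perIdeal d 1

theorem single_pow_mem (p : ℕ) (n : ℕ) (g : Fin d → ℤ) :
    (single (fun i => ((p ^ n : ℕ) : ℤ) * g i) 1 - 1 : Lam d) ∈ maxI d p ^ (n + 1) := by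
  induction n with
  | zero =>
    rw [zero_add, pow_one]
    refine Ideal.mem_sup_right (Ideal.subset_span ⟨g, ?_⟩)
    simp
  | succ n ih =>
    set a : Lam d := single (fun i => ((p ^ n : ℕ) : ℤ) * g i) 1 with ha
    have h1 : (single (fun i => ((p ^ (n + 1) : ℕ) : ℤ) * g i) 1 : Lam d) = a ^ p := by
      rw [ha, single_pow, one_pow]
      congr 1
      funext i
      simp only [Pi.smul_apply, nsmul_eq_mul]
      push_cast
      ring
    rw [h1, ← geom_sum_mul, mul_comm, pow_succ (maxI d p) (n + 1)]
    refine Ideal.mul_mem_mul ih ?_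
    have ham : a - 1 ∈ maxI d p := Ideal.pow_le_self (Nat.succ_ne_zero n) ih
    have h2 : ∀ i : ℕ, a ^ i - 1 ∈ maxI d p := by
      intro i
      rw [← geom_sum_mul]
      exact Ideal.mul_mem_left _ _ ham
    have h3 : ∑ i ∈ Finset.range p, a ^ i = ∑ i ∈ Finset.range p, (a ^ i - 1) + (p : Lam d) := by
      rw [Finset.sum_sub_distrib]
      simp
    rw [h3]
    refine Ideal.add_mem _ (Ideal.sum_mem _ fun i _ => h2 i) ?_
    exact Ideal.mem_sup_left (Ideal.subset_span rfl)

theorem perIdeal_le_pow (p n : ℕ) : perIdeal d (p ^ n) ≤ maxI d p ^ n := by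
  rw [perIdeal, Ideal.span_le]
  rintro x ⟨g, rfl⟩
  exact Ideal.pow_le_pow_right (Nat.le_succ n) (single_pow_mem p n g)

omit [Fintype κ] [DecidableEq κ] in
theorem sup_pow_le {R : Type} [CommRing R] (p : R) (I : Ideal R) (n : ℕ) :
    (Ideal.span {p} ⊔ I) ^ n ≤ Ideal.span {p ^ n} ⊔ I := by
  induction n with
  | zero => simp
  | succ n ih =>
    rw [pow_succ]
    refine (Ideal.mul_mono ih le_rfl).trans ?_
    rw [Ideal.sup_mul]
    refine sup_le ?_ (Ideal.mul_le_left.trans le_sup_right)
    rw [Ideal.mul_sup]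
    refine sup_le ?_ (Ideal.mul_le_right.trans le_sup_right)
    rw [Ideal.span_singleton_mul_span_singleton, ← pow_succ]
    exact le_sup_left

/-- A functional that kills `I_1` takes values divisible by `p^n` on `maxI^n`. -/
theorem dvd_of_mem_pow {V : Type} [AddCommGroup V] [Module (Lam d) V] (ψ : V →+ ℤ)
    (hψ : ∀ v ∈ (perIdeal d 1 • ⊤ : Submodule (Lam d) V), ψ v = 0) (p n : ℕ) {v : V}
    (hv : v ∈ (maxI d p ^ n • ⊤ : Submodule (Lam d) V)) : (p : ℤ) ^ n ∣ ψ v := by
  have h1 : v ∈ ((Ideal.span {((p : Lam d)) ^ n} ⊔ perIdeal d 1) • ⊤ : Submodule (Lam d) V) :=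
    Submodule.smul_mono_left (sup_pow_le (p : Lam d) (perIdeal d 1) n) hv
  rw [Submodule.sup_smul] at h1
  obtain ⟨a, ha, b, hb, rfl⟩ := Submodule.mem_sup.1 h1
  rw [map_add, hψ b hb, add_zero]
  rw [Submodule.ideal_span_singleton_smul, Submodule.mem_smul_pointwise_iff_exists] at ha
  obtain ⟨w, -, rfl⟩ := ha
  have h2 : ((p : Lam d) ^ n) • w = (p ^ n : ℕ) • w := by
    rw [← Nat.cast_pow, Nat.cast_smul_eq_nsmul]
  rw [h2, map_nsmul, nsmul_eq_mul]
  push_cast
  exact dvd_mul_right _ _

end Pool.Agent.Lib_MP_499141
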