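import Mathlib

/-!
# Strongly irreducible shifts of finite type on `ℤ^d`: basic definitions and tools

Configurations, shifts of finite type, strong irreducibility, periodic points, gluing over
infinite sets, periodisation in one direction, density of periodic points from one periodic point.
-/

namespace Pool.Agent.Lib_MP_499141

open Set

/-- Points of the lattice `ℤ^d`. -/
abbrev Pt (d : ℕ) : Type := Fin d → ℤ

/-- Configurations `ℤ^d → A`. -/
abbrev Conf (d : ℕ) (A : Type) : Type := Pt d → A

variable {d : ℕ} {A : Type}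

/-- The shift of finite type with finite window `E` and set `P` of allowed patterns on `E`
(the forbidden patterns are those outside `P`). -/
def sft (E : Finset (Pt d)) (P : Set (E → A)) : Set (Conf d A) :=
  {x | ∀ v : Pt d, (fun u : E => x (u.1 + v)) ∈ P}

/-- Strong irreducibility: for some `R > 0` any two patterns that occur in points of `X`
on finite sets at distance more than `R` occur together in a point of `X`. -/
def StronglyIrreducible (X : Set (Conf d A)) : Prop :=
  ∃ R : ℝ, 0 < R ∧ ∀ S T : Finset (Pt d), (∀ u ∈ S, ∀ w ∈ T, R < ‖u - w‖) →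
    ∀ y ∈ X, ∀ z ∈ X, ∃ x ∈ X, (∀ u ∈ S, x u = y u) ∧ (∀ w ∈ T, x w = z w)

/-- The stabiliser of a configuration under the shift action. -/
def stab (x : Conf d A) : AddSubgroup (Pt d) where
  carrier := {v | ∀ u, x (u + v) = x u}
  zero_mem' := by intro u; simp
  add_mem' := by
    intro a b ha hb u
    rw [← add_assoc, hb, ha]
  neg_mem' := by
    intro a ha u
    have := ha (u + -a)
    rw [neg_add_cancel_right] at this
    exact this.symm

/-- A configuration is periodic if its stabiliser has finite index in `ℤ^d`. -/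
def IsPeriodic (x : Conf d A) : Prop := (stab x).FiniteIndex

/-- Every finite pattern that occurs in a point of `X` occurs, at the same place, in a
periodic point of `X`: the periodic points of `X` are dense in `X`. -/
def PeriodicDense (X : Set (Conf d A)) : Prop :=
  ∀ x ∈ X, ∀ S : Finset (Pt d), ∃ p ∈ X, IsPeriodic p ∧ ∀ u ∈ S, p u = x u

theorem mem_stab {x : Conf d A} {v : Pt d} : v ∈ stab x ↔ ∀ u, x (u + v) = x u := Iff.rfl

/-- If all multiples of `N` are periods then the configuration is periodic. -/
theorem isPeriodic_of {x : Conf d A} {N : ℕ} (hN : 0 < N)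
    (h : ∀ v : Pt d, (fun i => (N : ℤ) * v i) ∈ stab x) : IsPeriodic x := by
  classical
  have hN' : (0 : ℤ) < N := by exact_mod_cast hN
  have : NeZero N := ⟨hN.ne'⟩
  let f : (Fin d → Fin N) → (Pt d ⧸ stab x) := fun w => QuotientAddGroup.mk (fun i => ((w i : ℕ) : ℤ))
  have hf : Function.Surjective f := by
    intro q
    obtain ⟨v, rfl⟩ := QuotientAddGroup.mk_surjective q
    refine ⟨fun i => ⟨(v i % N).toNat, ?_⟩, ?_⟩
    · have h1 := Int.emod_nonneg (v i) hN'.ne'
      have h2 := Int.emod_lt_of_pos (v i) hN'
      omega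
    · apply QuotientAddGroup.eq.2
      have h3 : -(fun i => (((v i % N).toNat : ℕ) : ℤ)) + v = fun i => (N : ℤ) * (v i / N) := by
        funext i
        have h1 := Int.emod_nonneg (v i) hN'.ne'
        have h2 := Int.emod_add_mul_ediv (v i) N
        simp only [Pi.add_apply, Pi.neg_apply]
        rw [Int.toNat_of_nonneg h1]
        linarith
      have h4 := h (fun i => v i / N)
      rw [← h3] at h4
      exact h4
  have : Finite (Pt d ⧸ stab x) := Finite.of_surjective f hf
  exact AddSubgroup.finiteIndex_of_finite_quotient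

/-- A finite window lies in a cube. -/
theorem exists_bound (E : Finset (Pt d)) : ∃ K : ℕ, ∀ u ∈ E, ∀ i, |u i| ≤ K := by
  classical
  refine ⟨(E.sup fun u => Finset.univ.sup fun i => (u i).natAbs), ?_⟩
  intro u hu i
  have h1 : (u i).natAbs ≤ Finset.univ.sup fun i => (u i).natAbs :=
    Finset.le_sup (f := fun i => (u i).natAbs) (Finset.mem_univ i)
  have h2 : (Finset.univ.sup fun i => (u i).natAbs) ≤
      E.sup fun u => Finset.univ.sup fun i => (u i).natAbs :=
    Finset.le_sup (f := fun u : Pt d => Finset.univ.sup fun i => (u i).natAbs) hu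
  have h3 := h1.trans h2
  rw [Int.abs_eq_natAbs]
  exact_mod_cast h3

section Local

variable {E : Finset (Pt d)} {P : Set (E → A)}

/-- Local criterion: a configuration all of whose windows occur in points of the shift. -/
theorem mem_sft_of_local {x : Conf d A}
    (h : ∀ v : Pt d, ∃ y ∈ sft E P, ∃ v' : Pt d, ∀ u ∈ E, x (u + v) = y (u + v')) :
    x ∈ sft E P := by
  intro v
  obtain ⟨y, hy, v', hv⟩ := h v
  have := hy v'
  have he : (fun u : E => x (u.1 + v)) = fun u : E => y (u.1 + v') := by
    funext u; exact hv u.1 u.2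
  rw [he]; exact this

theorem shift_mem {x : Conf d A} (hx : x ∈ sft E P) (w : Pt d) :
    (fun u => x (u + w)) ∈ sft E P := by
  intro v
  have := hx (v + w)
  simpa only [add_assoc] using this

/-- Gluing over arbitrary (infinite) sets, by compactness. -/
theorem glue [Finite A] {R : ℝ}
    (hR : ∀ S T : Finset (Pt d), (∀ u ∈ S, ∀ w ∈ T, R < ‖u - w‖) →
      ∀ y ∈ sft E P, ∀ z ∈ sft E P,
        ∃ x ∈ sft E P, (∀ u ∈ S, x u = y u) ∧ (∀ w ∈ T, x w = z w))
    (S T : Set (Pt d)) (hST : ∀ u ∈ S, ∀ w ∈ T, R < ‖u - w‖)
    {y z : Conf d A} (hy : y ∈ sft E P) (hz : z ∈ sft E P) :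
    ∃ x ∈ sft E P, (∀ u ∈ S, x u = y u) ∧ (∀ w ∈ T, x w = z w) := by
  classical
  let _ : TopologicalSpace A := ⊥
  have : DiscreteTopology A := ⟨rfl⟩
  have : CompactSpace A := Finite.compactSpace
  let C : Finset (Pt d) → Set (Conf d A) := fun F =>
    {x | x ∈ sft E P ∧ (∀ u ∈ F, u ∈ S → x u = y u) ∧ (∀ w ∈ F, w ∈ T → x w = z w)}
  have hclX : IsClosed (sft E P) := by
    have : sft E P = ⋂ v : Pt d, (fun x : Conf d A => fun u : E => x (u.1 + v)) ⁻¹' P := by
      ext x; simp [sft]
    rw [this]
    refine isClosed_iInter fun v => ?_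
    refine IsClosed.preimage ?_ (isClosed_discrete P)
    exact continuous_pi fun u => continuous_apply _
  have hev : ∀ (u : Pt d) (a : A), IsClosed {x : Conf d A | x u = a} := by
    intro u a
    have : {x : Conf d A | x u = a} = (fun x : Conf d A => x u) ⁻¹' {a} := by
      ext x; simp
    rw [this]
    exact IsClosed.preimage (continuous_apply u) (isClosed_discrete _)
  have hclC : ∀ F, IsClosed (C F) := by
    intro F
    have : C F = sft E P ∩ ((⋂ u ∈ F, ⋂ (_ : u ∈ S), {x : Conf d A | x u = y u}) ∩
        (⋂ w ∈ F, ⋂ (_ : w ∈ T), {x : Conf d A | x w = z w})) := by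
      ext x
      simp only [C, mem_ofPred_eq, mem_inter_iff, mem_iInter]
    rw [this]
    refine hclX.inter (IsClosed.inter ?_ ?_)
    · exact isClosed_biInter fun u _ => isClosed_iInter fun _ => hev _ _
    · exact isClosed_biInter fun u _ => isClosed_iInter fun _ => hev _ _
  have hne : ∀ F, (C F).Nonempty := by
    intro F
    obtain ⟨x, hx, h1, h2⟩ := hR (F.filter (· ∈ S)) (F.filter (· ∈ T))
      (fun u hu w hw => hST u (Finset.mem_filter.1 hu).2 w (Finset.mem_filter.1 hw).2) y hy z hz
    exact ⟨x, hx, fun u hu hS => h1 u (Finset.mem_filter.2 ⟨hu, hS⟩),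
      fun u hu hT => h2 u (Finset.mem_filter.2 ⟨hu, hT⟩)⟩
  have hdir : Directed (· ⊇ ·) C := by
    intro F G
    refine ⟨F ∪ G, ?_, ?_⟩
    · intro x hx
      exact ⟨hx.1, fun u hu => hx.2.1 u (Finset.mem_union_left _ hu),
        fun u hu => hx.2.2 u (Finset.mem_union_left _ hu)⟩
    · intro x hx
      exact ⟨hx.1, fun u hu => hx.2.1 u (Finset.mem_union_right _ hu),
        fun u hu => hx.2.2 u (Finset.mem_union_right _ hu)⟩
  obtain ⟨x, hx⟩ := IsCompact.nonempty_iInter_of_directed_nonempty_isCompact_isClosed C hdir hne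
    (fun F => (hclC F).isCompact) hclC
  rw [mem_iInter] at hx
  refine ⟨x, (hx ∅).1, fun u hu => (hx {u}).2.1 u (by simp) hu,
    fun u hu => (hx {u}).2.2 u (by simp) hu⟩

/-- Periodisation in the direction `j`. -/
theorem periodise {K : ℕ} (hK : ∀ u ∈ E, ∀ i, |u i| ≤ K) {x : Conf d A} (hx : x ∈ sft E P)
    (j : Fin d) {M : ℤ} (hM : (K : ℤ) < M)
    (h : ∀ u : Pt d, |u j| ≤ K → x (Function.update u j (u j + M)) = x u) :
    (fun u => x (Function.update u j (u j % M))) ∈ sft E P := by
  have hM0 : 0 < M := lt_of_le_of_lt (by positivity) hM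
  refine mem_sft_of_local fun v => ⟨x, hx, Function.update v j (v j % M), fun u hu => ?_⟩
  have hu := abs_le.1 (hK u hu j)
  have hr1 := Int.emod_nonneg (v j) hM0.ne'
  have hr2 := Int.emod_lt_of_pos (v j) hM0
  set r := v j % M with hr
  have hmod : (u + v) j % M = (u j + r) % M := by
    rw [Pi.add_apply, hr, Int.add_emod_emod]
  have hupd : u + Function.update v j r = Function.update (u + v) j (u j + r) := by
    funext i
    by_cases hi : i = j
    · subst hi; simp
    · simp [Function.update_of_ne hi]
  show x (Function.update (u + v) j ((u + v) j % M)) = x (u + Function.update v j r)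
  rw [hmod, hupd]
  rcases lt_or_ge (u j + r) 0 with h0 | h0
  · have h1 : (u j + r) % M = u j + r + M := by
      rw [← Int.add_emod_right]
      exact Int.emod_eq_of_lt (by linarith) (by linarith)
    rw [h1]
    have := h (Function.update (u + v) j (u j + r)) (by
      rw [Function.update_self, abs_le]; constructor <;> linarith)
    rw [Function.update_self, Function.update_idem] at this
    exact this
  · rcases lt_or_ge (u j + r) M with h2 | h2
    · rw [Int.emod_eq_of_lt h0 h2]
    · have h1 : (u j + r) % M = u j + r - M := by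
        rw [← Int.sub_emod_right]
        exact Int.emod_eq_of_lt (by linarith) (by linarith)
      rw [h1]
      have := h (Function.update (u + v) j (u j + r - M)) (by
        rw [Function.update_self, abs_le]; constructor <;> linarith)
      rw [Function.update_self, Function.update_idem, sub_add_cancel] at this
      exact this.symm

end Local

end Pool.Agent.Lib_MP_499141
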