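import Pool.Agent.Lib_MP_499141.Mean

/-!
# Means of full support
-/

namespace Pool.Agent.Lib_MP_499141

open Set Filter Topology

variable {d : ℕ} {A : Type}

theorem IsMean.comp {X : Set (Conf d A)} {M : ℕ} {μ : (Conf d A → ℝ) → ℝ} (h : IsMean X M μ)
    (Θ : Conf d A → Conf d A) (hΘ : ∀ x ∈ X, Θ x ∈ X)
    (hc : ∀ (g : Pt d) x, Θ (sh (fun i => (M : ℤ) * g i) x) = sh (fun i => (M : ℤ) * g i) (Θ x)) :
    IsMean X M (fun F => μ (fun x => F (Θ x))) := by
  refine ⟨?_, ?_, ?_, ?_, ?_⟩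
  · intro F G hF hG
    exact h.add _ _ (hF.comp Θ) (hG.comp Θ)
  · intro c F hF
    exact h.smul c _ (hF.comp Θ)
  · exact h.one
  · intro F hF hF0
    exact h.nonneg _ (hF.comp Θ) fun x hx => hF0 _ (hΘ x hx)
  · intro F hF g
    show μ (fun x => F (sh _ (Θ x))) = _
    have := h.inv _ (hF.comp Θ) g
    rw [← this]
    congr 1
    funext x
    rw [hc]

theorem IsMean.average {X : Set (Conf d A)} {M : ℕ} {ι : Type} [Fintype ι] [Nonempty ι]
    {μ : ι → (Conf d A → ℝ) → ℝ} (h : ∀ j, IsMean X M (μ j)) :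
    IsMean X M (fun F => (∑ j, μ j F) / Fintype.card ι) := by
  have hc : (0 : ℝ) < Fintype.card ι := by exact_mod_cast Fintype.card_pos
  refine ⟨?_, ?_, ?_, ?_, ?_⟩
  · intro F G hF hG
    rw [← add_div, ← Finset.sum_add_distrib]
    congr 1
    exact Finset.sum_congr rfl fun j _ => (h j).add F G hF hG
  · intro c F hF
    rw [← mul_div_assoc, Finset.mul_sum]
    congr 1
    exact Finset.sum_congr rfl fun j _ => (h j).smul c F hF
  · have : ∑ j, μ j (fun _ => 1) = Fintype.card ι := by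
      rw [Finset.sum_congr rfl fun j _ => (h j).one]
      simp
    rw [this, div_self hc.ne']
  · intro F hF hF0
    exact div_nonneg (Finset.sum_nonneg fun j _ => (h j).nonneg F hF hF0) hc.le
  · intro F hF g
    congr 1
    exact Finset.sum_congr rfl fun j _ => (h j).inv F hF g

/-- A mean that is positive on every nonzero nonnegative `D`-local function. -/
theorem exists_full_mean [Finite A] {E : Finset (Pt d)} {P : Set (E → A)} {K : ℕ}
    (hK : ∀ u ∈ E, ∀ i, |u i| ≤ K) {R : ℕ} (hG : GapGlue (sft E P) R) (hne : (sft E P).Nonempty)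
    (D : ℕ) :
    ∃ M : ℕ, 0 < M ∧ ∃ μ : (Conf d A → ℝ) → ℝ, IsMean (sft E P) M μ ∧
      ∀ (v : Pt d) (F : Conf d A → ℝ), Bdd F → (∀ x ∈ sft E P, 0 ≤ F x) →
        (∀ x ∈ sft E P, ∀ x' ∈ sft E P, (∀ w, Near D v w → x w = x' w) → F x = F x') →
        (∃ x ∈ sft E P, 0 < F x) → 0 < μ F := by
  classical
  obtain ⟨x₀, hx₀⟩ := hne
  obtain ⟨μ₀, hμ₀⟩ := exists_mean (X := sft E P) (fun x hx g => shift_mem hx g) ⟨x₀, hx₀⟩
  set M : ℕ := 2 * D + 2 * R + 4 * K + 1 with hM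
  have hM0 : 0 < M := by omega
  let B : Set (Pt d) := {t | Near D 0 t}
  have hBfin : B.Finite := by
    have : B ⊆ Set.Icc (fun _ => -(D : ℤ)) (fun _ => (D : ℤ)) := by
      intro t ht
      refine ⟨fun i => ?_, fun i => ?_⟩
      · have := abs_le.1 (ht i)
        simp only [Pi.zero_apply, sub_zero] at this
        exact this.1
      · have := abs_le.1 (ht i)
        simp only [Pi.zero_apply, sub_zero] at this
        exact this.2
    exact (Set.finite_Icc _ _).subset this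
  have : Finite B := hBfin
  let y : (B → A) → Conf d A := fun π =>
    if h : ∃ x ∈ sft E P, B.domRestrict x = π then h.choose else x₀
  have hy : ∀ π, y π ∈ sft E P := by
    intro π
    by_cases h : ∃ x ∈ sft E P, B.domRestrict x = π
    · have : y π = h.choose := by simp only [y, dif_pos h]
      rw [this]; exact h.choose_spec.1
    · have : y π = x₀ := by simp only [y, dif_neg h]
      rw [this]; exact hx₀
  have hy2 : ∀ x ∈ sft E P, ∀ t, Near D 0 t → y (B.domRestrict x) t = x t := by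
    intro x hx t ht
    have h : ∃ x' ∈ sft E P, B.domRestrict x' = B.domRestrict x := ⟨x, hx, rfl⟩
    have : y (B.domRestrict x) = h.choose := by simp only [y, dif_pos h]
    rw [this]
    exact congrFun h.choose_spec.2 ⟨t, ht⟩
  have hU : ∀ u ∈ {u : Pt d | ∀ i, (M : ℤ) ∣ u i}, ∀ u' ∈ {u : Pt d | ∀ i, (M : ℤ) ∣ u i},
      Near (2 * D + 2 * R + 4 * K) u u' → u = u' := by
    intro u hu u' hu' h
    funext i
    have h1 : (M : ℤ) ∣ u' i - u i := dvd_sub (hu' i) (hu i)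
    have h2 : |u' i - u i| < M := by
      have := h i
      rw [hM]; push_cast at this ⊢; linarith
    have h3 := Int.eq_zero_of_abs_lt_dvd h1 h2
    linarith
  choose Γ hΓ1 hΓ2 _ hΓ4 using fun π : B → A =>
    exists_insertion hK hG D {u : Pt d | ∀ i, (M : ℤ) ∣ u i} (fun _ => y π) (fun _ _ => hy π) hU
  have hM4 : ∀ (π : B → A) (g : Pt d) x, Γ π (sh (fun i => (M : ℤ) * g i) x) =
      sh (fun i => (M : ℤ) * g i) (Γ π x) := by
    intro π g x
    refine hΓ4 π _ (fun u => ?_) (fun _ _ => rfl) x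
    show (∀ i, (M : ℤ) ∣ u i + M * g i) ↔ ∀ i, (M : ℤ) ∣ u i
    exact forall_congr' fun i => dvd_add_left (dvd_mul_right _ _)
  let ι : Type := (B → A) × (Fin d → Fin M)
  have : Nonempty ι := ⟨(fun t => x₀ t, fun _ => ⟨0, hM0⟩)⟩
  have : Fintype ι := Fintype.ofFinite ι
  let Θ : ι → Conf d A → Conf d A := fun j x => sh (fun i => ((j.2 i : ℕ) : ℤ)) (Γ j.1 x)
  have hmean := IsMean.average (X := sft E P) (M := M)
    (μ := fun j : ι => fun F => μ₀ (fun x => F (Θ j x))) (fun j => by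
      refine (hμ₀.mono (one_dvd M)).comp (Θ j) (fun x hx => shift_mem (hΓ1 _ x hx) _) ?_
      intro g x
      show sh _ (Γ j.1 (sh _ x)) = sh _ (sh _ (Γ j.1 x))
      rw [hM4, sh_sh, sh_sh, add_comm])
  refine ⟨M, hM0, _, hmean, ?_⟩
  intro v F hF hF0 hloc hpos
  obtain ⟨x₁, hx₁, hFx₁⟩ := hpos
  have hc : (0 : ℝ) < Fintype.card ι := by exact_mod_cast Fintype.card_pos
  refine div_pos ?_ hc
  have hterm : ∀ j : ι, 0 ≤ μ₀ (fun x => F (Θ j x)) := fun j =>
    hμ₀.nonneg _ (hF.comp _) fun x hx => hF0 _ (shift_mem (hΓ1 _ x hx) _)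
  have hMz : (0 : ℤ) < M := by exact_mod_cast hM0
  let h : Fin d → Fin M := fun i => ⟨((-(v i)) % M).toNat, by
    have h1 := Int.emod_nonneg (-(v i)) hMz.ne'
    have h2 := Int.emod_lt_of_pos (-(v i)) hMz
    omega⟩
  let j₀ : ι := (B.domRestrict (sh v x₁), h)
  have hval : ∀ x ∈ sft E P, F (Θ j₀ x) = F x₁ := by
    intro x hx
    refine hloc _ (shift_mem (hΓ1 _ x hx) _) _ hx₁ fun w hw => ?_
    show Γ (B.domRestrict (sh v x₁)) x (w + fun i => ((h i : ℕ) : ℤ)) = x₁ w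
    have hu : ∀ i, (M : ℤ) ∣ (v + fun i => ((h i : ℕ) : ℤ)) i := by
      intro i
      have h1 := Int.emod_nonneg (-(v i)) hMz.ne'
      show (M : ℤ) ∣ v i + (((-(v i)) % M).toNat : ℤ)
      rw [Int.toNat_of_nonneg h1]
      have h2 := Int.emod_add_mul_ediv (-(v i)) M
      exact ⟨-((-(v i)) / M), by linarith⟩
    rw [hΓ2 _ x hx _ hu _ (by
      rw [near_sub, add_sub_add_right_eq_sub]; exact near_sub.1 hw), add_sub_add_right_eq_sub,
      hy2 (sh v x₁) (shift_mem hx₁ v) _ (near_sub.1 hw)]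
    simp [sh]
  have h1 : μ₀ (fun x => F (Θ j₀ x)) = F x₁ := by
    have h2 : μ₀ (fun x => F (Θ j₀ x)) = μ₀ (F x₁ • fun _ => (1 : ℝ)) :=
      hμ₀.congr (hF.comp _) (bdd_one.smul _) fun x hx => by simp [hval x hx]
    rw [h2, hμ₀.smul _ _ bdd_one, hμ₀.one, mul_one]
  calc (0 : ℝ) < F x₁ := hFx₁
    _ = μ₀ (fun x => F (Θ j₀ x)) := h1.symm
    _ ≤ ∑ j : ι, μ₀ (fun x => F (Θ j x)) :=
      Finset.single_le_sum (f := fun j : ι => μ₀ (fun x => F (Θ j x))) (fun j _ => hterm j)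
        (Finset.mem_univ j₀)

end Pool.Agent.Lib_MP_499141
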