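import Pool.Agent.Lib_MP_499141.Section
import Pool.Agent.Lib_MP_499141.FullMean

/-!
# Finitely additive periodic charges on local events
-/

namespace Pool.Agent.Lib_MP_499141

open Set AddMonoidAlgebra

variable {d : ℕ} {A : Type}

/-- The event `S` depends, on `X`, only on the coordinates at distance at most `D` from `v`. -/
def LocAt (X : Set (Conf d A)) (D : ℕ) (v : Pt d) (S : Set (Conf d A)) : Prop :=
  ∀ x ∈ X, ∀ x' ∈ X, (∀ w, Near D v w → x w = x' w) → (x ∈ S ↔ x' ∈ S)

/-- Multiplication of a point by `N`. -/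
def mulP (N : ℕ) (g : Pt d) : Pt d := fun i => (N : ℤ) * g i

/-- Finitely additive charges on local events, with values in a ring, normalised and invariant
under the multiples of `N`. -/
structure Charge {R : Type} [CommRing R] (X : Set (Conf d A)) (D N : ℕ)
    (m : Set (Conf d A) → R) : Prop where
  univ : m univ = 1
  add : ∀ v S S', LocAt X D v S → LocAt X D v S' → (∀ x ∈ X, x ∈ S → x ∉ S') →
    m (S ∪ S') = m S + m S'
  inv : ∀ v S, LocAt X D v S → ∀ g, m {x | sh (mulP N g) x ∈ S} = m S
  congr : ∀ v S S', LocAt X D v S → (∀ x ∈ X, x ∈ S ↔ x ∈ S') → m S = m S'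

section

variable {R : Type} [CommRing R] {X : Set (Conf d A)} {D N : ℕ} {m : Set (Conf d A) → R}

theorem Charge.empty (h : Charge X D N m) : m ∅ = 0 := by
  have h1 := h.add 0 ∅ ∅ (fun _ _ _ _ _ => Iff.rfl) (fun _ _ _ _ _ => Iff.rfl)
    (fun _ _ h => absurd h (notMem_empty _))
  rw [union_self] at h1
  exact left_eq_add.1 h1

theorem Charge.eq_zero (h : Charge X D N m) {v : Pt d} {S : Set (Conf d A)} (hS : LocAt X D v S)
    (h0 : ∀ x ∈ X, x ∉ S) : m S = 0 := by
  rw [h.congr v S ∅ hS fun x hx => ⟨fun h1 => absurd h1 (h0 x hx), fun h1 => absurd h1 (notMem_empty _)⟩,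
    h.empty]

theorem Charge.eq_one (h : Charge X D N m) {v : Pt d} {S : Set (Conf d A)} (hS : LocAt X D v S)
    (h0 : ∀ x ∈ X, x ∈ S) : m S = 1 := by
  rw [h.congr v S Set.univ hS fun x hx => ⟨fun _ => trivial, fun _ => h0 x hx⟩, h.univ]

/-- The partition formula. -/
theorem Charge.partition (h : Charge X D N m) {v : Pt d} {ι : Type} [DecidableEq ι]
    (G : Conf d A → ι) (hG : ∀ i, LocAt X D v {x | G x = i}) (Q : Finset ι) :
    m {x | G x ∈ Q} = ∑ i ∈ Q, m {x | G x = i} := by
  have hQ : ∀ Q : Finset ι, LocAt X D v {x | G x ∈ Q} := by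
    intro Q x hx x' hx' hxx'
    have h1 : G x = G x' := by
      have := (hG (G x) x hx x' hx' hxx').1 rfl
      exact this.symm
    show G x ∈ Q ↔ G x' ∈ Q
    rw [h1]
  induction Q using Finset.induction_on with
  | empty =>
    have : {x | G x ∈ (∅ : Finset ι)} = (∅ : Set (Conf d A)) := by ext x; simp
    rw [this, h.empty, Finset.sum_empty]
  | insert i Q hi ih =>
    rw [Finset.sum_insert hi, ← ih, ← h.add v _ _ (hG i) (hQ Q)]
    · congr 1
      ext x
      simp
    · intro x _ h1 h2
      apply hi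
      have h3 : G x = i := h1
      rw [← h3]; exact h2

end

/-- The charge of a mean. -/
theorem IsMean.charge {X : Set (Conf d A)} {M : ℕ} {μ : (Conf d A → ℝ) → ℝ} (h : IsMean X M μ)
    (D : ℕ) : Charge X D M (fun S => μ (S.indicator fun _ => 1)) := by
  have hb : ∀ S : Set (Conf d A), Bdd (S.indicator fun _ => (1 : ℝ)) := fun S =>
    ⟨1, fun x => by
      by_cases hx : x ∈ S
      · simp [indicator_of_mem hx]
      · simp [indicator_of_notMem hx]⟩
  refine ⟨?_, ?_, ?_, ?_⟩
  · show μ (Set.univ.indicator _) = 1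
    rw [indicator_univ]
    exact h.one
  · intro v S S' _ _ hd
    show μ ((S ∪ S').indicator _) = μ _ + μ _
    rw [← h.add _ _ (hb S) (hb S')]
    refine h.congr (hb _) ((hb S).add (hb S')) fun x hx => ?_
    rw [Pi.add_apply]
    by_cases h1 : x ∈ S
    · rw [indicator_of_mem (show x ∈ S ∪ S' from Or.inl h1), indicator_of_mem h1, indicator_of_notMem (hd x hx h1),
        add_zero]
    · by_cases h2 : x ∈ S'
      · rw [indicator_of_mem (show x ∈ S ∪ S' from Or.inr h2), indicator_of_mem h2, indicator_of_notMem h1, zero_add]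
      · rw [indicator_of_notMem (show x ∉ S ∪ S' from fun h3 => h3.elim h1 h2), indicator_of_notMem h1,
          indicator_of_notMem h2, add_zero]
  · intro v S _ g
    exact h.inv _ (hb S) g
  · intro v S S' _ hSS'
    refine h.congr (hb _) (hb _) fun x hx => ?_
    by_cases h1 : x ∈ S
    · rw [indicator_of_mem h1, indicator_of_mem ((hSS' x hx).1 h1)]
    · rw [indicator_of_notMem h1, indicator_of_notMem (fun h2 => h1 ((hSS' x hx).2 h2))]

theorem pair_eq_sum (b : (Fin d → ℤ) → ℤ) (f : Lam d) :
    pair b f = ∑ h ∈ f.coeff.support, f.coeff h * b h := by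
  simp [pair, Finsupp.liftAddHom_apply, Finsupp.sum]

theorem pair_congr {b b' : (Fin d → ℤ) → ℤ} {f : Lam d}
    (h : ∀ g ∈ f.coeff.support, b g = b' g) : pair b f = pair b' f := by
  rw [pair_eq_sum, pair_eq_sum]
  exact Finset.sum_congr rfl fun g hg => by rw [h g hg]

/-- The cube of radius `D` around the origin. -/
def Cube (d D : ℕ) : Set (Pt d) := {t | Near D 0 t}

theorem finite_cube (d D : ℕ) : (Cube d D).Finite := by
  have : Cube d D ⊆ Set.Icc (fun _ => -(D : ℤ)) (fun _ => (D : ℤ)) := by
    intro t ht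
    refine ⟨fun i => ?_, fun i => ?_⟩
    · have := abs_le.1 (ht i)
      simp only [Pi.zero_apply, sub_zero] at this
      exact this.1
    · have := abs_le.1 (ht i)
      simp only [Pi.zero_apply, sub_zero] at this
      exact this.2
  exact (Set.finite_Icc _ _).subset this

instance (d D : ℕ) : Finite (Cube d D) := finite_cube d D

/-- The pattern of `x` on the cube around `h`. -/
def patt (D : ℕ) (x : Conf d A) (h : Pt d) : Cube d D → A := fun w => x (w.1 + h)

theorem patt_sh (D : ℕ) (x : Conf d A) (g h : Pt d) : patt D (sh g x) h = patt D x (g + h) := by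
  funext w
  show x (w.1 + h + g) = x (w.1 + (g + h))
  congr 1
  abel

theorem patt_congr {D : ℕ} {x x' : Conf d A} {h : Pt d} (hx : ∀ w, Near D h w → x w = x' w) :
    patt D x h = patt D x' h := by
  funext ⟨w, hw⟩
  refine hx _ ?_
  rw [near_sub, add_sub_cancel_right]
  exact hw

open Classical in
/-- The pattern vector of a configuration. -/
noncomputable def tvec (D : ℕ) (x : Conf d A) : (Cube d D → A) → Pt d → ℤ :=
  fun π h => if patt D x h = π then 1 else 0

theorem tvec_sh (D : ℕ) (x : Conf d A) (g : Pt d) :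
    (fun π h => tvec D x π (g + h)) = tvec D (sh g x) := by
  funext π h
  unfold tvec
  rw [patt_sh]

theorem tvec_congr {D : ℕ} {x x' : Conf d A} {h : Pt d} (hx : ∀ w, Near D h w → x w = x' w)
    (π : Cube d D → A) : tvec D x π h = tvec D x' π h := by
  unfold tvec
  rw [patt_congr hx]

/-- The pattern vectors of a strongly irreducible SFT satisfy the conditions of `Section.lean`. -/
theorem good_tvec [Finite A] {E : Finset (Pt d)} {P : Set (E → A)} {R : ℕ}
    (hG : GapGlue (sft E P) R) (hne : (sft E P).Nonempty) (D : ℕ) [Fintype (Cube d D → A)] :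
    Good' {t | ∃ x ∈ sft E P, t = tvec D x} := by
  classical
  refine ⟨?_, ?_, ?_, ?_, ?_⟩
  · rintro t ⟨x, hx, rfl⟩ g
    exact ⟨sh g x, shift_mem hx g, tvec_sh D x g⟩
  · obtain ⟨x, hx⟩ := hne
    exact ⟨_, x, hx, rfl⟩
  · rintro t ⟨x, hx, rfl⟩ h
    simp only [tvec]
    rw [Finset.sum_ite_eq]
    simp
  · obtain ⟨μ, hμ⟩ := exists_mean (X := sft E P) (fun x hx g => shift_mem hx g) hne
    have hb : ∀ (π : Cube d D → A) (f : Lam d),
        Bdd (fun x : Conf d A => ((pair (tvec D x π) f : ℤ) : ℝ)) := by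
      intro π f
      refine ⟨∑ h ∈ f.coeff.support, |(f.coeff h : ℝ)|, fun x => ?_⟩
      show |((pair (tvec D x π) f : ℤ) : ℝ)| ≤ _
      rw [pair_eq_sum]
      push_cast
      refine (Finset.abs_sum_le_sum_abs _ _).trans (Finset.sum_le_sum fun h _ => ?_)
      rw [abs_mul]
      have h1 : |((tvec D x π h : ℤ) : ℝ)| ≤ 1 := by
        simp only [tvec]
        split_ifs <;> simp
      nlinarith [abs_nonneg ((f.coeff h : ℤ) : ℝ)]
    let c : (Cube d D → A) → ℝ := fun π => μ fun x => ((tvec D x π 0 : ℤ) : ℝ)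
    have hb0 : ∀ (π : Cube d D → A), Bdd (fun x : Conf d A => ((tvec D x π 0 : ℤ) : ℝ)) := fun π =>
      ⟨1, fun x => by simp only [tvec]; split_ifs <;> simp⟩
    have hkey : ∀ (π : Cube d D → A) (f : Lam d),
        μ (fun x => ((pair (tvec D x π) f : ℤ) : ℝ)) = ((pair (fun _ => 1) f : ℤ) : ℝ) * c π := by
      intro π f
      induction f using AddMonoidAlgebra.induction_linear with
      | zero =>
        have : (fun x : Conf d A => ((pair (tvec D x π) 0 : ℤ) : ℝ)) = (0 : ℝ) • fun _ => (1 : ℝ) := by
          funext x; simp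
        rw [this, hμ.smul _ _ bdd_one]; simp
      | add f g hf hg =>
        have : (fun x : Conf d A => ((pair (tvec D x π) (f + g) : ℤ) : ℝ)) =
            (fun x => ((pair (tvec D x π) f : ℤ) : ℝ)) + fun x => ((pair (tvec D x π) g : ℤ) : ℝ) := by
          funext x
          rw [Pi.add_apply, map_add]
          push_cast
          rfl
        rw [this, hμ.add _ _ (hb π f) (hb π g), hf, hg, map_add]
        push_cast
        ring
      | single h r =>
        have h1 : (fun x : Conf d A => ((pair (tvec D x π) (single h r) : ℤ) : ℝ)) =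
            (r : ℝ) • fun x => ((tvec D (sh h x) π 0 : ℤ) : ℝ) := by
          funext x
          rw [pair_single]
          have h3 : tvec D (sh h x) π 0 = tvec D x π h := by
            rw [← tvec_sh]
            show tvec D x π (h + 0) = _
            rw [add_zero]
          rw [Pi.smul_apply, h3]
          push_cast
          rfl
        have h2 := hμ.inv _ (hb0 π) h
        rw [h1, hμ.smul _ _ ((hb0 π).comp (sh h))]
        simp only [Nat.cast_one, one_mul] at h2
        rw [pair_single, h2]
        simp [c]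
    refine ⟨c, ?_, ?_⟩
    · have hsum : ∀ Q : Finset (Cube d D → A), ∑ π ∈ Q, c π =
          μ (fun x => ∑ π ∈ Q, ((tvec D x π 0 : ℤ) : ℝ)) ∧
          Bdd (fun x : Conf d A => ∑ π ∈ Q, ((tvec D x π 0 : ℤ) : ℝ)) := by
        intro Q
        induction Q using Finset.induction_on with
        | empty =>
          have : (fun x : Conf d A => ∑ π ∈ (∅ : Finset (Cube d D → A)), ((tvec D x π 0 : ℤ) : ℝ)) =
              (0 : ℝ) • fun _ => (1 : ℝ) := by
            funext x; simp
          rw [this, hμ.smul _ _ bdd_one]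
          exact ⟨by simp, bdd_one.smul 0⟩
        | insert π Q hπ ih =>
          have : (fun x : Conf d A => ∑ π ∈ insert π Q, ((tvec D x π 0 : ℤ) : ℝ)) =
              (fun x => ((tvec D x π 0 : ℤ) : ℝ)) + fun x => ∑ π ∈ Q, ((tvec D x π 0 : ℤ) : ℝ) := by
            funext x
            rw [Pi.add_apply, Finset.sum_insert hπ]
          rw [this, hμ.add _ _ (hb0 π) ih.2, Finset.sum_insert hπ, ih.1]
          exact ⟨rfl, (hb0 π).add ih.2⟩
      rw [(hsum Finset.univ).1]
      have : (fun x : Conf d A => ∑ π : Cube d D → A, ((tvec D x π 0 : ℤ) : ℝ)) = fun _ => 1 := by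
        funext x
        simp only [tvec]
        push_cast
        rw [Finset.sum_ite_eq]
        simp
      rw [this, hμ.one]
    · intro f hf
      have hsum : ∀ Q : Finset (Cube d D → A),
          ∑ π ∈ Q, ((pair (fun _ => 1) (f π) : ℤ) : ℝ) * c π =
            μ (fun x => ∑ π ∈ Q, ((pair (tvec D x π) (f π) : ℤ) : ℝ)) ∧
          Bdd (fun x : Conf d A => ∑ π ∈ Q, ((pair (tvec D x π) (f π) : ℤ) : ℝ)) := by
        intro Q
        induction Q using Finset.induction_on with
        | empty =>
          have : (fun x : Conf d A => ∑ π ∈ (∅ : Finset (Cube d D → A)),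
              ((pair (tvec D x π) (f π) : ℤ) : ℝ)) = (0 : ℝ) • fun _ => (1 : ℝ) := by
            funext x; simp
          rw [this, hμ.smul _ _ bdd_one]
          exact ⟨by simp, bdd_one.smul 0⟩
        | insert π Q hπ ih =>
          have : (fun x : Conf d A => ∑ π ∈ insert π Q, ((pair (tvec D x π) (f π) : ℤ) : ℝ)) =
              (fun x => ((pair (tvec D x π) (f π) : ℤ) : ℝ)) +
                fun x => ∑ π ∈ Q, ((pair (tvec D x π) (f π) : ℤ) : ℝ) := by
            funext x
            rw [Pi.add_apply, Finset.sum_insert hπ]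
          rw [this, hμ.add _ _ (hb π _) ih.2, Finset.sum_insert hπ, ih.1, hkey]
          exact ⟨rfl, (hb π _).add ih.2⟩
      rw [(hsum Finset.univ).1]
      have h1 : μ (fun x : Conf d A => ∑ π : Cube d D → A, ((pair (tvec D x π) (f π) : ℤ) : ℝ)) =
          μ ((0 : ℝ) • fun _ => (1 : ℝ)) := by
        refine hμ.congr (hsum Finset.univ).2 (bdd_one.smul 0) fun x hx => ?_
        have h2 := hf _ ⟨x, hx, rfl⟩
        rw [ev_apply] at h2
        rw [← Int.cast_sum, h2]
        simp
      rw [h1, hμ.smul _ _ bdd_one, zero_mul]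
  · rintro f t ⟨x, hx, rfl⟩ t' ⟨x', hx', rfl⟩
    -- a cube containing the supports
    obtain ⟨L, hL⟩ : ∃ L : ℕ, ∀ π, ∀ h ∈ (f π).coeff.support, Near L 0 h := by
      obtain ⟨L, hL⟩ := exists_bound (Finset.univ.biUnion fun π : Cube d D → A => (f π).coeff.support)
      refine ⟨L, fun π h hh i => ?_⟩
      have := hL h (Finset.mem_biUnion.2 ⟨π, Finset.mem_univ _, hh⟩) i
      simpa using this
    obtain ⟨x'', hx'', h1, h2⟩ := hG {t | Near (L + D) 0 t} {t | ¬ Near (L + D + R) 0 t}
      (fun u hu w hw h => hw (Near.trans hu h)) x' hx' x hx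
    refine ⟨_, ⟨x'', hx'', rfl⟩, ?_, ?_⟩
    · have hfin : ∀ π : Cube d D → A,
          (Function.support fun h => tvec D x'' π h - tvec D x π h).Finite := by
        intro π
        refine (finite_cube d (L + D + R + D)).subset fun h hh => ?_
        by_contra hcon
        apply hh
        show _ - _ = 0
        rw [sub_eq_zero]
        refine tvec_congr (fun w hw => h2 w fun h3 => hcon ?_) π
        exact Near.trans h3 hw.symm
      refine ⟨fun π => Finsupp.ofSupportFinite _ (hfin π), fun π h => rfl⟩
    · rw [ev_apply, ev_apply]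
      refine Finset.sum_congr rfl fun π _ => pair_congr fun h hh => tvec_congr (fun w hw => ?_) π
      exact h1 w (Near.trans (hL π h hh) hw)

end Pool.Agent.Lib_MP_499141
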