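import Pool.Agent.Lib_MP_499141.Relax

/-!
# Two classes of relations solved by the relaxations
-/

namespace Pool.Agent.Lib_MP_499141

open Set

/-- Affine relations over a finite abelian group are solved by the affine relaxation. -/
theorem solved_of_affine {E A : Type} [Fintype E] [DecidableEq E] [Fintype A] [DecidableEq A]
    [AddCommGroup A] {P : Set (E → A)} (hP : ∀ x ∈ P, ∀ y ∈ P, ∀ z ∈ P, x - y + z ∈ P) :
    SolvedByRelaxation P := by
  refine ⟨0, fun V _ _ C h => ?_⟩
  obtain ⟨H, hH, hext⟩ := h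
  obtain ⟨s, hs⟩ := hH.nonempty
  obtain ⟨q, p, r, p', _, hr, _, _, hrq, _, hq, _⟩ := hext ∅ s (by simp) hs
  refine ⟨fun v => ∑ a, p' v a • a, fun c hc => ?_⟩
  have hsupp : ∀ τ, r c τ ≠ 0 → τ ∈ P := fun τ hτ => (hq c hc τ (hrq c hc τ hτ)).1
  have hval : (fun e => ∑ a, p' (c e) a • a) = ∑ τ, r c τ • τ := by
    funext e
    rw [Finset.sum_apply]
    have h1 : ∀ a, p' (c e) a • a = ∑ τ : E → A, (if τ e = a then r c τ • a else 0) := by
      intro a
      rw [← hr.marginal c hc e a, Finset.sum_smul]
      refine Finset.sum_congr rfl fun τ _ => ?_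
      split_ifs
      · rfl
      · rw [zero_smul]
    rw [Finset.sum_congr rfl fun a _ => h1 a, Finset.sum_comm]
    refine Finset.sum_congr rfl fun τ _ => ?_
    rw [Finset.sum_ite_eq, if_pos (Finset.mem_univ _)]
    rfl
  rw [hval]
  obtain ⟨τ₀, hτ₀⟩ : ∃ τ₀, r c τ₀ ≠ 0 := by
    by_contra hcon
    push Not at hcon
    have := hr.total_scope c hc
    rw [Finset.sum_congr rfl fun τ _ => hcon τ, Finset.sum_const_zero] at this
    exact zero_ne_one this
  have h0 := hsupp τ₀ hτ₀
  let G : AddSubgroup (E → A) :=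
    { carrier := {δ | τ₀ + δ ∈ P}
      zero_mem' := by show τ₀ + 0 ∈ P; rw [add_zero]; exact h0
      add_mem' := by
        intro a b ha hb
        have := hP _ ha _ h0 _ hb
        have h2 : τ₀ + a - τ₀ + (τ₀ + b) = τ₀ + (a + b) := by abel
        rw [h2] at this
        exact this
      neg_mem' := by
        intro a ha
        have := hP _ h0 _ ha _ h0
        have h2 : τ₀ - (τ₀ + a) + τ₀ = τ₀ + -a := by abel
        rw [h2] at this
        exact this }
  have h1 : ∑ τ, r c τ • (τ - τ₀) ∈ G := by
    refine AddSubgroup.sum_mem _ fun τ _ => ?_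
    by_cases hτ : r c τ = 0
    · rw [hτ, zero_smul]; exact G.zero_mem
    · refine AddSubgroup.zsmul_mem _ ?_ _
      show τ₀ + (τ - τ₀) ∈ P
      rw [add_sub_cancel]
      exact hsupp τ hτ
  have h2 : τ₀ + ∑ τ, r c τ • (τ - τ₀) = ∑ τ, r c τ • τ := by
    simp only [smul_sub, Finset.sum_sub_distrib, ← Finset.sum_smul]
    rw [hr.total_scope c hc, one_smul]
    abel
  have h3 : τ₀ + ∑ τ, r c τ • (τ - τ₀) ∈ P := h1
  rwa [h2] at h3

/-- A consistent family can be extended to any set of at most `m` variables. -/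
theorem ConsistentFamily.extend_many {V E A : Type} [DecidableEq V] {P : Set (E → A)}
    {C : Set (E → V)} {m : ℕ} {H : Finset V → (V → A) → Prop} (hH : ConsistentFamily P C m H)
    {S : Finset V} {s : V → A} (hs : H S s) (T : Finset V) (hT : (S ∪ T).card ≤ m) :
    ∃ t, H (S ∪ T) t ∧ ∀ v ∈ S, t v = s v := by
  induction T using Finset.induction_on with
  | empty => exact ⟨s, by rw [Finset.union_empty]; exact hs, fun v _ => rfl⟩
  | insert w T hw ih =>
    have h1 : S ∪ insert w T = insert w (S ∪ T) := Finset.union_insert w S T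
    rw [h1] at hT ⊢
    obtain ⟨t, ht, hts⟩ := ih ((Finset.card_le_card (Finset.subset_insert _ _)).trans hT)
    by_cases hwS : w ∈ S ∪ T
    · rw [Finset.insert_eq_of_mem hwS]
      exact ⟨t, ht, hts⟩
    · rw [Finset.card_insert_of_notMem hwS] at hT
      obtain ⟨c, hc⟩ := hH.extend _ t w (by omega) ht
      refine ⟨_, hc, fun v hv => ?_⟩
      have hvw : v ≠ w := by
        rintro rfl
        exact hwS (Finset.mem_union_left _ hv)
      rw [Function.update_of_ne hvw]
      exact hts v hv

/-- Relations closed under a semilattice operation have bounded width. -/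
theorem boundedWidth_of_semilattice {E A : Type} [Fintype E] [DecidableEq E] [Finite A]
    [SemilatticeInf A] {P : Set (E → A)} (hP : ∀ x ∈ P, ∀ y ∈ P, x ⊓ y ∈ P) :
    BoundedWidth P := by
  classical
  have : Fintype A := Fintype.ofFinite A
  refine ⟨Fintype.card E + 1, fun V _ _ C h => ?_⟩
  obtain ⟨H, hH⟩ := h
  obtain ⟨s₀, hs₀⟩ := hH.nonempty
  -- the allowed values
  let D : V → Finset A := fun v => Finset.univ.filter fun a => ∃ t, H {v} t ∧ t v = a
  have hD : ∀ v, (D v).Nonempty := by
    intro v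
    obtain ⟨t, ht, -⟩ := hH.extend_many hs₀ {v} (by simp)
    rw [Finset.empty_union] at ht
    exact ⟨t v, by simp only [D, Finset.mem_filter, Finset.mem_univ, true_and]; exact ⟨t, ht, rfl⟩⟩
  refine ⟨fun v => (D v).inf' (hD v) id, fun c hc => ?_⟩
  have hcard : (Finset.univ.image c).card ≤ Fintype.card E := by
    refine Finset.card_image_le.trans ?_
    simp
  -- the allowed tuples
  let Q : Finset (E → A) := Finset.univ.filter fun τ => ∃ t, H (Finset.univ.image c) t ∧
    (fun e => t (c e)) = τ
  have hQP : ∀ τ ∈ Q, τ ∈ P := by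
    intro τ hτ
    obtain ⟨t, ht, rfl⟩ := (Finset.mem_filter.1 hτ).2
    exact hH.solves _ t c (by omega) hc
      (fun e => Finset.mem_image_of_mem c (Finset.mem_univ e)) ht
  have hQ : Q.Nonempty := by
    obtain ⟨t, ht, -⟩ := hH.extend_many hs₀ (Finset.univ.image c)
      (by rw [Finset.empty_union]; omega)
    rw [Finset.empty_union] at ht
    exact ⟨_, Finset.mem_filter.2 ⟨Finset.mem_univ _, t, ht, rfl⟩⟩
  have h1 : (fun e => (D (c e)).inf' (hD (c e)) id) = Q.inf' hQ id := by
    funext e
    rw [Finset.inf'_apply]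
    apply le_antisymm
    · refine Finset.le_inf' _ _ fun τ hτ => ?_
      obtain ⟨t, ht, rfl⟩ := (Finset.mem_filter.1 hτ).2
      have h5 : t (c e) ∈ D (c e) := Finset.mem_filter.2 ⟨Finset.mem_univ _, t,
        hH.restrict _ _ t (by omega)
          (Finset.singleton_subset_iff.2 (Finset.mem_image_of_mem c (Finset.mem_univ e))) ht, rfl⟩
      exact Finset.inf'_le id h5
    · refine Finset.le_inf' _ _ fun a ha => ?_
      obtain ⟨t, ht, rfl⟩ := (Finset.mem_filter.1 ha).2
      obtain ⟨t', ht', htt'⟩ := hH.extend_many ht (Finset.univ.image c) (by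
        refine (Finset.card_union_le _ _).trans ?_
        simp only [Finset.card_singleton]
        omega)
      have h2 : {c e} ∪ Finset.univ.image c = Finset.univ.image c :=
        Finset.union_eq_right.2 (Finset.singleton_subset_iff.2
          (Finset.mem_image_of_mem c (Finset.mem_univ e)))
      rw [h2] at ht'
      have h3 : (fun e => t' (c e)) ∈ Q := Finset.mem_filter.2 ⟨Finset.mem_univ _, t', ht', rfl⟩
      have h4 := Finset.inf'_le (fun τ : E → A => id τ e) h3
      simp only [id_eq] at h4 ⊢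
      rw [htt' (c e) (Finset.mem_singleton_self _)] at h4
      exact h4
  rw [h1]
  exact Finset.inf'_mem P (fun x hx y hy => hP x hx y hy) Q hQ id fun τ hτ => hQP τ hτ

end Pool.Agent.Lib_MP_499141
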