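import Pool.Agent.Lib_MP_499141.Density

/-!
# Insertion maps of strongly irreducible SFTs

Given well separated places `u ∈ U` and points `y u ∈ X` there is a local map `Γ : X → X` that writes
`y u` around each place `u ∈ U`, does not change anything far from `U`, and commutes with all shifts
that preserve the data.
-/

namespace Pool.Agent.Lib_MP_499141

open Set

variable {d : ℕ} {A : Type}

/-- The shift of a configuration. -/
def sh (g : Pt d) (x : Conf d A) : Conf d A := fun t => x (t + g)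

theorem sh_apply (g t : Pt d) (x : Conf d A) : sh g x t = x (t + g) := rfl

theorem sh_sh (g h : Pt d) (x : Conf d A) : sh g (sh h x) = sh (g + h) x := by
  funext t; simp [sh, add_assoc]

theorem sh_zero (x : Conf d A) : sh 0 x = x := by
  funext t; simp [sh]

/-- `t` lies in the cube of radius `r` around `u`. -/
def Near (r : ℕ) (u t : Pt d) : Prop := ∀ i, |t i - u i| ≤ r

theorem Near.symm {r : ℕ} {u t : Pt d} (h : Near r u t) : Near r t u := fun i => by
  rw [abs_sub_comm]; exact h i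

theorem Near.trans {r s : ℕ} {u t w : Pt d} (h : Near r u t) (h' : Near s t w) :
    Near (r + s) u w := fun i => by
  have h1 := h i
  have h2 := h' i
  have h3 := abs_sub_le (w i) (t i) (u i)
  push_cast
  linarith

theorem Near.mono {r s : ℕ} (hrs : r ≤ s) {u t : Pt d} (h : Near r u t) : Near s u t := fun i =>
  (h i).trans (by exact_mod_cast hrs)

theorem near_sub {r : ℕ} {u t : Pt d} : Near r u t ↔ Near r 0 (t - u) := by
  simp [Near]

section

variable {E : Finset (Pt d)} {P : Set (E → A)}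

/-- Strong irreducibility with an integral gap, over arbitrary sets. -/
def GapGlue (X : Set (Conf d A)) (R : ℕ) : Prop :=
  ∀ S T : Set (Pt d), (∀ u ∈ S, ∀ w ∈ T, ¬ Near R u w) →
    ∀ y ∈ X, ∀ z ∈ X, ∃ x ∈ X, (∀ u ∈ S, x u = y u) ∧ (∀ w ∈ T, x w = z w)

theorem exists_gapGlue [Finite A] (hSI : StronglyIrreducible (sft E P)) :
    ∃ R : ℕ, GapGlue (sft E P) R := by
  obtain ⟨R, hR0, hR⟩ := hSI
  obtain ⟨r, hr⟩ := exists_nat_gt R
  refine ⟨r, fun S T hST y hy z hz => glue hR S T (fun u hu w hw => ?_) hy hz⟩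
  have h1 := hST u hu w hw
  simp only [Near, not_forall, not_le] at h1
  obtain ⟨i, hi⟩ := h1
  have h3 := le_norm_sub u w i
  have h4 : (r : ℝ) ≤ ((|u i - w i| : ℤ) : ℝ) := by
    rw [abs_sub_comm]
    exact_mod_cast hi.le
  linarith

/-- The insertion map. -/
theorem exists_insertion {K : ℕ} (hK : ∀ u ∈ E, ∀ i, |u i| ≤ K) {R : ℕ}
    (hG : GapGlue (sft E P) R) (ρ : ℕ) (U : Set (Pt d)) (y : Pt d → Conf d A)
    (hy : ∀ u ∈ U, y u ∈ sft E P)
    (hU : ∀ u ∈ U, ∀ u' ∈ U, Near (2 * ρ + 2 * R + 4 * K) u u' → u = u') :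
    ∃ Γ : Conf d A → Conf d A, (∀ x ∈ sft E P, Γ x ∈ sft E P) ∧
      (∀ x ∈ sft E P, ∀ u ∈ U, ∀ t, Near ρ u t → Γ x t = y u (t - u)) ∧
      (∀ x x' : Conf d A, ∀ t, (∀ w, Near (2 * (ρ + R + 2 * K)) t w → x w = x' w) →
        Γ x t = Γ x' t) ∧
      (∀ g : Pt d, (∀ u, u + g ∈ U ↔ u ∈ U) → (∀ u ∈ U, y (u + g) = y u) →
        ∀ x, Γ (sh g x) = sh g (Γ x)) := by
  classical
  set W : ℕ := ρ + R + 2 * K with hW
  let B : Set (Pt d) := {t | Near W 0 t}
  -- a representative of each pattern on the big ball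
  let rep : (B → A) → Conf d A → Conf d A := fun π y₀ =>
    if h : ∃ x ∈ sft E P, B.domRestrict x = π then h.choose else y₀
  -- the filling
  let F : Conf d A → (B → A) → Conf d A := fun y₀ π =>
    if h : ∃ z ∈ sft E P, (∀ t, Near ρ 0 t → z t = y₀ t) ∧
      (∀ t, ¬ Near (ρ + R) 0 t → z t = rep π y₀ t) then h.choose else y₀
  have hrep : ∀ x ∈ sft E P, ∀ y₀, rep (B.domRestrict x) y₀ ∈ sft E P ∧
      ∀ t, Near W 0 t → rep (B.domRestrict x) y₀ t = x t := by
    intro x hx y₀
    have h : ∃ x' ∈ sft E P, B.domRestrict x' = B.domRestrict x := ⟨x, hx, rfl⟩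
    have h1 : rep (B.domRestrict x) y₀ = h.choose := by simp only [rep, dif_pos h]
    rw [h1]
    refine ⟨h.choose_spec.1, fun t ht => ?_⟩
    exact congrFun h.choose_spec.2 ⟨t, ht⟩
  have hF : ∀ x ∈ sft E P, ∀ y₀ ∈ sft E P, F y₀ (B.domRestrict x) ∈ sft E P ∧
      (∀ t, Near ρ 0 t → F y₀ (B.domRestrict x) t = y₀ t) ∧
      (∀ t, Near W 0 t → ¬ Near (ρ + R) 0 t → F y₀ (B.domRestrict x) t = x t) := by
    intro x hx y₀ hy₀
    obtain ⟨h1, h2⟩ := hrep x hx y₀
    have h : ∃ z ∈ sft E P, (∀ t, Near ρ 0 t → z t = y₀ t) ∧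
        (∀ t, ¬ Near (ρ + R) 0 t → z t = rep (B.domRestrict x) y₀ t) := by
      obtain ⟨z, hz, hz1, hz2⟩ := hG {t | Near ρ 0 t} {t | ¬ Near (ρ + R) 0 t}
        (fun u hu w hw h => hw (Near.trans hu h)) y₀ hy₀ _ h1
      exact ⟨z, hz, hz1, hz2⟩
    have h3 : F y₀ (B.domRestrict x) = h.choose := by simp only [F, dif_pos h]
    rw [h3]
    refine ⟨h.choose_spec.1, h.choose_spec.2.1, fun t ht ht' => ?_⟩
    rw [h.choose_spec.2.2 t ht', h2 t ht]
  let Γ : Conf d A → Conf d A := fun x t =>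
    if h : ∃ u ∈ U, Near (ρ + R) u t then F (y h.choose) (B.domRestrict (sh h.choose x)) (t - h.choose)
    else x t
  have huniq : ∀ u ∈ U, ∀ u' ∈ U, ∀ t, Near W u t → Near (ρ + R) u' t → u = u' := by
    intro u hu u' hu' t h1 h2
    refine hU u hu u' hu' ((h1.trans h2.symm).mono ?_)
    omega
  have hΓ1 : ∀ x, ∀ u ∈ U, ∀ t, Near (ρ + R) u t →
      Γ x t = F (y u) (B.domRestrict (sh u x)) (t - u) := by
    intro x u hu t ht
    have h : ∃ u ∈ U, Near (ρ + R) u t := ⟨u, hu, ht⟩
    have h1 : h.choose = u := (huniq u hu _ h.choose_spec.1 t (ht.mono (by omega))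
      h.choose_spec.2).symm
    simp only [Γ, dif_pos h, h1]
  have hΓ2 : ∀ x t, (∀ u ∈ U, ¬ Near (ρ + R) u t) → Γ x t = x t := by
    intro x t h
    have h' : ¬ ∃ u ∈ U, Near (ρ + R) u t := by
      rintro ⟨u, hu, h1⟩; exact h u hu h1
    simp only [Γ, dif_neg h']
  refine ⟨Γ, ?_, ?_, ?_, ?_⟩
  · intro x hx
    refine mem_sft_of_local fun v => ?_
    by_cases hcase : ∃ u ∈ U, ∃ e ∈ E, Near (ρ + R) u (e + v)
    · obtain ⟨u, hu, e, he, hue⟩ := hcase
      obtain ⟨h1, h2, h3⟩ := hF (sh u x) (shift_mem hx u) (y u) (hy u hu)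
      refine ⟨_, h1, v - u, fun e' he' => ?_⟩
      have hnear : Near W u (e' + v) := by
        have h4 : Near (2 * K) (e + v) (e' + v) := fun i => by
          have e1 := hK e he i
          have e2 := hK e' he' i
          have e3 : (e' + v) i - (e + v) i = e' i - e i := by simp
          rw [e3]
          have := abs_sub (e' i) (e i)
          push_cast
          linarith
        exact (hue.trans h4).mono (by omega)
      have hadd : e' + (v - u) = e' + v - u := by abel
      rw [hadd]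
      by_cases h5 : Near (ρ + R) u (e' + v)
      · exact hΓ1 x u hu _ h5
      · rw [hΓ2 x _ (fun u' hu' h6 => h5 (by
          have := huniq u hu u' hu' _ hnear h6
          rw [this]; exact h6))]
        rw [h3 _ (near_sub.1 hnear) (fun h6 => h5 (near_sub.2 h6))]
        simp [sh]
    · push Not at hcase
      exact ⟨x, hx, v, fun e he => hΓ2 x _ fun u hu => hcase u hu e he⟩
  · intro x hx u hu t ht
    rw [hΓ1 x u hu t (ht.mono (by omega))]
    obtain ⟨h1, h2, h3⟩ := hF (sh u x) (shift_mem hx u) (y u) (hy u hu)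
    exact h2 _ (near_sub.1 ht)
  · intro x x' t h
    by_cases hc : ∃ u ∈ U, Near (ρ + R) u t
    · obtain ⟨u, hu, hut⟩ := hc
      rw [hΓ1 x u hu t hut, hΓ1 x' u hu t hut]
      have h1 : B.domRestrict (sh u x) = B.domRestrict (sh u x') := by
        funext ⟨w, hw⟩
        show x (w + u) = x' (w + u)
        refine h _ ?_
        have h2 : Near W u (w + u) := by
          rw [near_sub, add_sub_cancel_right]; exact hw
        exact (hut.symm.trans h2).mono (by omega)
      rw [h1]
    · push Not at hc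
      rw [hΓ2 x t hc, hΓ2 x' t hc]
      exact h t fun i => by simp
  · intro g hg1 hg2 x
    funext t
    by_cases hc : ∃ u ∈ U, Near (ρ + R) u t
    · obtain ⟨u, hu, hut⟩ := hc
      have hut' : Near (ρ + R) (u + g) (t + g) := by
        rw [near_sub, add_sub_add_right_eq_sub]; exact near_sub.1 hut
      rw [hΓ1 _ u hu t hut, sh_apply, hΓ1 x (u + g) ((hg1 u).2 hu) (t + g) hut', hg2 u hu, sh_sh,
        add_sub_add_right_eq_sub]
    · push Not at hc
      rw [hΓ2 _ t hc, sh_apply, sh_apply, hΓ2 x]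
      intro u hu hut
      have h1 : u - g ∈ U := by
        rw [← hg1, sub_add_cancel]; exact hu
      refine hc _ h1 ?_
      rw [near_sub] at hut ⊢
      have : t - (u - g) = t + g - u := by abel
      rw [this]; exact hut

end

end Pool.Agent.Lib_MP_499141
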