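import Pool.Agent.Lib_MP_499141.Width
import Pool.Agent.Lib_MP_499141.Insert

/-!
# Well separated centres for small subsets of the torus
-/

namespace Pool.Agent.Lib_MP_499141

open Set

variable {d : ℕ} {A : Type}

/-- Two points of the torus have lifts at distance at most `r`. -/
def TNear (N r : ℕ) (a b : Tor d N) : Prop :=
  ∃ u w : Pt d, red d N u = a ∧ red d N w = b ∧ Near r u w

theorem red_add (N : ℕ) (u w : Pt d) : red d N (u + w) = red d N u + red d N w := by
  funext i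
  simp [red]

theorem red_sub (N : ℕ) (u w : Pt d) : red d N (u - w) = red d N u - red d N w := by
  funext i
  simp [red]

theorem TNear.exists_lift {N r : ℕ} {a b : Tor d N} (h : TNear N r a b) {u : Pt d}
    (hu : red d N u = a) : ∃ w, red d N w = b ∧ Near r u w := by
  obtain ⟨u', w', hu', hw', hn⟩ := h
  refine ⟨w' + (u - u'), ?_, ?_⟩
  · rw [red_add, red_sub, hu, hu', sub_self, add_zero, hw']
  · rw [near_sub] at hn ⊢
    have : w' + (u - u') - u = w' - u' := by abel
    rw [this]; exact hn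

theorem TNear.symm {N r : ℕ} {a b : Tor d N} (h : TNear N r a b) : TNear N r b a := by
  obtain ⟨u, w, hu, hw, hn⟩ := h
  exact ⟨w, u, hw, hu, hn.symm⟩

theorem TNear.trans {N r s : ℕ} {a b c : Tor d N} (h : TNear N r a b) (h' : TNear N s b c) :
    TNear N (r + s) a c := by
  obtain ⟨u, w, hu, hw, hn⟩ := h
  obtain ⟨t, ht, hn'⟩ := h'.exists_lift hw
  exact ⟨u, t, hu, ht, hn.trans hn'⟩

theorem TNear.mono {N r s : ℕ} (hrs : r ≤ s) {a b : Tor d N} (h : TNear N r a b) :
    TNear N s a b := by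
  obtain ⟨u, w, hu, hw, hn⟩ := h
  exact ⟨u, w, hu, hw, hn.mono hrs⟩

/-- The radii. -/
def rad (L : ℕ) : ℕ → ℕ
  | 0 => 0
  | k + 1 => 3 * rad L k + L

theorem rad_mono (L : ℕ) : Monotone (rad L) := by
  refine monotone_nat_of_le_succ fun k => ?_
  show rad L k ≤ 3 * rad L k + L
  omega

/-- Centres. -/
theorem exists_centres {N : ℕ} [NeZero N] (L : ℕ) (S : Finset (Tor d N)) :
    ∃ k ≤ S.card, ∃ S₀ ⊆ S, (∀ b ∈ S, ∃ a ∈ S₀, TNear N (rad L k) a b) ∧
      ∀ a ∈ S₀, ∀ b ∈ S₀, TNear N (2 * rad L k + L) a b → a = b := by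
  classical
  have key : ∀ n k : ℕ, ∀ S₀ ⊆ S, S₀.card ≤ n → (∀ b ∈ S, ∃ a ∈ S₀, TNear N (rad L k) a b) →
      ∃ k' ≤ k + n, ∃ S₁ ⊆ S, (∀ b ∈ S, ∃ a ∈ S₁, TNear N (rad L k') a b) ∧
        ∀ a ∈ S₁, ∀ b ∈ S₁, TNear N (2 * rad L k' + L) a b → a = b := by
    intro n
    induction n with
    | zero =>
      intro k S₀ hS₀ hc hcov
      refine ⟨k, le_rfl, S₀, hS₀, hcov, fun a ha => ?_⟩
      rw [Nat.le_zero, Finset.card_eq_zero] at hc
      rw [hc] at ha
      exact absurd ha (Finset.notMem_empty a)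
    | succ n ih =>
      intro k S₀ hS₀ hc hcov
      by_cases hsep : ∀ a ∈ S₀, ∀ b ∈ S₀, TNear N (2 * rad L k + L) a b → a = b
      · exact ⟨k, by omega, S₀, hS₀, hcov, hsep⟩
      · push Not at hsep
        obtain ⟨a, ha, b, hb, hab, hne⟩ := hsep
        obtain ⟨k', hk', S₁, h1, h2, h3⟩ := ih (k + 1) (S₀.erase b)
          ((Finset.erase_subset b S₀).trans hS₀)
          (by rw [Finset.card_erase_of_mem hb]; omega)
          (fun c hc => by
            obtain ⟨a', ha', hn⟩ := hcov c hc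
            by_cases h : a' = b
            · subst h
              refine ⟨a, Finset.mem_erase.2 ⟨hne, ha⟩, (hab.trans hn).mono ?_⟩
              show _ ≤ 3 * rad L k + L
              omega
            · exact ⟨a', Finset.mem_erase.2 ⟨h, ha'⟩, hn.mono (rad_mono L (Nat.le_succ k))⟩)
        exact ⟨k', by omega, S₁, h1, h2, h3⟩
  obtain ⟨k, hk, h⟩ := key S.card 0 S subset_rfl le_rfl (fun b hb => by
    refine ⟨b, hb, (fun i => ((b i).val : ℤ)), (fun i => ((b i).val : ℤ)), ?_, ?_, ?_⟩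
    · funext i; simp [red]
    · funext i; simp [red]
    · intro i; simp [rad])
  exact ⟨k, by omega, h⟩

end Pool.Agent.Lib_MP_499141
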