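import Pool.Agent.Lib_MP_499141.Base

/-!
# One periodic point makes the periodic points of a strongly irreducible SFT dense
-/

namespace Pool.Agent.Lib_MP_499141

open Set

variable {d : ℕ} {A : Type}

theorem le_norm_sub (u w : Pt d) (i : Fin d) : ((|u i - w i| : ℤ) : ℝ) ≤ ‖u - w‖ := by
  have h := norm_le_pi_norm (u - w) i
  rw [Pi.sub_apply, Int.norm_eq_abs] at h
  rw [Int.cast_abs]
  exact h

/-- Periods in all coordinate directions give all multiples of `N` as periods. -/
theorem mem_stab_of_single {x : Conf d A} {N : ℤ} (h : ∀ i : Fin d, Pi.single i N ∈ stab x)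
    (v : Pt d) (hv : ∀ i, N ∣ v i) : v ∈ stab x := by
  classical
  have h1 : v = ∑ i : Fin d, (v i / N) • (Pi.single i N : Pt d) := by
    funext j
    rw [Finset.sum_apply]
    simp only [Pi.smul_apply, Pi.single_apply, smul_eq_mul, mul_ite, mul_zero]
    rw [Finset.sum_ite_eq, if_pos (Finset.mem_univ _), Int.ediv_mul_cancel (hv j)]
  rw [h1]
  exact AddSubgroup.sum_mem _ fun i _ => AddSubgroup.zsmul_mem _ (h i) _

theorem dense_of_periodic [Finite A] {E : Finset (Pt d)} {P : Set (E → A)}
    (hSI : StronglyIrreducible (sft E P)) {p : Conf d A} (hp : p ∈ sft E P) {N : ℤ} (hN : 0 < N)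
    (hper : ∀ v : Pt d, (∀ i, N ∣ v i) → v ∈ stab p) : PeriodicDense (sft E P) := by
  classical
  obtain ⟨R, hR0, hR⟩ := hSI
  intro y hy S
  obtain ⟨K, hK⟩ := exists_bound E
  obtain ⟨b, hb⟩ := exists_bound S
  -- the box
  obtain ⟨ρ, hρ⟩ := exists_nat_gt R
  set B : ℤ := b + ρ with hB
  obtain ⟨q, hq, hqS, hqT⟩ := glue hR (S : Set (Pt d)) {w | ∃ i, B < |w i|} (by
    intro u hu w hw
    obtain ⟨i, hi⟩ := hw
    have h1 := hb u hu i
    have h2 : (ρ : ℤ) ≤ |u i - w i| := by
      have := abs_sub_abs_le_abs_sub (w i) (u i)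
      rw [abs_sub_comm (w i) (u i)] at this
      omega
    have h3 := le_norm_sub u w i
    have h4 : (ρ : ℝ) ≤ ((|u i - w i| : ℤ) : ℝ) := by exact_mod_cast h2
    linarith) hy hp
  have hB0 : 0 ≤ B := by positivity
  set H : ℤ := B + 2 * K with hH
  have hH0 : 0 ≤ H := by positivity
  set L : ℤ := N * (2 * H + 2 * K + 1) with hL
  have hLbig : 2 * H + 2 * K + 1 ≤ L := by
    rw [hL]
    have : (0:ℤ) < 2 * H + 2 * K + 1 := by positivity
    nlinarith
  have hL0 : 0 < L := by linarith [show (0:ℤ) ≤ K by positivity]
  have hNL : N ∣ L := ⟨_, hL⟩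
  let c : ℤ → ℤ := fun t => (t + H) % L - H
  have hc1 : ∀ t, -H ≤ c t := fun t => by
    have := Int.emod_nonneg (t + H) hL0.ne'
    simp only [c]; linarith
  have hc2 : ∀ t, c t < L - H := fun t => by
    have := Int.emod_lt_of_pos (t + H) hL0
    simp only [c]; linarith
  have hc3 : ∀ t, ∃ k, c t = t + L * k := fun t => by
    refine ⟨-((t + H) / L), ?_⟩
    have := Int.emod_add_mul_ediv (t + H) L
    simp only [c]; linarith
  have hc4 : ∀ t, -H ≤ t → t < L - H → c t = t := fun t h1 h2 => by
    simp only [c]
    rw [Int.emod_eq_of_lt (by linarith) (by linarith)]; ring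
  have hc5 : ∀ t k, c (t + L * k) = c t := fun t k => by
    simp only [c]
    have : t + L * k + H = t + H + L * k := by ring
    rw [this, Int.add_mul_emod_self_left]
  let z : Conf d A := fun u => q (fun i => c (u i))
  have hqp : ∀ w : Pt d, (∃ i, B < |w i|) → q w = p w := fun w hw => hqT w hw
  have hz : z ∈ sft E P := by
    refine mem_sft_of_local fun v => ?_
    have key : ∀ u ∈ E, ∀ i, c ((u + v) i) = c (u i + c (v i)) := by
      intro u _ i
      obtain ⟨k, hk⟩ := hc3 (v i)
      rw [hk, ← add_assoc, hc5]; rfl
    by_cases hcase : ∀ i, |c (v i)| ≤ B + K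
    · refine ⟨q, hq, fun i => c (v i), fun u hu => ?_⟩
      show q _ = q _
      congr 1
      funext i
      have h1 := abs_le.1 (hcase i)
      have h2 := abs_le.1 (hK u hu i)
      rw [key u hu i]
      exact hc4 _ (by linarith) (by linarith)
    · push Not at hcase
      obtain ⟨i, hi⟩ := hcase
      refine ⟨p, hp, v, fun u hu => ?_⟩
      have h2 := abs_le.1 (hK u hu i)
      have h3 := hc1 (v i)
      have h4 := hc2 (v i)
      have hout : B < |c ((u + v) i)| := by
        rw [key u hu i]
        rcases lt_or_ge (u i + c (v i)) (-H) with h5 | h5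
        · have h6 : c (u i + c (v i)) = u i + c (v i) + L := by
            have := hc5 (u i + c (v i)) 1
            rw [mul_one] at this
            rw [← this]
            exact hc4 _ (by linarith) (by linarith)
          rw [h6]
          exact lt_of_lt_of_le (by linarith) (le_abs_self _)
        · rcases lt_or_ge (u i + c (v i)) (L - H) with h7 | h7
          · rw [hc4 _ h5 h7]
            have := abs_sub_abs_le_abs_sub (c (v i)) (-(u i))
            rw [abs_neg, sub_neg_eq_add, add_comm (c (v i))] at this
            have h8 := hK u hu i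
            linarith
          · have h6 : c (u i + c (v i)) = u i + c (v i) - L := by
              have := hc5 (u i + c (v i)) (-1)
              rw [mul_neg_one, ← sub_eq_add_neg] at this
              rw [← this]
              exact hc4 _ (by linarith) (by linarith)
            rw [h6]
            refine lt_of_lt_of_le ?_ (neg_abs_le _ |> neg_le.1 |> fun h => h)
            linarith
      show q _ = p _
      rw [hqp _ ⟨i, hout⟩]
      have hst : (fun i => c ((u + v) i)) - (u + v) ∈ stab p := by
        apply hper
        intro i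
        obtain ⟨k, hk⟩ := hc3 ((u + v) i)
        rw [Pi.sub_apply, hk, add_sub_cancel_left]
        exact hNL.mul_right k
      have := hst (u + v)
      rw [add_sub_cancel] at this
      exact this
  refine ⟨z, hz, ?_, ?_⟩
  · have hLn : 0 < L.toNat := by omega
    refine isPeriodic_of hLn fun v u => ?_
    show q _ = q _
    congr 1
    funext i
    rw [Int.toNat_of_nonneg hL0.le]
    exact hc5 (u i) (v i)
  · intro u hu
    show q _ = y u
    have : (fun i => c (u i)) = u := by
      funext i
      have := abs_le.1 (hb u hu i)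
      exact hc4 _ (by push_cast [hH, hB]; linarith [show (0:ℤ) ≤ ρ by positivity, show (0:ℤ) ≤ K by positivity]) (by linarith [show (0:ℤ) ≤ ρ by positivity, show (0:ℤ) ≤ K by positivity])
    rw [this]
    exact hqS u hu

end Pool.Agent.Lib_MP_499141
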