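import Pool.Agent.Lib_MP_499141.Density

/-!
# Strongly irreducible SFTs that can be folded in all but two directions
-/

namespace Pool.Agent.Lib_MP_499141

open Set

variable {d : ℕ} {A : Type}

/-- The fold of `x` in the direction `i` about the hyperplane `u i = c / 2`: the half space
`u i < c / 2` is filled with the mirror image of the other half space. -/
def fold (i : Fin d) (c : ℤ) (x : Conf d A) : Conf d A :=
  fun u => x (Function.update u i (max (u i) (c - u i)))

/-- `X` can be folded in the direction `i`: for some `c` all folds about the hyperplane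
`u i = c / 2` of points of `X` are in `X`. -/
def Foldable (X : Set (Conf d A)) (i : Fin d) : Prop :=
  ∃ c : ℤ, ∀ x ∈ X, fold i c x ∈ X

section

variable {E : Finset (Pt d)} {P : Set (E → A)}

theorem mirror_mem {K : ℕ} (hK : ∀ u ∈ E, ∀ i, |u i| ≤ K) {i : Fin d} {c : ℤ}
    (hf : ∀ x ∈ sft E P, fold i c x ∈ sft E P) (c' : ℤ) {x : Conf d A} (hx : x ∈ sft E P) :
    (fun u => x (Function.update u i (c' - u i))) ∈ sft E P := by
  refine mem_sft_of_local fun v => ?_
  set t : ℤ := -K - |c| with ht
  set k : ℤ := c' - c - v i + t with hk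
  refine ⟨fold i c (fun u => x (u + Pi.single i k)), hf _ (shift_mem hx _),
    Function.update v i t, fun u hu => ?_⟩
  have h1 := abs_le.1 (hK u hu i)
  have h2 : (u + Function.update v i t) i = u i + t := by simp
  show x _ = x _
  congr 1
  funext j
  rw [h2]
  have hmax : max (u i + t) (c - (u i + t)) = c - (u i + t) := by
    apply max_eq_right
    have h3 := neg_abs_le c
    have h4 := le_abs_self c
    have h5 := abs_nonneg c
    linarith
  rw [hmax]
  by_cases hj : j = i
  · subst hj
    simp only [Function.update_self, Pi.add_apply, Pi.single_eq_same]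
    rw [hk]; ring
  · simp only [Function.update_of_ne hj, Pi.add_apply, Pi.single_eq_of_ne hj, add_zero]

theorem leftFold_mem {K : ℕ} (hK : ∀ u ∈ E, ∀ i, |u i| ≤ K) {i : Fin d} {c : ℤ}
    (hf : ∀ x ∈ sft E P, fold i c x ∈ sft E P) (h : ℤ) {x : Conf d A} (hx : x ∈ sft E P) :
    (fun u => x (Function.update u i (min (u i) (2 * h + c - u i)))) ∈ sft E P := by
  have h1 := mirror_mem hK hf (h + c) (hf _ (mirror_mem hK hf (h + c) hx))
  convert h1 using 2 with u
  simp only [fold, Function.update_self, Function.update_idem]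
  congr 2
  rcases le_total (h + c - u i) (c - (h + c - u i)) with h2 | h2
  · rw [max_eq_right h2, min_eq_right (by linarith)]; ring
  · rw [max_eq_left h2, min_eq_left (by linarith)]; ring

/-- Folding makes a point periodic in the direction `i` and keeps the periods in the other
directions. -/
theorem fold_step {K : ℕ} (hK : ∀ u ∈ E, ∀ i, |u i| ≤ K) {i : Fin d}
    (hf : Foldable (sft E P) i) {x : Conf d A} (hx : x ∈ sft E P) :
    ∃ z ∈ sft E P, (∃ M : ℤ, 0 < M ∧ Pi.single i M ∈ stab z) ∧
      ∀ j, j ≠ i → ∀ N : ℤ, Pi.single j N ∈ stab x → Pi.single j N ∈ stab z := by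
  obtain ⟨c, hc⟩ := hf
  set h : ℤ := 2 * K + |c| + 2 with hh
  set a : ℤ := (c + 1) / 2 - h with ha
  have hc1 := neg_abs_le c
  have hc2 := le_abs_self c
  have hc3 := abs_nonneg c
  have hK0 : (0 : ℤ) ≤ K := by positivity
  have hh0 : 0 < 2 * h := by linarith
  let s : ℤ → ℤ := fun t => (t - a) % (2 * h) + a
  have hs1 : ∀ t, a ≤ s t := fun t => by
    have := Int.emod_nonneg (t - a) hh0.ne'
    simp only [s]; linarith
  have hs2 : ∀ t, s t < a + 2 * h := fun t => by
    have := Int.emod_lt_of_pos (t - a) hh0
    simp only [s]; linarith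
  have hs3 : ∀ t, a ≤ t → t < a + 2 * h → s t = t := fun t h1 h2 => by
    simp only [s]
    rw [Int.emod_eq_of_lt (by linarith) (by linarith)]; ring
  have hs4 : ∀ t k, s (t + 2 * h * k) = s t := fun t k => by
    simp only [s]
    have : t + 2 * h * k - a = t - a + 2 * h * k := by ring
    rw [this, Int.add_mul_emod_self_left]
  have hs5 : ∀ t, ∃ k, s t = t + 2 * h * k := fun t => by
    refine ⟨-((t - a) / (2 * h)), ?_⟩
    have := Int.emod_add_mul_ediv (t - a) (2 * h)
    simp only [s]; linarith
  let τ : ℤ → ℤ := fun t => max (s t) (c - s t)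
  let z : Conf d A := fun u => x (Function.update u i (τ (u i)))
  have hleft := leftFold_mem hK hc h hx
  have hzX : z ∈ sft E P := by
    refine mem_sft_of_local fun v => ?_
    have key : ∀ u ∈ E, s ((u + v) i) = s (u i + s (v i)) := by
      intro u _
      obtain ⟨k, hk⟩ := hs5 (v i)
      rw [hk, ← add_assoc, hs4]; rfl
    have hb1 := hs1 (v i)
    have hb2 := hs2 (v i)
    have hupd : ∀ (u : Pt d) (t r : ℤ), Function.update (u + v) i r =
        Function.update (u + Function.update v i t) i r := by
      intro u t r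
      funext j
      by_cases hj : j = i
      · subst hj; simp
      · simp [Function.update_of_ne hj]
    by_cases hcase : a + K ≤ s (v i) ∧ s (v i) < a + 2 * h - K
    · refine ⟨fold i c x, hc x hx, Function.update v i (s (v i)), fun u hu => ?_⟩
      have hu1 := abs_le.1 (hK u hu i)
      have h2 : (u + Function.update v i (s (v i))) i = u i + s (v i) := by simp
      have h3 : s ((u + v) i) = u i + s (v i) := by
        rw [key u hu]; exact hs3 _ (by linarith) (by linarith)
      show x _ = x _
      rw [h2]
      show x (Function.update (u + v) i (max (s ((u + v) i)) (c - s ((u + v) i)))) = _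
      rw [h3, hupd u (s (v i))]
    · -- near the left fold
      obtain ⟨r, hr1, hr2, hr3⟩ : ∃ r : ℤ, a + 2 * h - K ≤ r ∧ r < a + 2 * h + K ∧
          ∀ t, s (t + s (v i)) = s (t + r) := by
        rcases not_and_or.1 hcase with h1 | h1
        · refine ⟨s (v i) + 2 * h, by linarith, by linarith, fun t => ?_⟩
          have := hs4 (t + s (v i)) 1
          rw [mul_one] at this
          rw [← this, add_assoc]
        · exact ⟨s (v i), by linarith, by linarith, fun t => rfl⟩
      refine ⟨_, hleft, Function.update v i r, fun u hu => ?_⟩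
      have hu1 := abs_le.1 (hK u hu i)
      have h2 : (u + Function.update v i r) i = u i + r := by simp
      show x _ = x _
      rw [h2]
      show x (Function.update (u + v) i (max (s ((u + v) i)) (c - s ((u + v) i)))) = _
      rw [key u hu, hr3, hupd u r]
      congr 2
      have hdiv : 2 * ((c + 1) / 2) ≤ c + 1 ∧ c ≤ 2 * ((c + 1) / 2) := by omega
      rcases lt_or_ge (u i + r) (a + 2 * h) with h4 | h4
      · rw [hs3 _ (by linarith) h4]
        rw [max_eq_left (by linarith [hdiv.1, hdiv.2]), min_eq_left (by omega)]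
      · have h5 : s (u i + r) = u i + r - 2 * h := by
          have := hs4 (u i + r) (-1)
          rw [← this]
          have h6 : u i + r + 2 * h * (-1) = u i + r - 2 * h := by ring
          rw [h6]
          exact hs3 _ (by linarith) (by linarith)
        rw [h5, max_eq_right (by linarith [hdiv.1, hdiv.2]), min_eq_right (by omega)]
        ring
  refine ⟨z, hzX, ⟨2 * h, hh0, ?_⟩, ?_⟩
  · intro u
    show x _ = x _
    have h2 : (u + Pi.single i (2 * h) : Pt d) i = u i + 2 * h * 1 := by simp
    have h3 : τ (u i + 2 * h * 1) = τ (u i) := by simp only [τ, hs4]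
    rw [h2, h3]
    congr 1
    funext j
    by_cases hj : j = i
    · subst hj; simp
    · simp [Function.update_of_ne hj, Pi.single_eq_of_ne hj]
  · intro j hj N hN u
    show x _ = x _
    have h2 : (u + Pi.single j N : Pt d) i = u i := by
      simp [Pi.single_eq_of_ne (Ne.symm hj)]
    rw [h2]
    have h3 : Function.update (u + Pi.single j N) i (τ (u i)) =
        Function.update u i (τ (u i)) + Pi.single j N := by
      funext k
      by_cases hk : k = i
      · subst hk; simp [Pi.single_eq_of_ne (Ne.symm hj)]
      · simp [Function.update_of_ne hk]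
    rw [h3]
    exact hN _

/-- Strong irreducibility gives a point periodic in any one direction. -/
theorem first_direction [Finite A] {K : ℕ} (hK : ∀ u ∈ E, ∀ i, |u i| ≤ K)
    (hSI : StronglyIrreducible (sft E P)) (i : Fin d) {x : Conf d A} (hx : x ∈ sft E P) :
    ∃ z ∈ sft E P, ∃ M : ℤ, 0 < M ∧ Pi.single i M ∈ stab z := by
  obtain ⟨R, hR0, hR⟩ := hSI
  obtain ⟨ρ, hρ⟩ := exists_nat_gt R
  have hK0 : (0 : ℤ) ≤ K := by positivity
  have hρ0 : (0 : ℤ) ≤ ρ := by positivity
  set M : ℤ := 2 * K + ρ + 1 with hM
  obtain ⟨y, hy, hy1, hy2⟩ := glue hR {u | |u i| ≤ K} {w | |w i - M| ≤ K} (by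
    intro u hu w hw
    have hu' := abs_le.1 (show |u i| ≤ K from hu)
    have hw' := abs_le.1 (show |w i - M| ≤ K from hw)
    have h2 : (ρ : ℤ) ≤ |u i - w i| := by
      rw [abs_sub_comm]
      exact le_trans (by linarith) (le_abs_self _)
    have h3 := le_norm_sub u w i
    have h4 : (ρ : ℝ) ≤ ((|u i - w i| : ℤ) : ℝ) := by exact_mod_cast h2
    linarith) hx (shift_mem hx (Pi.single i (-M)))
  have hper := periodise hK hy i (M := M) (by linarith) (by
    intro u hu
    have h1 : Function.update u i (u i + M) ∈ {w : Pt d | |w i - M| ≤ K} := by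
      show |Function.update u i (u i + M) i - M| ≤ K
      rw [Function.update_self, add_sub_cancel_right]; exact hu
    rw [hy2 _ h1, hy1 u hu]
    show x _ = x _
    congr 1
    funext j
    by_cases hj : j = i
    · subst hj; simp
    · simp [Function.update_of_ne hj, Pi.single_eq_of_ne hj])
  refine ⟨_, hper, M, by linarith, ?_⟩
  intro u
  show y _ = y _
  have h2 : (u + Pi.single i M : Pt d) i = u i + M := by simp
  rw [h2, Int.add_emod_right]
  congr 1
  funext j
  by_cases hj : j = i
  · subst hj; simp
  · simp [Function.update_of_ne hj, Pi.single_eq_of_ne hj]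

/-- The last direction comes for free from the pigeonhole principle. -/
theorem last_direction [Finite A] {K : ℕ} (hK : ∀ u ∈ E, ∀ i, |u i| ≤ K) (i : Fin d)
    {x : Conf d A} (hx : x ∈ sft E P) {L : ℤ} (hL : 0 < L)
    (hper : ∀ j, j ≠ i → Pi.single j L ∈ stab x) :
    ∃ z ∈ sft E P, ∃ M : ℤ, 0 < M ∧ ∀ j, Pi.single j M ∈ stab z := by
  classical
  have hK0 : (0 : ℤ) ≤ K := by positivity
  -- reduction modulo `L` in all directions but `i`
  have hred : ∀ u w : Pt d, u i = w i → (∀ j, j ≠ i → L ∣ w j - u j) → x u = x w := by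
    intro u w hi hj
    have h1 : w - u = ∑ j : Fin d, ((w j - u j) / L) • (Pi.single j L : Pt d) := by
      funext k
      rw [Finset.sum_apply]
      simp only [Pi.smul_apply, Pi.single_apply, smul_eq_mul, mul_ite, mul_zero]
      rw [Finset.sum_ite_eq, if_pos (Finset.mem_univ _), Pi.sub_apply]
      by_cases hk : k = i
      · subst hk; rw [hi]; simp
      · rw [Int.ediv_mul_cancel (hj k hk)]
    have h2 : w - u ∈ stab x := by
      rw [h1]
      refine AddSubgroup.sum_mem _ fun j _ => ?_
      by_cases hji : j = i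
      · subst hji; rw [hi]; simp
      · exact AddSubgroup.zsmul_mem _ (hper j hji) _
    have h3 := h2 u
    rw [add_sub_cancel] at h3
    exact h3.symm
  -- pigeonhole
  let g : ℕ → (Fin (2 * K + 1) × (Fin d → Fin L.toNat) → A) := fun n ab =>
    x (Function.update (fun j => ((ab.2 j : ℕ) : ℤ)) i (((ab.1 : ℕ) : ℤ) - K + n * (K + 1)))
  obtain ⟨n, n', hnn, hg⟩ := Finite.exists_ne_map_eq_of_infinite g
  obtain ⟨n, n', hlt, hg⟩ : ∃ n n' : ℕ, n < n' ∧ g n = g n' := by
    rcases lt_or_gt_of_ne hnn with h | h
    · exact ⟨n, n', h, hg⟩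
    · exact ⟨n', n, h, hg.symm⟩
  set M : ℤ := ((n' : ℤ) - n) * (K + 1) with hM
  have hlt' : (n : ℤ) + 1 ≤ n' := by exact_mod_cast hlt
  have hMK : (K : ℤ) < M := by
    rw [hM]; nlinarith
  have hy := shift_mem hx (Pi.single i ((n : ℤ) * (K + 1)))
  have hkey : ∀ (u : Pt d) (hu : |u i| ≤ K) (r : ℕ),
      x (Function.update u i (u i + r * (K + 1))) =
        g r (⟨(u i + K).toNat, by have := abs_le.1 hu; omega⟩, fun j => ⟨(u j % L).toNat, by
            have h1 := Int.emod_nonneg (u j) hL.ne'
            have h2 := Int.emod_lt_of_pos (u j) hL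
            omega⟩) := by
    intro u hu r
    have hu' := abs_le.1 hu
    show _ = x _
    apply hred
    · simp only [Function.update_self]
      rw [Int.toNat_of_nonneg (by linarith)]
      ring
    · intro j hj
      rw [Function.update_of_ne hj, Function.update_of_ne hj]
      have h1 := Int.emod_nonneg (u j) hL.ne'
      simp only
      rw [Int.toNat_of_nonneg h1]
      exact ⟨-(u j / L), by have := Int.emod_add_mul_ediv (u j) L; linarith⟩
  have hshift : ∀ (u : Pt d) (t : ℤ), Function.update u i t + Pi.single i ((n : ℤ) * (K + 1)) =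
      Function.update u i (t + n * (K + 1)) := by
    intro u t
    funext j
    by_cases hj : j = i
    · subst hj; simp
    · simp [Function.update_of_ne hj, Pi.single_eq_of_ne hj]
  have hz := periodise hK hy i hMK (by
    intro u hu
    show x _ = x _
    have h1 : u + Pi.single i ((n : ℤ) * (K + 1)) = Function.update u i (u i + n * (K + 1)) := by
      have := hshift u (u i)
      rw [Function.update_eq_self] at this
      exact this
    have h2 : u i + M + n * (K + 1) = u i + n' * (K + 1) := by rw [hM]; ring
    rw [hshift, h1, h2, hkey u hu n', hkey u hu n, hg])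
  refine ⟨_, hz, L * M, mul_pos hL (by linarith), fun j u => ?_⟩
  show x _ = x _
  by_cases hj : j = i
  · subst hj
    have h1 : (u + Pi.single j (L * M) : Pt d) j = u j + M * L := by
      simp only [Pi.add_apply, Pi.single_eq_same]; ring
    rw [h1, Int.add_mul_emod_self_left]
    congr 2
    funext k
    by_cases hk : k = j
    · subst hk; simp
    · simp [Function.update_of_ne hk, Pi.single_eq_of_ne hk]
  · have h1 : (u + Pi.single j (L * M) : Pt d) i = u i := by
      simp [Pi.single_eq_of_ne (Ne.symm hj)]
    rw [h1]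
    apply hred
    · simp
    · intro k hk
      simp only [Function.update_of_ne hk, Pi.add_apply]
      by_cases hkj : k = j
      · subst hkj
        rw [Pi.single_eq_same]
        exact ⟨-M, by ring⟩
      · rw [Pi.single_eq_of_ne hkj]
        simp

/-- Strongly irreducible SFTs that can be folded in all but two directions have dense periodic
points. -/
theorem dense_of_foldable [Finite A] (hSI : StronglyIrreducible (sft E P)) (a b : Fin d)
    (hf : ∀ i, i ≠ a → i ≠ b → Foldable (sft E P) i) : PeriodicDense (sft E P) := by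
  classical
  obtain ⟨K, hK⟩ := exists_bound E
  intro x₀ hx₀ S₀
  have hstep : ∀ I : Finset (Fin d), a ∉ I → b ∉ I →
      ∃ x ∈ sft E P, ∀ j, (j = a ∨ j ∈ I) → ∃ M : ℤ, 0 < M ∧ Pi.single j M ∈ stab x := by
    intro I
    induction I using Finset.induction_on with
    | empty =>
      intro _ _
      obtain ⟨z, hz, M, hM, hMz⟩ := first_direction hK hSI a hx₀
      refine ⟨z, hz, ?_⟩
      rintro j (rfl | hj)
      · exact ⟨M, hM, hMz⟩
      · simp at hj
    | insert i I hi ih =>
      intro ha hb
      rw [Finset.mem_insert, not_or] at ha hb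
      obtain ⟨x, hx, hxj⟩ := ih ha.2 hb.2
      obtain ⟨z, hz, hzi, hzj⟩ := fold_step hK (hf i (Ne.symm ha.1) (Ne.symm hb.1)) hx
      refine ⟨z, hz, fun j hj => ?_⟩
      by_cases hji : j = i
      · subst hji; exact hzi
      · have h1 : j = a ∨ j ∈ I := by
          rcases hj with hj | hj
          · exact Or.inl hj
          · rcases Finset.mem_insert.1 hj with h | h
            · exact absurd h hji
            · exact Or.inr h
        obtain ⟨M, hM, hMx⟩ := hxj j h1
        exact ⟨M, hM, hzj j hji M hMx⟩
  obtain ⟨x, hx, hxj⟩ := hstep (Finset.univ.filter fun j => j ≠ a ∧ j ≠ b) (by simp) (by simp)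
  have hxj' : ∀ j, j ≠ b → ∃ M : ℤ, 0 < M ∧ Pi.single j M ∈ stab x := by
    intro j hj
    apply hxj
    by_cases hja : j = a
    · exact Or.inl hja
    · exact Or.inr (by simp [hja, hj])
  have hxj'' : ∀ j, ∃ M : ℤ, 0 < M ∧ (j ≠ b → Pi.single j M ∈ stab x) := by
    intro j
    by_cases hj : j = b
    · exact ⟨1, one_pos, fun h => absurd hj h⟩
    · obtain ⟨M, h1, h2⟩ := hxj' j hj
      exact ⟨M, h1, fun _ => h2⟩
  choose M hM0 hM using hxj''
  set L : ℤ := ∏ j, M j with hL
  have hL0 : 0 < L := Finset.prod_pos fun j _ => hM0 j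
  have hper : ∀ j, j ≠ b → Pi.single j L ∈ stab x := by
    intro j hj
    have h1 : (Pi.single j L : Pt d) = (∏ k ∈ Finset.univ.erase j, M k) • Pi.single j (M j) := by
      rw [← Pi.single_smul, smul_eq_mul, hL, Finset.prod_erase_mul _ _ (Finset.mem_univ j)]
    rw [h1]
    exact AddSubgroup.zsmul_mem _ (hM j hj) _
  obtain ⟨z, hz, N, hN, hNz⟩ := last_direction hK b hx hL0 hper
  exact dense_of_periodic hSI hz hN (mem_stab_of_single hNz) x₀ hx₀ S₀

end

end Pool.Agent.Lib_MP_499141
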