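import Pool.Agent.Lib_MP_499141.Charge

/-!
# Integral periodic charges on strongly irreducible SFTs
-/

namespace Pool.Agent.Lib_MP_499141

open Set AddMonoidAlgebra

variable {d : ℕ} {A : Type}

/-- A strongly irreducible SFT has a normalised integral charge on `D`-local events that is invariant
under the multiples of some `N`. -/
theorem exists_intCharge [Finite A] {E : Finset (Pt d)} {P : Set (E → A)} {R : ℕ}
    (hG : GapGlue (sft E P) R) (hne : (sft E P).Nonempty) (D : ℕ) :
    ∃ N : ℕ, 0 < N ∧ ∃ m : Set (Conf d A) → ℤ, Charge (sft E P) D N m := by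
  classical
  have : Fintype (Cube d D → A) := Fintype.ofFinite _
  obtain ⟨N, hN, b, hb1, hb2, hb3⟩ := exists_section (good_tvec hG hne D)
  let Rep : ((Cube d D → A) → Lam d) → Set (Conf d A) → Prop := fun f S =>
    ∀ x ∈ sft E P, ev (tvec D x) f = if x ∈ S then 1 else 0
  have hwell : ∀ f f' S, Rep f S → Rep f' S → ev b f = ev b f' := by
    intro f f' S hf hf'
    have h1 := hb3 (f - f') (by
      rintro t ⟨x, hx, rfl⟩
      rw [map_sub, hf x hx, hf' x hx, sub_self])
    rw [map_sub] at h1
    exact sub_eq_zero.1 h1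
  let m : Set (Conf d A) → ℤ := fun S => if h : ∃ f, Rep f S then ev b h.choose else 0
  have hm : ∀ f S, Rep f S → m S = ev b f := by
    intro f S hf
    have h : ∃ f, Rep f S := ⟨f, hf⟩
    have h1 : m S = ev b h.choose := by simp only [m, dif_pos h]
    rw [h1]
    exact hwell _ _ S h.choose_spec hf
  have hrep : ∀ v S, LocAt (sft E P) D v S → ∃ f, Rep f S := by
    intro v S hS
    let c : (Cube d D → A) → ℤ := fun π =>
      if ∃ x ∈ sft E P, patt D x v = π ∧ x ∈ S then 1 else 0
    refine ⟨fun π => single v (c π), fun x hx => ?_⟩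
    rw [ev_apply]
    have h1 : ∀ π : Cube d D → A, pair (tvec D x π) (single v (c π)) =
        if patt D x v = π then c π else 0 := by
      intro π
      rw [pair_single]
      unfold tvec
      split_ifs <;> simp
    rw [Finset.sum_congr rfl fun π _ => h1 π, Finset.sum_ite_eq, if_pos (Finset.mem_univ _)]
    by_cases hxS : x ∈ S
    · rw [if_pos hxS]
      have : ∃ x' ∈ sft E P, patt D x' v = patt D x v ∧ x' ∈ S := ⟨x, hx, rfl, hxS⟩
      simp only [c, if_pos this]
    · rw [if_neg hxS]
      have : ¬ ∃ x' ∈ sft E P, patt D x' v = patt D x v ∧ x' ∈ S := by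
        rintro ⟨x', hx', h2, h3⟩
        apply hxS
        refine (hS x' hx' x hx fun w hw => ?_).1 h3
        have h4 : Near D 0 (w - v) := near_sub.1 hw
        have h5 := congrFun h2 ⟨w - v, h4⟩
        show x' w = x w
        have h6 : x' (w - v + v) = x (w - v + v) := h5
        rwa [sub_add_cancel] at h6
      simp only [c, if_neg this]
  refine ⟨N, hN, m, ?_, ?_, ?_, ?_⟩
  · rw [hm oneV univ fun x hx => by
      rw [ev_oneV, if_pos (mem_univ _)]
      exact (good_tvec hG hne D).total _ ⟨x, hx, rfl⟩ 0]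
    rw [ev_oneV]
    exact hb2 0
  · intro v S S' hS hS' hd
    obtain ⟨f, hf⟩ := hrep v S hS
    obtain ⟨f', hf'⟩ := hrep v S' hS'
    rw [hm f S hf, hm f' S' hf', hm (f + f') (S ∪ S') fun x hx => ?_, map_add]
    rw [map_add, hf x hx, hf' x hx]
    by_cases h1 : x ∈ S
    · rw [if_pos h1, if_neg (hd x hx h1), if_pos (show x ∈ S ∪ S' from Or.inl h1), add_zero]
    · by_cases h2 : x ∈ S'
      · rw [if_neg h1, if_pos h2, if_pos (show x ∈ S ∪ S' from Or.inr h2), zero_add]
      · rw [if_neg h1, if_neg h2, if_neg (show x ∉ S ∪ S' from fun h3 => h3.elim h1 h2), add_zero]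
  · intro v S hS g
    obtain ⟨f, hf⟩ := hrep v S hS
    rw [hm f S hf, hm ((single (mulP N g) 1 : Lam d) • f) {x | sh (mulP N g) x ∈ S} fun x hx => ?_]
    · rw [ev_single_smul, one_mul]
      congr 2
      funext π h
      rw [add_comm]
      exact hb1 π h g
    · rw [ev_single_smul, one_mul, tvec_sh, hf (sh (mulP N g) x) (shift_mem hx _)]
      rfl
  · intro v S S' hS hSS'
    obtain ⟨f, hf⟩ := hrep v S hS
    rw [hm f S hf, hm f S' fun x hx => ?_]
    rw [hf x hx]
    by_cases h1 : x ∈ S
    · rw [if_pos h1, if_pos ((hSS' x hx).1 h1)]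
    · rw [if_neg h1, if_neg fun h2 => h1 ((hSS' x hx).2 h2)]

end Pool.Agent.Lib_MP_499141
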