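import Pool.Agent.Lib_MP_499141.Relax
import Pool.Agent.Lib_MP_499141.IntCharge
import Pool.Agent.Lib_MP_499141.Cluster

/-!
# The torus instance of a strongly irreducible SFT passes consistency and BLP+AIP
-/

namespace Pool.Agent.Lib_MP_499141

open Set

variable {d : ℕ} {A : Type}

theorem LocAt.mono {X : Set (Conf d A)} {D D' : ℕ} {v : Pt d} {S : Set (Conf d A)}
    (h : LocAt X D v S) (hD : D ≤ D') : LocAt X D' v S := fun x hx x' hx' hxx' =>
  h x hx x' hx' fun w hw => hxx' w (hw.mono hD)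

theorem red_sec {N : ℕ} [NeZero N] (a : Tor d N) : red d N (sec N a) = a := by
  funext i
  simp [red, sec]

theorem red_add_mulP (N : ℕ) (u g : Pt d) : red d N (u + mulP N g) = red d N u := by
  funext i
  simp [red, mulP]

theorem exists_mulP {N : ℕ} {u w : Pt d} (h : red d N u = red d N w) :
    ∃ g, w = u + mulP N g := by
  have h1 := red_eq_iff.1 h
  choose g hg using h1
  refine ⟨g, ?_⟩
  funext i
  have := hg i
  show w i = u i + N * g i
  linarith

/-- Weights from a charge and an equivariant local map. -/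
theorem weights_of_charge [Fintype A] [DecidableEq A] {E : Finset (Pt d)} {P : Set (E → A)}
    {K : ℕ} (hK : ∀ u ∈ E, ∀ i, |u i| ≤ K) {N D D' : ℕ} [NeZero N] (hD : D' + K ≤ D)
    {R' : Type} [CommRing R'] {m : Set (Conf d A) → R'} (hm : Charge (sft E P) D N m)
    (Γ : Conf d A → Conf d A)
    (hloc : ∀ x x' : Conf d A, ∀ t, (∀ w, Near D' t w → x w = x' w) → Γ x t = Γ x' t)
    (heq : ∀ g x, Γ (sh (mulP N g) x) = sh (mulP N g) (Γ x))
    (vc : (E → Tor d N) → Pt d) (hvc : ∀ c ∈ scopes E N, c = fun u : E => red d N (u.1 + vc c)) :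
    IsWeights (scopes E N) (fun c (τ : E → A) => m {x | (fun e : E => Γ x (e.1 + vc c)) = τ})
      (fun v a => m {x | Γ x (sec N v) = a}) := by
  have hloc1 : ∀ u a, LocAt (sft E P) D' u {x | Γ x u = a} := by
    intro u a x _ x' _ hxx'
    show Γ x u = a ↔ Γ x' u = a
    rw [hloc x x' u hxx']
  have hloc2 : ∀ v (τ : E → A), LocAt (sft E P) D v {x | (fun e : E => Γ x (e.1 + v)) = τ} := by
    intro v τ x _ x' _ hxx'
    have : (fun e : E => Γ x (e.1 + v)) = fun e : E => Γ x' (e.1 + v) := by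
      funext e
      refine hloc x x' _ fun w hw => hxx' w ?_
      have h1 : Near K v (e.1 + v) := fun i => by
        have := hK e.1 e.2 i
        simpa using this
      exact (h1.trans hw).mono (by omega)
    show (fun e : E => Γ x (e.1 + v)) = τ ↔ (fun e : E => Γ x' (e.1 + v)) = τ
    rw [this]
  refine ⟨?_, ?_, ?_⟩
  · intro v
    rw [← hm.partition (v := sec N v) (fun x => Γ x (sec N v))
      (fun a => (hloc1 _ a).mono (by omega)) Finset.univ]
    refine hm.eq_one (v := sec N v) ?_ (fun x _ => Finset.mem_univ _)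
    intro x _ x' _ _
    simp
  · intro c hc
    rw [← hm.partition (v := vc c) (fun x => fun e : E => Γ x (e.1 + vc c))
      (fun τ => hloc2 _ τ) Finset.univ]
    refine hm.eq_one (v := vc c) ?_ (fun x _ => Finset.mem_univ _)
    intro x _ x' _ _
    simp
  · intro c hc e a
    rw [← Finset.sum_filter, ← hm.partition (v := vc c) (fun x => fun e : E => Γ x (e.1 + vc c))
      (fun τ => hloc2 _ τ)]
    have h1 : red d N (sec N (c e)) = red d N (e.1 + vc c) := by
      rw [red_sec]
      exact congrFun (hvc c hc) e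
    obtain ⟨g, hg⟩ := exists_mulP h1
    have h2 := hm.inv (sec N (c e)) {x | Γ x (sec N (c e)) = a} ((hloc1 _ a).mono (by omega)) g
    rw [← h2]
    congr 1
    ext x
    show (fun e : E => Γ x (e.1 + vc c)) ∈ Finset.univ.filter (fun τ : E → A => τ e = a) ↔
      Γ (sh (mulP N g) x) (sec N (c e)) = a
    rw [Finset.mem_filter, heq, sh_apply, ← hg]
    simp

/-- Patterns of points of `X` on windows are good. -/
theorem good_window {E : Finset (Pt d)} {P : Set (E → A)} {K : ℕ}
    (hK : ∀ u ∈ E, ∀ i, |u i| ≤ K) {R : ℕ} (hG : GapGlue (sft E P) R) {N : ℕ} [NeZero N]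
    (hN : 6 * K + 2 * R < N) {z : Conf d A} (hz : z ∈ sft E P) (v : Pt d) (S : Finset (Tor d N))
    (hS : ∀ a ∈ S, ∃ e ∈ E, red d N (e + v) = a) (t : Tor d N → A)
    (ht : ∀ e ∈ E, t (red d N (e + v)) = z (e + v)) : Good (sft E P) N S t := by
  have hNz : (6 * K + 2 * R : ℤ) < N := by exact_mod_cast hN
  obtain ⟨Γ, hΓ1, hΓ2, _, _⟩ := exists_insertion hK hG K {u | red d N u = red d N v}
    (fun _ => sh v z) (fun _ _ => shift_mem hz v) (by
      intro u hu u' hu' hn
      have h1 : red d N u = red d N u' := hu.trans hu'.symm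
      have h2 := red_eq_iff.1 h1
      funext i
      have h3 := hn i
      have h4 := Int.eq_zero_of_abs_lt_dvd (h2 i) (by push_cast at h3; linarith)
      linarith)
  intro l hl
  refine ⟨Γ z, hΓ1 z hz, fun a ha => ?_⟩
  obtain ⟨e, he, hea⟩ := hS a ha
  have h1 : red d N (e + v) = red d N (l a) := by rw [hea, hl a ha]
  obtain ⟨g, hg⟩ := exists_mulP h1
  have h2 : red d N (v + mulP N g) = red d N v := red_add_mulP N v g
  have h3 : l a - (v + mulP N g) = e := by rw [hg]; abel
  rw [hΓ2 z hz (v + mulP N g) h2 (l a) (by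
    rw [near_sub, h3]
    intro i
    simpa using hK e he i), h3, sh_apply, ← hea, ht e he]

/-- The torus instance: partial solutions of the good family extend to BLP+AIP solutions. -/
theorem extends_torus [Fintype A] [DecidableEq A] {E : Finset (Pt d)} {P : Set (E → A)} {K : ℕ}
    (hK : ∀ u ∈ E, ∀ i, |u i| ≤ K) {R : ℕ} (hG : GapGlue (sft E P) R) (m : ℕ) {N : ℕ} [NeZero N]
    (hN : 2 * rad (2 * R + 4 * K) m + 2 * R + 6 * K < N)
    {D : ℕ} (hD : 2 * (rad (2 * R + 4 * K) m + R + 2 * K) + K ≤ D)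
    {q : Set (Conf d A) → ℝ} (hq : Charge (sft E P) D N q) (hq0 : ∀ S, 0 ≤ q S)
    (hqpos : ∀ v S, LocAt (sft E P) D v S → (∃ x ∈ sft E P, x ∈ S) → 0 < q S)
    {r : Set (Conf d A) → ℤ} (hr : Charge (sft E P) D N r)
    (S : Finset (Tor d N)) (hS : S.card ≤ m) (s : Tor d N → A) (hs : Good (sft E P) N S s) :
    Extends P (scopes E N) m (Good (sft E P) N) S s := by
  classical
  set L : ℕ := 2 * R + 4 * K with hL
  obtain ⟨k, hk, S₀, hS₀, hcov, hsep⟩ := exists_centres L S
  have hρ : rad L k ≤ rad L m := rad_mono L (hk.trans hS)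
  set ρ : ℕ := rad L k with hρdef
  have hNρ : 2 * ρ + 2 * R + 6 * K < N := by omega
  have hNz : (2 * ρ + 2 * R + 6 * K : ℤ) < N := by exact_mod_cast hNρ
  -- the points around the centres
  have hy : ∀ a : Tor d N, ∃ y ∈ sft E P, ∀ t, Near ρ 0 t → a + red d N t ∈ S →
      y t = s (a + red d N t) := by
    intro a
    have huniq : ∀ t t' : Pt d, Near ρ 0 t → Near ρ 0 t' → red d N t = red d N t' → t = t' := by
      intro t t' ht ht' h
      have h2 := red_eq_iff.1 h
      funext i
      have h3 := (ht.symm.trans ht') i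
      have h4 := Int.eq_zero_of_abs_lt_dvd (h2 i) (by
        push_cast at h3
        have : (0 : ℤ) ≤ R := by positivity
        have : (0 : ℤ) ≤ K := by positivity
        linarith)
      linarith
    let l : Tor d N → Pt d := fun b =>
      if h : ∃ t, Near ρ 0 t ∧ a + red d N t = b then sec N a + h.choose else sec N b
    obtain ⟨x, hx, hxl⟩ := hs l (fun b _ => by
      by_cases h : ∃ t, Near ρ 0 t ∧ a + red d N t = b
      · have : l b = sec N a + h.choose := by simp only [l, dif_pos h]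
        rw [this, red_add, red_sec]
        exact h.choose_spec.2
      · have : l b = sec N b := by simp only [l, dif_neg h]
        rw [this, red_sec])
    refine ⟨sh (sec N a) x, shift_mem hx _, fun t ht htS => ?_⟩
    have h : ∃ t', Near ρ 0 t' ∧ a + red d N t' = a + red d N t := ⟨t, ht, rfl⟩
    have h1 : l (a + red d N t) = sec N a + h.choose := by simp only [l, dif_pos h]
    have h2 : h.choose = t := huniq _ _ h.choose_spec.1 ht (by
      have := h.choose_spec.2
      exact add_left_cancel this)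
    rw [h2] at h1
    rw [← hxl _ htS, h1, sh_apply, add_comm]
  choose y hyX hys using hy
  obtain ⟨Γ, hΓ1, hΓ2, hΓ3, hΓ4⟩ := exists_insertion hK hG ρ {u | red d N u ∈ S₀}
    (fun u => y (red d N u)) (fun u _ => hyX _) (by
      intro u hu u' hu' hn
      have h1 : red d N u = red d N u' := hsep _ hu _ hu' ⟨u, u', rfl, rfl, hn.mono (by omega)⟩
      have h2 := red_eq_iff.1 h1
      funext i
      have h3 := hn i
      have h4 := Int.eq_zero_of_abs_lt_dvd (h2 i) (by
        push_cast at h3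
        have : (0 : ℤ) ≤ K := by positivity
        linarith)
      linarith)
  have heq : ∀ g x, Γ (sh (mulP N g) x) = sh (mulP N g) (Γ x) := by
    intro g x
    refine hΓ4 _ (fun u => ?_) (fun u _ => ?_) x
    · show red d N (u + mulP N g) ∈ S₀ ↔ red d N u ∈ S₀
      rw [red_add_mulP]
    · show y (red d N (u + mulP N g)) = y (red d N u)
      rw [red_add_mulP]
  have hΓS : ∀ x ∈ sft E P, ∀ t, red d N t ∈ S → Γ x t = s (red d N t) := by
    intro x hx t ht
    obtain ⟨a, ha, han⟩ := hcov _ ht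
    obtain ⟨w, hw, hn⟩ := han.symm.exists_lift (u := t) rfl
    have h1 : red d N w ∈ S₀ := by rw [hw]; exact ha
    rw [hΓ2 x hx w h1 t hn.symm]
    show y (red d N w) (t - w) = _
    have h2 : red d N w + red d N (t - w) = red d N t := by rw [red_sub]; abel
    rw [hys _ _ (near_sub.1 hn.symm) (by rw [h2]; exact ht), h2]
  have hvc : ∀ c : E → Tor d N, ∃ v : Pt d, c ∈ scopes E N → c = fun u : E => red d N (u.1 + v) := by
    intro c
    by_cases hc : c ∈ scopes E N
    · obtain ⟨v, hv⟩ := hc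
      exact ⟨v, fun _ => hv⟩
    · exact ⟨0, fun h => absurd h hc⟩
  choose vc hvc using hvc
  have hDD : 2 * (ρ + R + 2 * K) + K ≤ D := by omega
  have hw1 := weights_of_charge hK hDD hq Γ hΓ3 heq vc hvc
  have hw2 := weights_of_charge hK hDD hr Γ hΓ3 heq vc hvc
  have hloc1 : ∀ u a, LocAt (sft E P) D u {x | Γ x u = a} := by
    intro u a x _ x' _ hxx'
    show Γ x u = a ↔ Γ x' u = a
    rw [hΓ3 x x' u fun w hw => hxx' w (hw.mono (by omega))]
  have hloc2 : ∀ v (τ : E → A), LocAt (sft E P) D v {x | (fun e : E => Γ x (e.1 + v)) = τ} := by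
    intro v τ x _ x' _ hxx'
    have : (fun e : E => Γ x (e.1 + v)) = fun e : E => Γ x' (e.1 + v) := by
      funext e
      refine hΓ3 x x' _ fun w hw => hxx' w ?_
      have h1 : Near K v (e.1 + v) := fun i => by
        have := hK e.1 e.2 i
        simpa using this
      exact (h1.trans hw).mono (by omega)
    show (fun e : E => Γ x (e.1 + v)) = τ ↔ (fun e : E => Γ x' (e.1 + v)) = τ
    rw [this]
  refine ⟨_, _, _, _, hw1, hw2, fun c _ τ => hq0 _, fun v a => hq0 _, ?_, ?_, ?_, ?_⟩
  · intro c hc τ hne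
    refine hqpos _ _ (hloc2 _ τ) ?_
    by_contra hcon
    push Not at hcon
    exact hne (hr.eq_zero (hloc2 _ τ) hcon)
  · intro v a hne
    refine hqpos _ _ (hloc1 _ a) ?_
    by_contra hcon
    push Not at hcon
    exact hne (hr.eq_zero (hloc1 _ a) hcon)
  · intro c hc τ hpos
    have h1 : ∃ x ∈ sft E P, (fun e : E => Γ x (e.1 + vc c)) = τ := by
      by_contra hcon
      push Not at hcon
      have := hq.eq_zero (hloc2 (vc c) τ) hcon
      exact hpos.ne' this
    obtain ⟨x, hx, hxτ⟩ := h1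
    have hz := hΓ1 x hx
    refine ⟨?_, fun _ t ht => ?_⟩
    · rw [← hxτ]; exact hz (vc c)
    · refine good_window hK hG (by omega) hz (vc c) _ (fun a ha => ?_) t (fun e he => ?_)
      · obtain ⟨e, -, rfl⟩ := Finset.mem_image.1 ha
        exact ⟨e.1, e.2, (congrFun (hvc c hc) e).symm⟩
      · have h2 := congrFun (hvc c hc) ⟨e, he⟩
        have h3 : red d N (e + vc c) = c ⟨e, he⟩ := h2.symm
        rw [h3, ht, ← hxτ]
  · intro v hv
    refine hq.eq_one (hloc1 _ _) fun x hx => ?_
    show Γ x (sec N v) = s v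
    rw [hΓS x hx _ (by rw [red_sec]; exact hv), red_sec]

/-- The main theorem. -/
theorem relaxation_torus [Fintype A] [DecidableEq A] {E : Finset (Pt d)} {P : Set (E → A)}
    (hSI : StronglyIrreducible (sft E P)) (hne : (sft E P).Nonempty) (m : ℕ) :
    ∃ N₀ : ℕ, 0 < N₀ ∧ ∀ N : ℕ, 0 < N → N₀ ∣ N →
      ∃ H : Finset (Tor d N) → (Tor d N → A) → Prop, ConsistentFamily P (scopes E N) m H ∧
        ∀ S s, S.card ≤ m → H S s → Extends P (scopes E N) m H S s := by
  obtain ⟨R, hG⟩ := exists_gapGlue hSI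
  obtain ⟨R', hR0, hR'⟩ := hSI
  obtain ⟨K, hK⟩ := exists_bound E
  set D : ℕ := 2 * (rad (2 * R + 4 * K) m + R + 2 * K) + K with hD
  obtain ⟨M₁, hM₁, μ, hμ, hμpos⟩ := exists_full_mean hK hG hne D
  obtain ⟨M₂, hM₂, r, hr⟩ := exists_intCharge hG hne D
  obtain ⟨B, hB⟩ := exists_nat_gt (max (2 * (m * R')) (2 * K))
  set B' : ℕ := B + 2 * rad (2 * R + 4 * K) m + 2 * R + 6 * K + 1 with hB'
  refine ⟨M₁ * M₂ * B', Nat.mul_pos (Nat.mul_pos hM₁ hM₂) (by omega), fun N hN hdvd => ?_⟩
  have : NeZero N := ⟨hN.ne'⟩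
  have hNB : B' ≤ N := Nat.le_of_dvd hN ((dvd_mul_left _ _).trans hdvd)
  have hNM1 : M₁ ∣ N := ((dvd_mul_right M₁ M₂).trans (dvd_mul_right _ _)).trans hdvd
  have hNM2 : M₂ ∣ N := ((dvd_mul_left M₂ M₁).trans (dvd_mul_right _ _)).trans hdvd
  have hBN : (B : ℝ) ≤ N := by exact_mod_cast (by omega : B ≤ N)
  have hN1 : 2 * K < N := by
    have := ((le_max_right (2 * (m * R')) (2 * (K : ℝ))).trans_lt hB).trans_le hBN
    exact_mod_cast this
  have hN2 : 2 * (m * R') < N := ((le_max_left _ _).trans_lt hB).trans_le hBN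
  refine ⟨Good (sft E P) N, consistent_torus hR0 hR' hne hK m hN1 hN2, fun S s hS hs => ?_⟩
  have hr' : Charge (sft E P) D N r := by
    refine ⟨hr.univ, hr.add, fun v Q hQ g => ?_, hr.congr⟩
    obtain ⟨k, hk⟩ := hNM2
    have h1 := hr.inv v Q hQ (mulP k g)
    have h2 : mulP M₂ (mulP k g) = mulP N g := by
      funext i
      show (M₂ : ℤ) * ((k : ℤ) * g i) = (N : ℤ) * g i
      rw [hk]
      push_cast
      ring
    rw [h2] at h1
    exact h1
  refine extends_torus hK hG m (by omega) (D := D) le_rfl ((hμ.mono hNM1).charge D) ?_ ?_ hr' S hS s hs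
  · intro S
    exact hμ.nonneg _ ⟨1, fun x => by
      by_cases hx : x ∈ S
      · simp [indicator_of_mem hx]
      · simp [indicator_of_notMem hx]⟩ fun x _ => indicator_nonneg (fun _ _ => zero_le_one) x
  · intro v S hS ⟨x, hx, hxS⟩
    refine hμpos v _ ⟨1, fun x => by
      by_cases hx : x ∈ S
      · simp [indicator_of_mem hx]
      · simp [indicator_of_notMem hx]⟩ (fun x _ => indicator_nonneg (fun _ _ => zero_le_one) x) ?_
      ⟨x, hx, by rw [indicator_of_mem hxS]; exact one_pos⟩
    intro x hx x' hx' hxx'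
    by_cases h1 : x ∈ S
    · rw [indicator_of_mem h1, indicator_of_mem ((hS x hx x' hx' hxx').1 h1)]
    · rw [indicator_of_notMem h1, indicator_of_notMem fun h2 => h1 ((hS x hx x' hx' hxx').2 h2)]

/-- Strongly irreducible SFTs whose relation is solved by consistency and BLP+AIP have dense periodic
points. -/
theorem dense_of_solved [Fintype A] [DecidableEq A] {E : Finset (Pt d)} {P : Set (E → A)}
    (hSI : StronglyIrreducible (sft E P)) (hs : SolvedByRelaxation P) :
    PeriodicDense (sft E P) := by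
  rcases (sft E P).eq_empty_or_nonempty with hemp | hne
  · intro x hx; rw [hemp] at hx; exact absurd hx (notMem_empty x)
  obtain ⟨m, hm⟩ := hs
  obtain ⟨N, hN, h⟩ := relaxation_torus hSI hne m
  have : NeZero N := ⟨hN.ne'⟩
  obtain ⟨s, hs⟩ := hm (Tor d N) (scopes E N) (h N hN dvd_rfl)
  let p : Conf d A := fun u => s (red d N u)
  have hp : p ∈ sft E P := fun v => hs _ ⟨v, rfl⟩
  refine dense_of_periodic hSI hp (N := (N : ℤ)) (by exact_mod_cast hN) ?_
  intro v hv u
  show s _ = s _
  congr 1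
  refine red_eq_iff.2 fun i => ?_
  have : u i - (u + v) i = -(v i) := by simp only [Pi.add_apply]; ring
  rw [this]
  exact (hv i).neg_right

end Pool.Agent.Lib_MP_499141
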