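import Pool.Agent.Lib_MP_499141.Insert

/-!
# Invariant means on a strongly irreducible SFT
-/

namespace Pool.Agent.Lib_MP_499141

open Set Filter Topology

variable {d : ℕ} {A : Type}

/-- Bounded functions on configurations. -/
def Bdd (F : Conf d A → ℝ) : Prop := ∃ C : ℝ, ∀ x, |F x| ≤ C

theorem Bdd.add {F G : Conf d A → ℝ} (hF : Bdd F) (hG : Bdd G) : Bdd (F + G) := by
  obtain ⟨C, hC⟩ := hF
  obtain ⟨D, hD⟩ := hG
  exact ⟨C + D, fun x => (abs_add_le _ _).trans (add_le_add (hC x) (hD x))⟩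

theorem Bdd.smul {F : Conf d A → ℝ} (c : ℝ) (hF : Bdd F) : Bdd (c • F) := by
  obtain ⟨C, hC⟩ := hF
  refine ⟨|c| * C, fun x => ?_⟩
  rw [Pi.smul_apply, smul_eq_mul, abs_mul]
  exact mul_le_mul_of_nonneg_left (hC x) (abs_nonneg c)

theorem Bdd.comp {F : Conf d A → ℝ} (hF : Bdd F) (Θ : Conf d A → Conf d A) :
    Bdd (fun x => F (Θ x)) := by
  obtain ⟨C, hC⟩ := hF
  exact ⟨C, fun x => hC _⟩

theorem bdd_one : Bdd (fun _ : Conf d A => (1 : ℝ)) := ⟨1, fun _ => by simp⟩

/-- Averaging operators that are invariant in the directions of `I`. -/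
structure InvOp (I : Finset (Fin d)) (L : (Conf d A → ℝ) → Conf d A → ℝ) : Prop where
  add : ∀ F G, Bdd F → Bdd G → L (F + G) = L F + L G
  smul : ∀ (c : ℝ) F, Bdd F → L (c • F) = c • L F
  bdd : ∀ F, Bdd F → Bdd (L F)
  one : L (fun _ => 1) = fun _ => 1
  nonneg : ∀ F, Bdd F → ∀ S : Set (Conf d A), (∀ x ∈ S, ∀ g, sh g x ∈ S) →
    (∀ x ∈ S, 0 ≤ F x) → ∀ x ∈ S, 0 ≤ L F x
  comm : ∀ F, Bdd F → ∀ g, L (fun x => F (sh g x)) = fun x => L F (sh g x)
  inv : ∀ F, Bdd F → ∀ i ∈ I, ∀ x, L F (sh (Pi.single i 1) x) = L F x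

/-- The one dimensional averages. -/
noncomputable def avg (i : Fin d) (F : Conf d A → ℝ) (x : Conf d A) (n : ℕ) : ℝ :=
  (∑ k ∈ Finset.range (n + 1), F (sh (Pi.single i (k : ℤ)) x)) / (n + 1)

theorem avg_abs_le (i : Fin d) {F : Conf d A → ℝ} {C : ℝ} (hC : ∀ x, |F x| ≤ C) (x : Conf d A)
    (n : ℕ) : |avg i F x n| ≤ C := by
  have hn : (0 : ℝ) < n + 1 := by positivity
  rw [avg, abs_div, abs_of_pos hn, div_le_iff₀ hn]
  calc |∑ k ∈ Finset.range (n + 1), F (sh (Pi.single i (k : ℤ)) x)|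
      ≤ ∑ k ∈ Finset.range (n + 1), |F (sh (Pi.single i (k : ℤ)) x)| :=
        Finset.abs_sum_le_sum_abs _ _
    _ ≤ ∑ k ∈ Finset.range (n + 1), C := Finset.sum_le_sum fun k _ => hC _
    _ = C * (n + 1) := by rw [Finset.sum_const, Finset.card_range, nsmul_eq_mul]; push_cast; ring

theorem exists_lim (i : Fin d) {F : Conf d A → ℝ} (hF : Bdd F) (x : Conf d A) :
    ∃ l : ℝ, Tendsto (avg i F x) (hyperfilter ℕ : Filter ℕ) (𝓝 l) := by
  obtain ⟨C, hC⟩ := hF
  have h1 : (((hyperfilter ℕ).map (avg i F x) : Ultrafilter ℝ) : Filter ℝ) ≤ 𝓟 (Icc (-C) C) := by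
    rw [Filter.le_principal_iff]
    show (avg i F x) ⁻¹' Icc (-C) C ∈ (hyperfilter ℕ : Filter ℕ)
    exact Filter.univ_mem' fun n => abs_le.1 (avg_abs_le i hC x n)
  obtain ⟨l, _, hl⟩ := isCompact_Icc.ultrafilter_le_nhds _ h1
  exact ⟨l, hl⟩

/-- The limit operator in the direction `i`. -/
noncomputable def limOp (i : Fin d) (F : Conf d A → ℝ) (x : Conf d A) : ℝ := by
  classical exact if h : Bdd F then (exists_lim i h x).choose else 0

theorem limOp_tendsto (i : Fin d) {F : Conf d A → ℝ} (hF : Bdd F) (x : Conf d A) :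
    Tendsto (avg i F x) (hyperfilter ℕ : Filter ℕ) (𝓝 (limOp i F x)) := by
  classical
  have : limOp i F x = (exists_lim i hF x).choose := by
    unfold limOp
    rw [dif_pos hF]
  rw [this]
  exact (exists_lim i hF x).choose_spec

theorem limOp_eq (i : Fin d) {F : Conf d A → ℝ} (hF : Bdd F) (x : Conf d A) {l : ℝ}
    (h : Tendsto (avg i F x) (hyperfilter ℕ : Filter ℕ) (𝓝 l)) : limOp i F x = l :=
  tendsto_nhds_unique (limOp_tendsto i hF x) h

theorem invOp_limOp (i : Fin d) : InvOp {i} (limOp (A := A) i) := by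
  refine ⟨?_, ?_, ?_, ?_, ?_, ?_, ?_⟩
  · intro F G hF hG
    funext x
    refine limOp_eq i (hF.add hG) x ?_
    have h := (limOp_tendsto i hF x).add (limOp_tendsto i hG x)
    refine h.congr fun n => ?_
    simp only [avg, Pi.add_apply, Finset.sum_add_distrib]
    ring
  · intro c F hF
    funext x
    refine limOp_eq i (hF.smul c) x ?_
    have h := (limOp_tendsto i hF x).const_mul c
    refine h.congr fun n => ?_
    simp only [avg, Pi.smul_apply, smul_eq_mul, ← Finset.mul_sum]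
    ring
  · intro F hF
    obtain ⟨C, hC⟩ := hF
    refine ⟨C, fun x => ?_⟩
    have h := (limOp_tendsto i ⟨C, hC⟩ x).abs
    exact le_of_tendsto' h fun n => avg_abs_le i hC x n
  · funext x
    refine limOp_eq i bdd_one x ?_
    have : avg i (fun _ : Conf d A => (1 : ℝ)) x = fun _ => 1 := by
      funext n
      have hn : (0 : ℝ) < n + 1 := by positivity
      simp only [avg, Finset.sum_const, Finset.card_range, nsmul_eq_mul, mul_one]
      push_cast
      exact div_self hn.ne'
    rw [this]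
    exact tendsto_const_nhds
  · intro F hF S hS hFS x hx
    refine ge_of_tendsto' (limOp_tendsto i hF x) fun n => ?_
    exact div_nonneg (Finset.sum_nonneg fun k _ => hFS _ (hS x hx _)) (by positivity)
  · intro F hF g
    funext x
    refine limOp_eq i (hF.comp _) x ?_
    have h := limOp_tendsto i hF (sh g x)
    refine h.congr fun n => ?_
    simp only [avg, sh_sh]
    congr 1
    refine Finset.sum_congr rfl fun k _ => ?_
    rw [add_comm]
  · intro F hF j hj x
    rw [Finset.mem_singleton] at hj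
    subst hj
    obtain ⟨C, hC⟩ := hF
    refine (limOp_eq j ⟨C, hC⟩ _ ?_)
    have h := limOp_tendsto j ⟨C, hC⟩ x
    have h2 : Tendsto (fun n : ℕ => (F (sh (Pi.single j ((n : ℤ) + 1)) x) - F x) / ((n : ℝ) + 1))
        (hyperfilter ℕ : Filter ℕ) (𝓝 0) := by
      have h3 : Tendsto (fun n : ℕ => (2 * C) / ((n : ℝ) + 1)) atTop (𝓝 0) := by
        have := tendsto_one_div_add_atTop_nhds_zero_nat (𝕜 := ℝ)
        have h4 := this.const_mul (2 * C)
        rw [mul_zero] at h4
        refine h4.congr fun n => ?_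
        ring
      have h4 : Tendsto (fun n : ℕ => (F (sh (Pi.single j ((n : ℤ) + 1)) x) - F x) / ((n : ℝ) + 1))
          atTop (𝓝 0) := by
        refine squeeze_zero_norm (fun n => ?_) h3
        have hn : (0 : ℝ) < n + 1 := by positivity
        rw [Real.norm_eq_abs, abs_div, abs_of_pos hn]
        refine div_le_div_of_nonneg_right ?_ hn.le
        have h5 := abs_sub (F (sh (Pi.single j ((n : ℤ) + 1)) x)) (F x)
        have h6 := hC (sh (Pi.single j ((n : ℤ) + 1)) x)
        have h7 := hC x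
        linarith
      refine h4.mono_left ?_
      rw [← Nat.cofinite_eq_atTop]
      exact hyperfilter_le_cofinite
    have h5 := h.add h2
    rw [add_zero] at h5
    refine h5.congr fun n => ?_
    have hn : (0 : ℝ) < n + 1 := by positivity
    simp only [avg, sh_sh]
    rw [← add_div]
    congr 1
    have h6 : ∀ k : ℕ, (Pi.single j (k : ℤ) + Pi.single j 1 : Pt d) =
        Pi.single j (((k + 1 : ℕ)) : ℤ) := fun k => by
      rw [← Pi.single_add]; push_cast; rfl
    simp only [h6]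
    rw [Finset.sum_range_succ' (fun k : ℕ => F (sh (Pi.single j ((k : ℕ) : ℤ)) x)) n,
      Finset.sum_range_succ (fun k : ℕ => F (sh (Pi.single j (((k + 1 : ℕ)) : ℤ)) x)) n]
    have h7 : sh (Pi.single j (((0 : ℕ)) : ℤ)) x = x := by
      rw [Nat.cast_zero, Pi.single_zero, sh_zero]
    rw [h7]
    push_cast
    ring

theorem exists_invOp (I : Finset (Fin d)) :
    ∃ L : (Conf d A → ℝ) → Conf d A → ℝ, InvOp I L := by
  classical
  induction I using Finset.induction_on with
  | empty =>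
    refine ⟨fun F => F, ?_, ?_, ?_, ?_, ?_, ?_, ?_⟩
    · intro F G _ _; rfl
    · intro c F _; rfl
    · intro F hF; exact hF
    · rfl
    · intro F _ S _ h x hx; exact h x hx
    · intro F _ g; rfl
    · intro F _ i hi; simp at hi
  | insert i I _ ih =>
    obtain ⟨L, hL⟩ := ih
    have hi := invOp_limOp (A := A) i
    refine ⟨fun F => limOp i (L F), ?_, ?_, ?_, ?_, ?_, ?_, ?_⟩
    · intro F G hF hG
      show limOp i (L (F + G)) = _
      rw [hL.add F G hF hG, hi.add _ _ (hL.bdd F hF) (hL.bdd G hG)]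
    · intro c F hF
      show limOp i (L (c • F)) = _
      rw [hL.smul c F hF, hi.smul _ _ (hL.bdd F hF)]
    · intro F hF; exact hi.bdd _ (hL.bdd F hF)
    · show limOp i (L (fun _ => 1)) = _
      rw [hL.one, hi.one]
    · intro F hF S hS h
      exact hi.nonneg _ (hL.bdd F hF) S hS (hL.nonneg F hF S hS h)
    · intro F hF g
      show limOp i (L (fun x => F (sh g x))) = _
      rw [hL.comm F hF g, hi.comm _ (hL.bdd F hF) g]
    · intro F hF j hj x
      rcases Finset.mem_insert.1 hj with rfl | hj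
      · exact hi.inv _ (hL.bdd F hF) j (Finset.mem_singleton_self _) x
      · have h1 := congrFun (hi.comm _ (hL.bdd F hF) (Pi.single j 1)) x
        show limOp i (L F) (sh (Pi.single j 1) x) = _
        rw [← h1]
        congr 1
        funext y
        exact hL.inv F hF j hj y

/-- Invariant means on `X`, invariant under the multiples of `M`. -/
structure IsMean (X : Set (Conf d A)) (M : ℕ) (μ : (Conf d A → ℝ) → ℝ) : Prop where
  add : ∀ F G, Bdd F → Bdd G → μ (F + G) = μ F + μ G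
  smul : ∀ (c : ℝ) F, Bdd F → μ (c • F) = c * μ F
  one : μ (fun _ => 1) = 1
  nonneg : ∀ F, Bdd F → (∀ x ∈ X, 0 ≤ F x) → 0 ≤ μ F
  inv : ∀ F, Bdd F → ∀ g : Pt d, μ (fun x => F (sh (fun i => (M : ℤ) * g i) x)) = μ F

theorem IsMean.congr {X : Set (Conf d A)} {M : ℕ} {μ : (Conf d A → ℝ) → ℝ} (h : IsMean X M μ)
    {F G : Conf d A → ℝ} (hF : Bdd F) (hG : Bdd G) (hFG : ∀ x ∈ X, F x = G x) : μ F = μ G := by
  have h1 : μ (F + (-1 : ℝ) • G) = μ F + -1 * μ G := by
    rw [h.add _ _ hF (hG.smul _), h.smul _ _ hG]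
  have h2 : μ (G + (-1 : ℝ) • F) = μ G + -1 * μ F := by
    rw [h.add _ _ hG (hF.smul _), h.smul _ _ hF]
  have h3 := h.nonneg _ (hF.add (hG.smul (-1))) fun x hx => by
    simp [hFG x hx]
  have h4 := h.nonneg _ (hG.add (hF.smul (-1))) fun x hx => by
    simp [hFG x hx]
  linarith

theorem IsMean.mono {X : Set (Conf d A)} {M N : ℕ} {μ : (Conf d A → ℝ) → ℝ} (h : IsMean X M μ)
    (hMN : M ∣ N) : IsMean X N μ := by
  refine ⟨h.add, h.smul, h.one, h.nonneg, fun F hF g => ?_⟩
  obtain ⟨k, rfl⟩ := hMN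
  have := h.inv F hF (fun i => (k : ℤ) * g i)
  simp only [← mul_assoc] at this
  push_cast
  exact this

theorem exists_mean {X : Set (Conf d A)} (hX : ∀ x ∈ X, ∀ g, sh g x ∈ X) (hne : X.Nonempty) :
    ∃ μ : (Conf d A → ℝ) → ℝ, IsMean X 1 μ := by
  obtain ⟨x₀, hx₀⟩ := hne
  obtain ⟨L, hL⟩ := exists_invOp (A := A) (Finset.univ : Finset (Fin d))
  refine ⟨fun F => L F x₀, ?_, ?_, ?_, ?_, ?_⟩
  · intro F G hF hG
    show L (F + G) x₀ = _
    rw [hL.add F G hF hG]; rfl
  · intro c F hF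
    show L (c • F) x₀ = _
    rw [hL.smul c F hF]; rfl
  · show L (fun _ => 1) x₀ = _
    rw [hL.one]
  · intro F hF h
    exact hL.nonneg F hF X hX h x₀ hx₀
  · intro F hF g
    show L (fun x => F (sh _ x)) x₀ = _
    rw [hL.comm F hF]
    let H : AddSubgroup (Pt d) :=
      { carrier := {g | ∀ x, L F (sh g x) = L F x}
        zero_mem' := by intro x; rw [sh_zero]
        add_mem' := by
          intro a b ha hb x
          rw [← sh_sh, ha, hb]
        neg_mem' := by
          intro a ha x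
          rw [← ha (sh (-a) x), sh_sh, add_neg_cancel, sh_zero] }
    have h1 : ∀ g : Pt d, g ∈ H := by
      intro g
      have h2 : g = ∑ i : Fin d, (g i) • (Pi.single i 1 : Pt d) := by
        funext j
        rw [Finset.sum_apply]
        simp [Pi.single_apply]
      rw [h2]
      refine AddSubgroup.sum_mem _ fun i _ => AddSubgroup.zsmul_mem H ?_ _
      exact fun x => hL.inv F hF i (Finset.mem_univ i) x
    exact h1 _ x₀

end Pool.Agent.Lib_MP_499141
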