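import Pool.Agent.Lib_MP_499141.Width

/-!
# Linear and affine relaxations through partial solutions
-/

namespace Pool.Agent.Lib_MP_499141

open Set

/-- Weights with values in a ring `R` (`ℝ` for the linear relaxation, `ℤ` for the affine one):
`w c τ` for the tuples `τ` at the scope `c`, `p v a` for the values `a` of the variable `v`. They have
total one and the one-variable marginals of `w c` are the `p (c e)`. -/
structure IsWeights {V E A R : Type} [Fintype E] [DecidableEq E] [Fintype A] [DecidableEq A]
    [CommRing R] (C : Set (E → V)) (w : (E → V) → (E → A) → R) (p : V → A → R) : Prop where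
  total : ∀ v, ∑ a, p v a = 1
  total_scope : ∀ c ∈ C, ∑ τ, w c τ = 1
  marginal : ∀ c ∈ C, ∀ e a, (∑ τ : E → A, if τ e = a then w c τ else 0) = p (c e) a

/-- The partial solution `s` on `S` extends to a solution of the relaxation BLP+AIP of the instance
`(V, P, C)` restricted to the family `H`: there are nonnegative real weights `q`, `p` and integral
weights `r`, `p'` such that `r` is supported inside `q`, the weights `q` are supported by tuples in
`P` that belong to `H`, and `p` is concentrated at `s v` for `v ∈ S`. -/
def Extends {V E A : Type} [DecidableEq V] [Fintype E] [DecidableEq E] [Fintype A] [DecidableEq A]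
    (P : Set (E → A)) (C : Set (E → V)) (m : ℕ) (H : Finset V → (V → A) → Prop) (S : Finset V)
    (s : V → A) : Prop :=
  ∃ (q : (E → V) → (E → A) → ℝ) (p : V → A → ℝ) (r : (E → V) → (E → A) → ℤ) (p' : V → A → ℤ),
    IsWeights C q p ∧ IsWeights C r p' ∧
    (∀ c ∈ C, ∀ τ, 0 ≤ q c τ) ∧ (∀ v a, 0 ≤ p v a) ∧
    (∀ c ∈ C, ∀ τ, r c τ ≠ 0 → 0 < q c τ) ∧ (∀ v a, p' v a ≠ 0 → 0 < p v a) ∧
    (∀ c ∈ C, ∀ τ, 0 < q c τ → τ ∈ P ∧ ((Finset.univ.image c).card ≤ m →
      ∀ t : V → A, (∀ e, t (c e) = τ e) → H (Finset.univ.image c) t)) ∧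
    (∀ v ∈ S, p v (s v) = 1)

/-- `P` is solved by consistency and BLP+AIP at some level `m`: every finite instance over `P` that
has an `m`-consistent family of partial solutions, each of which (on at most `m` variables) extends
to a solution of BLP+AIP restricted to the family, has a solution. -/
def SolvedByRelaxation {E A : Type} [Fintype E] [DecidableEq E] [Fintype A] [DecidableEq A]
    (P : Set (E → A)) : Prop :=
  ∃ m : ℕ, ∀ (V : Type) [Finite V] [DecidableEq V] (C : Set (E → V)),
    (∃ H, ConsistentFamily P C m H ∧ ∀ S s, S.card ≤ m → H S s → Extends P C m H S s) →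
      ∃ s : V → A, ∀ c ∈ C, (fun e => s (c e)) ∈ P

end Pool.Agent.Lib_MP_499141
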