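import Pool.Agent.Lib_MP_499141.Affine

/-!
# Existence of periodic integral sections
-/

namespace Pool.Agent.Lib_MP_499141

open AddMonoidAlgebra

/-- In a finitely generated abelian group divisibility modulo torsion is detected by integral
functionals. -/
theorem exists_of_forall_dvd {Q : Type} [AddCommGroup Q] [Module.Finite ℤ Q] (q : Q) (p : ℤ)
    (h : ∀ ψ : Q →ₗ[ℤ] ℤ, p ∣ ψ q) : ∃ t : Q, ∃ k : ℤ, k ≠ 0 ∧ k • (q - p • t) = 0 := by
  classical
  set W := Submodule.torsion ℤ Q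
  let b := Module.Free.chooseBasis ℤ (Q ⧸ W)
  have hc : ∀ i, ∃ c : ℤ, b.repr (W.mkQ q) i = p * c := fun i =>
    h ((b.coord i).comp W.mkQ)
  choose c hc using hc
  obtain ⟨t, ht⟩ := W.mkQ_surjective (∑ i, c i • b i)
  have h1 : W.mkQ (q - p • t) = 0 := by
    rw [map_sub, map_smul, ht, sub_eq_zero]
    apply b.repr.injective
    ext i
    rw [hc, map_smul, map_sum]
    simp [Finsupp.single_apply]
  rw [Submodule.mkQ_apply, Submodule.Quotient.mk_eq_zero] at h1
  obtain ⟨k, hk⟩ := (Submodule.mem_torsion_iff _).1 h1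
  exact ⟨t, k, nonZeroDivisors.ne_zero k.2, hk⟩

variable {d : ℕ} {κ : Type} [Fintype κ] [DecidableEq κ]

theorem sum_single_sec {N : ℕ} [NeZero N] (x : AddMonoidAlgebra ℤ (Fin d → ZMod N)) :
    ∑ a : Fin d → ZMod N, (single (sec N a) (x.coeff a) : Lam d) = mapDomain (sec N) x := by
  induction x using AddMonoidAlgebra.induction_linear with
  | zero => simp
  | add x y hx hy =>
    rw [mapDomain_add, ← hx, ← hy, ← Finset.sum_add_distrib]
    exact Finset.sum_congr rfl fun a _ => by rw [coeff_add, Finsupp.add_apply, single_add]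
  | single m r =>
    rw [mapDomain_single, Finset.sum_eq_single m]
    · simp
    · intro a _ ha
      simp [Ne.symm ha]
    · intro h; exact absurd (Finset.mem_univ m) h

omit [DecidableEq κ] in
/-- The quotient by a submodule containing `I_N` is a finitely generated abelian group. -/
theorem finite_quotient {N : ℕ} [NeZero N] (W : Submodule (Lam d) (κ → Lam d))
    (hW : (perIdeal d N • ⊤ : Submodule (Lam d) (κ → Lam d)) ≤ W) :
    Module.Finite ℤ ((κ → Lam d) ⧸ W) := by
  classical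
  let f : (κ → (Fin d → ZMod N) → ℤ) →+ ((κ → Lam d) ⧸ W) :=
    (W.mkQ.toAddMonoidHom).comp
      { toFun := fun u π => ∑ a, (single (sec N a) (u π a) : Lam d)
        map_zero' := by funext π; simp
        map_add' := by intro u v; funext π; simp [Finset.sum_add_distrib] }
  have hf : Function.Surjective f := by
    intro q
    obtain ⟨v, rfl⟩ := W.mkQ_surjective q
    refine ⟨fun π a => (push N (v π)).coeff a, ?_⟩
    show W.mkQ _ = W.mkQ v
    rw [← sub_eq_zero, ← map_sub, ← neg_eq_zero, ← map_neg, Submodule.mkQ_apply,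
      Submodule.Quotient.mk_eq_zero]
    refine hW ((mem_smul_top_pi _ _).2 fun π => ?_)
    have h1 := sub_sec_mem (N := N) (v π)
    rw [← sum_single_sec] at h1
    simpa using h1
  exact Module.Finite.of_surjective f.toIntLinearMap hf

theorem ev_of_hom (ψ : (κ → Lam d) →+ ℤ) (f : κ → Lam d) :
    ψ f = ev (fun π h => ψ (Pi.single π (single h 1))) f := by
  have h1 : f = ∑ π, Pi.single π (f π) := by
    funext ρ
    rw [Finset.sum_apply]
    simp [Pi.single_apply]
  conv_lhs => rw [h1]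
  rw [map_sum, ev_apply]
  refine Finset.sum_congr rfl fun π _ => ?_
  induction f π using AddMonoidAlgebra.induction_linear with
  | zero => simp
  | add x y hx hy => rw [Pi.single_add, map_add, map_add, hx, hy]
  | single m r =>
    rw [pair_single]
    have h2 : (Pi.single π (single m r) : κ → Lam d) = r • Pi.single π (single m 1) := by
      rw [← Pi.single_smul]
      congr 1
      simp
    rw [h2, map_zsmul, smul_eq_mul]

/-- The conditions on `T`. -/
structure Good' (T : Set (κ → (Fin d → ℤ) → ℤ)) : Prop where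
  shift : ShiftInv T
  nonempty : T.Nonempty
  total : ∀ t ∈ T, ∀ h, ∑ π, t π h = 1
  mean : ∃ c : κ → ℝ, ∑ π, c π = 1 ∧ ∀ f : κ → Lam d, (∀ t ∈ T, ev t f = 0) →
    ∑ π, ((pair (fun _ => 1) (f π) : ℤ) : ℝ) * c π = 0
  homoclinic : ∀ f : κ → Lam d, ∀ t ∈ T, ∀ t' ∈ T, ∃ t'' ∈ T,
    (∃ s : κ → (Fin d → ℤ) →₀ ℤ, ∀ π h, s π h = t'' π h - t π h) ∧ ev t'' f = ev t' f

/-- Invariance of a functional under the multiples of `N`. -/
def InvHom (N : ℕ) (ψ : (κ → Lam d) →+ ℤ) : Prop :=
  ∀ v ∈ (perIdeal d N • ⊤ : Submodule (Lam d) (κ → Lam d)), ψ v = 0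

omit [Fintype κ] [DecidableEq κ] in
theorem InvHom.mono {N M : ℕ} (h : N ∣ M) {ψ : (κ → Lam d) →+ ℤ} (hψ : InvHom N ψ) :
    InvHom M ψ := by
  intro v hv
  refine hψ v (Submodule.smul_mono_left ?_ hv)
  rw [perIdeal, Ideal.span_le]
  rintro x ⟨g, rfl⟩
  obtain ⟨k, rfl⟩ := h
  refine Ideal.subset_span ⟨fun i => (k : ℤ) * g i, ?_⟩
  congr 2
  funext i
  push_cast
  ring

/-- A nonzero integral functional killing the relations and `I_1`. -/
theorem exists_psi0 {T : Set (κ → (Fin d → ℤ) → ℤ)} (hT : Good' T) :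
    ∃ ψ : (κ → Lam d) →+ ℤ, (∀ f ∈ relSub T hT.shift, ψ f = 0) ∧ InvHom 1 ψ ∧
      ψ oneV ≠ 0 := by
  classical
  obtain ⟨c, hc1, hc⟩ := hT.mean
  set W : Submodule (Lam d) (κ → Lam d) := relSub T hT.shift ⊔ perIdeal d 1 • ⊤ with hW
  have : NeZero 1 := ⟨one_ne_zero⟩
  have hfin : Module.Finite ℤ ((κ → Lam d) ⧸ W) := finite_quotient (N := 1) W le_sup_right
  by_contra hcon
  push Not at hcon
  have h1 : ∀ ψ : ((κ → Lam d) ⧸ W) →ₗ[ℤ] ℤ, (0 : ℤ) ∣ ψ (W.mkQ oneV) := by
    intro ψ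
    rw [zero_dvd_iff]
    refine hcon (ψ.toAddMonoidHom.comp W.mkQ.toAddMonoidHom) ?_ ?_
    · intro f hf
      show ψ (W.mkQ f) = 0
      rw [Submodule.mkQ_apply, (Submodule.Quotient.mk_eq_zero W).2 (Submodule.mem_sup_left hf),
        map_zero]
    · intro f hf
      show ψ (W.mkQ f) = 0
      rw [Submodule.mkQ_apply, (Submodule.Quotient.mk_eq_zero W).2 (Submodule.mem_sup_right hf),
        map_zero]
  obtain ⟨t, k, hk, hkt⟩ := exists_of_forall_dvd _ _ h1
  rw [zero_smul, sub_zero, ← map_zsmul W.mkQ k oneV] at hkt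
  have h2 : k • oneV ∈ W := (Submodule.Quotient.mk_eq_zero W).1 hkt
  obtain ⟨f, hf, g, hg, hfg⟩ := Submodule.mem_sup.1 h2
  -- the augmentation
  have haug : ∀ x ∈ perIdeal d 1, pair (fun _ => 1) x = 0 := by
    intro x hx
    induction hx using Submodule.span_induction with
    | mem x hx =>
      obtain ⟨g, rfl⟩ := hx
      rw [map_sub, pair_single, one_def, pair_single]; ring
    | zero => exact map_zero _
    | add x y _ _ hx hy => rw [map_add, hx, hy, add_zero]
    | smul a x _ hx =>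
      rw [smul_eq_mul]
      induction a using AddMonoidAlgebra.induction_linear with
      | zero => simp
      | add a b ha hb => rw [add_mul, map_add, ha, hb, add_zero]
      | single m s => rw [pair_single_mul, hx, mul_zero]
  have h3 : ∀ π, pair (fun _ => 1) (f π) = k := by
    intro π
    have h4 := congrFun hfg π
    have h5 := haug _ ((mem_smul_top_pi _ _).1 hg π)
    have h6 := congrArg (pair (fun _ => 1)) h4
    rw [Pi.add_apply, map_add, h5, add_zero] at h6
    rw [h6, Pi.smul_apply, map_zsmul, oneV, one_def, pair_single]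
    simp
  have h7 := hc f (fun t ht => hf t ht)
  simp only [h3] at h7
  rw [← Finset.mul_sum, hc1, mul_one] at h7
  exact hk (by exact_mod_cast h7)

omit [DecidableEq κ] in
/-- The comparison map: it kills the relations and the constants, and nothing else. -/
theorem exists_jmap {T : Set (κ → (Fin d → ℤ) → ℤ)} (hT : Good' T) :
    ∃ (S : Type) (_ : Fintype S) (_ : DecidableEq S) (j : (κ → Lam d) →ₗ[Lam d] (S → Lam d)),
      (∀ f ∈ relSub T hT.shift, j f = 0) ∧ j oneV = 0 ∧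
      ∀ f, j f = 0 → ∃ c : ℤ, f - c • oneV ∈ relSub T hT.shift := by
  classical
  let Δ : Set (κ → Lam d) := {δ | ∃ s : κ → (Fin d → ℤ) →₀ ℤ, δ = dvec s ∧
    ∃ t ∈ T, ∃ t'' ∈ T, ∀ π h, s π h = t'' π h - t π h}
  obtain ⟨S, hSΔ, hSspan⟩ := (Submodule.fg_span_iff_fg_span_finset_subset Δ).1
    (IsNoetherian.noetherian (Submodule.span (Lam d) Δ))
  have hshift : ∀ (s : κ → (Fin d → ℤ) →₀ ℤ) (t t'' : κ → (Fin d → ℤ) → ℤ),
      (∀ π h, s π h = t'' π h - t π h) → ∀ (f : κ → Lam d) (k : Fin d → ℤ),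
      (dotL (dvec s) f).coeff k = ev (fun π h => t'' π (-k + h)) f - ev (fun π h => t π (-k + h)) f := by
    intro s t t'' hs f k
    have h1 : (fun π h => s π (h - k)) = fun π h => t'' π (-k + h) - t π (-k + h) := by
      funext π h
      rw [hs, neg_add_eq_sub]
    rw [coeff_dotL, ← ev_sub, h1]
  refine ⟨S, inferInstance, inferInstance, LinearMap.pi fun δ : S => dotL δ.1, ?_, ?_, ?_⟩
  · intro f hf
    funext δ
    obtain ⟨s, hs, t, ht, t'', ht'', hst⟩ := hSΔ δ.2
    show dotL δ.1 f = 0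
    rw [hs]
    ext k
    rw [hshift s t t'' hst, hf _ (hT.shift t'' ht'' (-k)), hf _ (hT.shift t ht (-k))]
    simp
  · funext δ
    obtain ⟨s, hs, t, ht, t'', ht'', hst⟩ := hSΔ δ.2
    show dotL δ.1 oneV = 0
    rw [hs]
    ext k
    rw [hshift s t t'' hst, ev_oneV, ev_oneV, hT.total t'' ht'', hT.total t ht]
    simp
  · intro f hf
    have h1 : ∀ δ ∈ Submodule.span (Lam d) Δ, dotL δ f = 0 := by
      rw [hSspan]
      intro δ hδ
      induction hδ using Submodule.span_induction with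
      | mem x hx => exact congrFun hf ⟨x, hx⟩
      | zero => simp [dotL_apply]
      | add x y _ _ hx hy =>
        rw [dotL_apply] at hx hy ⊢
        simp only [Pi.add_apply, mul_add, Finset.sum_add_distrib, hx, hy, add_zero]
      | smul a x _ hx =>
        rw [dotL_apply] at hx ⊢
        have : ∑ π, f π * (a • x) π = a * ∑ π, f π * x π := by
          rw [Finset.mul_sum]
          exact Finset.sum_congr rfl fun π _ => by rw [Pi.smul_apply, smul_eq_mul]; ring
        rw [this, hx, mul_zero]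
    obtain ⟨t₀, ht₀⟩ := hT.nonempty
    refine ⟨ev t₀ f, fun t ht => ?_⟩
    rw [map_sub, map_zsmul, ev_oneV, hT.total t ht, smul_eq_mul, mul_one, sub_eq_zero]
    obtain ⟨t'', ht'', ⟨s, hs⟩, hev⟩ := hT.homoclinic f t₀ ht₀ t ht
    have h2 := h1 (dvec s) (Submodule.subset_span ⟨s, rfl, t₀, ht₀, t'', ht'', hs⟩)
    have h3 := hshift s t₀ t'' hs f 0
    rw [h2] at h3
    simp only [coeff_zero, Finsupp.coe_zero, Pi.zero_apply, neg_zero, zero_add] at h3
    rw [← hev]
    linarith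

/-- The key step: for each prime `p` there is a periodic functional with value at the constant one
prime to `p`. -/
theorem exists_psi_prime {T : Set (κ → (Fin d → ℤ) → ℤ)} (hT : Good' T) {p : ℕ} (hp : p.Prime) :
    ∃ N : ℕ, 0 < N ∧ ∃ ψ : (κ → Lam d) →+ ℤ, (∀ f ∈ relSub T hT.shift, ψ f = 0) ∧
      InvHom N ψ ∧ ¬ (p : ℤ) ∣ ψ oneV := by
  classical
  obtain ⟨ψ₀, hψ₀r, hψ₀i, hψ₀1⟩ := exists_psi0 hT
  obtain ⟨S, _, _, j, hjr, hj1, hjk⟩ := exists_jmap hT
  set l : ℤ := ψ₀ oneV with hl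
  obtain ⟨k₀, hk₀⟩ := Ideal.exists_pow_inf_eq_pow_smul (maxI d p) (LinearMap.range j)
  set n : ℕ := k₀ + l.natAbs with hn
  have hN : 0 < p ^ n := pow_pos hp.pos n
  have : NeZero (p ^ n) := ⟨hN.ne'⟩
  refine ⟨p ^ n, hN, ?_⟩
  set W : Submodule (Lam d) (κ → Lam d) := relSub T hT.shift ⊔ perIdeal d (p ^ n) • ⊤ with hW
  have hfin : Module.Finite ℤ ((κ → Lam d) ⧸ W) := finite_quotient (N := p ^ n) W le_sup_right
  by_contra hcon
  push Not at hcon
  have h1 : ∀ ψ : ((κ → Lam d) ⧸ W) →ₗ[ℤ] ℤ, (p : ℤ) ∣ ψ (W.mkQ oneV) := by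
    intro ψ
    refine hcon (ψ.toAddMonoidHom.comp W.mkQ.toAddMonoidHom) ?_ ?_
    · intro f hf
      show ψ (W.mkQ f) = 0
      rw [Submodule.mkQ_apply, (Submodule.Quotient.mk_eq_zero W).2 (Submodule.mem_sup_left hf),
        map_zero]
    · intro f hf
      show ψ (W.mkQ f) = 0
      rw [Submodule.mkQ_apply, (Submodule.Quotient.mk_eq_zero W).2 (Submodule.mem_sup_right hf),
        map_zero]
  obtain ⟨t', k, hk, hkt⟩ := exists_of_forall_dvd _ _ h1
  obtain ⟨t, rfl⟩ := W.mkQ_surjective t'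
  rw [← map_zsmul W.mkQ (p : ℤ) t, ← map_sub, ← map_zsmul W.mkQ k] at hkt
  have h2 : k • (oneV - (p : ℤ) • t) ∈ W := (Submodule.Quotient.mk_eq_zero W).1 hkt
  obtain ⟨f, hf, g, hg, hfg⟩ := Submodule.mem_sup.1 h2
  have hp0 : (p : ℤ) ≠ 0 := by exact_mod_cast hp.pos.ne'
  -- apply j
  have h3 : j t ∈ (perIdeal d (p ^ n) • ⊤ : Submodule (Lam d) (S → Lam d)) := by
    have h4 : (-(k * p)) • j t = j g := by
      have h5 := congrArg j hfg
      rw [map_add, hjr f hf, zero_add, map_zsmul, map_sub, hj1, map_zsmul] at h5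
      rw [h5, zero_sub, smul_neg, smul_smul, neg_smul]
    refine smul_top_torsionFree (k := -(k * p)) (neg_ne_zero.2 (mul_ne_zero hk hp0)) ?_
    rw [h4]
    have h6 : j g ∈ Submodule.map j (perIdeal d (p ^ n) • ⊤ : Submodule (Lam d) (κ → Lam d)) :=
      Submodule.mem_map_of_mem hg
    rw [Submodule.map_smul''] at h6
    exact Submodule.smul_mono le_rfl le_top h6
  have h4 : j t ∈ maxI d p ^ n • (⊤ : Submodule (Lam d) (S → Lam d)) ⊓ LinearMap.range j :=
    ⟨Submodule.smul_mono_left (perIdeal_le_pow p n) h3, LinearMap.mem_range_self j t⟩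
  rw [hk₀ n (by omega)] at h4
  have h5 : j t ∈ maxI d p ^ (n - k₀) • LinearMap.range j :=
    Submodule.smul_mono le_rfl inf_le_right h4
  have hnk : n - k₀ = l.natAbs := by omega
  rw [hnk, LinearMap.range_eq_map, ← Submodule.map_smul''] at h5
  obtain ⟨s, hs, hjs⟩ := h5
  obtain ⟨c, hc⟩ := hjk (t - s) (by rw [map_sub, hjs, sub_self])
  have h6 : ψ₀ (t - s - c • oneV) = 0 := hψ₀r _ hc
  rw [map_sub, map_sub, map_zsmul, ← hl, smul_eq_mul] at h6
  have h7 : k * (l - p * ψ₀ t) = 0 := by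
    have h8 := congrArg ψ₀ hfg
    rw [map_add, hψ₀r f hf, zero_add, hψ₀i g (Submodule.smul_mono_left (perIdeal_le d _) hg),
      map_zsmul, map_sub, map_zsmul, ← hl, smul_eq_mul, smul_eq_mul] at h8
    exact h8.symm
  have h8 : l - p * ψ₀ t = 0 := by
    rcases mul_eq_zero.1 h7 with h | h
    · exact absurd h hk
    · exact h
  obtain ⟨e, he⟩ := dvd_of_mem_pow ψ₀ hψ₀i p l.natAbs hs
  have h9 : l * (1 - p * c) = (p : ℤ) ^ (l.natAbs + 1) * e := by
    have h10 : ψ₀ t = (p : ℤ) ^ l.natAbs * e + c * l := by linarith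
    rw [h10] at h8
    rw [pow_succ]
    linarith
  have h10 : IsCoprime ((p : ℤ) ^ (l.natAbs + 1)) (1 - p * c) := by
    refine IsCoprime.pow_left ⟨c, 1, by ring⟩
  have h11 : (p : ℤ) ^ (l.natAbs + 1) ∣ l := by
    refine h10.dvd_of_dvd_mul_right ?_
    rw [h9]
    exact dvd_mul_right _ _
  have h12 : p ^ (l.natAbs + 1) ∣ l.natAbs := by
    have := Int.natAbs_dvd_natAbs.2 h11
    rwa [Int.natAbs_pow, Int.natAbs_natCast] at this
  have h13 := Nat.le_of_dvd (Int.natAbs_pos.2 hψ₀1) h12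
  have h14 : l.natAbs + 1 < p ^ (l.natAbs + 1) := Nat.lt_pow_self hp.one_lt
  omega

/-- The main result of this file. -/
theorem exists_section {T : Set (κ → (Fin d → ℤ) → ℤ)} (hT : Good' T) :
    ∃ N : ℕ, 0 < N ∧ ∃ b : κ → (Fin d → ℤ) → ℤ,
      (∀ π h (g : Fin d → ℤ), b π (h + fun i => (N : ℤ) * g i) = b π h) ∧
      (∀ h, ∑ π, b π h = 1) ∧ ∀ f : κ → Lam d, (∀ t ∈ T, ev t f = 0) → ev b f = 0 := by
  classical
  -- the ideal of attained values
  let J : Ideal ℤ :=
    { carrier := {a | ∃ N : ℕ, 0 < N ∧ ∃ ψ : (κ → Lam d) →+ ℤ,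
        (∀ f ∈ relSub T hT.shift, ψ f = 0) ∧ InvHom N ψ ∧ ψ oneV = a}
      zero_mem' := ⟨1, one_pos, 0, fun _ _ => rfl, fun _ _ => rfl, rfl⟩
      add_mem' := by
        rintro a b ⟨N, hN, ψ, h1, h2, rfl⟩ ⟨M, hM, φ, h3, h4, rfl⟩
        refine ⟨N * M, Nat.mul_pos hN hM, ψ + φ, ?_, ?_, rfl⟩
        · intro f hf; rw [AddMonoidHom.add_apply, h1 f hf, h3 f hf, add_zero]
        · intro v hv
          rw [AddMonoidHom.add_apply, h2.mono (dvd_mul_right N M) v hv,
            h4.mono (dvd_mul_left M N) v hv, add_zero]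
      smul_mem' := by
        rintro c a ⟨N, hN, ψ, h1, h2, rfl⟩
        refine ⟨N, hN, c • ψ, ?_, ?_, rfl⟩
        · intro f hf
          show c • ψ f = 0
          rw [h1 f hf, smul_zero]
        · intro v hv
          show c • ψ v = 0
          rw [h2 v hv, smul_zero] }
  have hJ : (1 : ℤ) ∈ J := by
    obtain ⟨g, hg⟩ := (IsPrincipalIdealRing.principal J).principal
    by_contra h1
    have h2 : g.natAbs ≠ 1 := by
      intro h
      apply h1
      rw [hg]
      have : IsUnit g := Int.isUnit_iff_natAbs_eq.2 h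
      exact Ideal.mem_span_singleton.2 this.dvd
    obtain ⟨p, hp, hpg⟩ := Nat.exists_prime_and_dvd h2
    obtain ⟨N, hN, ψ, h3, h4, h5⟩ := exists_psi_prime hT hp
    have h6 : ψ oneV ∈ J := ⟨N, hN, ψ, h3, h4, rfl⟩
    rw [hg] at h6
    exact h5 ((Int.natCast_dvd.2 hpg).trans (Ideal.mem_span_singleton.1 h6))
  obtain ⟨N, hN, ψ, h1, h2, h3⟩ := hJ
  refine ⟨N, hN, fun π h => ψ (Pi.single π (single h 1)), ?_, ?_, ?_⟩
  · intro π h g
    have h4 : (Pi.single π (single (h + fun i => (N : ℤ) * g i) 1) : κ → Lam d) =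
        (single (fun i => (N : ℤ) * g i) 1 - 1 : Lam d) • Pi.single π (single h 1) +
          Pi.single π (single h 1) := by
      rw [sub_smul, one_smul, sub_add_cancel, ← Pi.single_smul, smul_eq_mul, single_mul_single,
        one_mul, add_comm h]
    show ψ _ = ψ _
    rw [h4, map_add, h2 _ (Submodule.smul_mem_smul (Ideal.subset_span ⟨g, rfl⟩) trivial), zero_add]
  · intro h
    rw [← map_sum]
    have h4 : ∑ π, (Pi.single π (single h 1) : κ → Lam d) =
        ((single h 1 : Lam d) • oneV - oneV) + oneV := by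
      funext ρ
      rw [Finset.sum_apply]
      simp [Pi.single_apply, oneV]
    rw [h4, map_add, h3, h1, zero_add]
    intro t ht
    have e1 := hT.total t ht (h + 0)
    have e2 := hT.total t ht 0
    rw [map_sub, ev_single_smul, ev_oneV, ev_oneV, e1, e2]
    ring
  · intro f hf
    rw [← ev_of_hom]
    exact h1 f hf

end Pool.Agent.Lib_MP_499141
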