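import Pool.Agent.Lib_MP_499141.Density

/-!
# Bounded width and periodic points

Constraint satisfaction instances over a single relation, consistent families of partial
solutions, bounded width; the torus instance of a strongly irreducible SFT is `m`-consistent
for every `m` as soon as the torus is large.
-/

namespace Pool.Agent.Lib_MP_499141

open Set

/-- `H` is an `m`-consistent family of partial solutions of the constraint satisfaction instance
with variables `V`, relation `P ⊆ A^E` and constraint scopes `C` (a set of maps `E → V`).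
`H S s` means: the restriction of `s` to `S` is in the family. Only sets `S` with at most `m`
elements matter. The family is nonempty, closed under restriction, every member on fewer than `m`
variables extends to any further variable, and every member satisfies every constraint whose scope
lies in its domain. -/
structure ConsistentFamily {V E A : Type} [DecidableEq V] (P : Set (E → A)) (C : Set (E → V))
    (m : ℕ) (H : Finset V → (V → A) → Prop) : Prop where
  congr : ∀ S s t, (∀ a ∈ S, s a = t a) → H S s → H S t
  nonempty : ∃ s, H ∅ s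
  restrict : ∀ S T s, T.card ≤ m → S ⊆ T → H T s → H S s
  extend : ∀ S s w, S.card < m → H S s → ∃ c, H (insert w S) (Function.update s w c)
  solves : ∀ S s (c : E → V), S.card ≤ m → c ∈ C → (∀ e, c e ∈ S) → H S s →
    (fun e => s (c e)) ∈ P

/-- The relation `P ⊆ A^E` has bounded width: for some `m`, every finite instance over `P` that has
an `m`-consistent family of partial solutions has a solution. -/
def BoundedWidth {E A : Type} (P : Set (E → A)) : Prop :=
  ∃ m : ℕ, ∀ (V : Type) [Finite V] [DecidableEq V] (C : Set (E → V)),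
    (∃ H, ConsistentFamily P C m H) → ∃ s : V → A, ∀ c ∈ C, (fun e => s (c e)) ∈ P

variable {d : ℕ} {A : Type}

/-- The torus `(ℤ/N)^d`. -/
abbrev Tor (d N : ℕ) : Type := Fin d → ZMod N

/-- Reduction `ℤ^d → (ℤ/N)^d`. -/
def red (d N : ℕ) (u : Pt d) : Tor d N := fun i => ((u i : ℤ) : ZMod N)

/-- The scopes of the torus instance: the windows `v + E`. -/
def scopes (E : Finset (Pt d)) (N : ℕ) : Set (E → Tor d N) :=
  {c | ∃ v : Pt d, c = fun u : E => red d N (u.1 + v)}

/-- The family of partial configurations on the torus all of whose lifts occur in `X`. -/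
def Good (X : Set (Conf d A)) (N : ℕ) (S : Finset (Tor d N)) (s : Tor d N → A) : Prop :=
  ∀ l : Tor d N → Pt d, (∀ a ∈ S, red d N (l a) = a) → ∃ x ∈ X, ∀ a ∈ S, x (l a) = s a

theorem red_eq_iff {N : ℕ} {u v : Pt d} : red d N u = red d N v ↔ ∀ i, (N : ℤ) ∣ v i - u i := by
  constructor
  · intro h i
    have := congrFun h i
    exact (ZMod.intCast_eq_intCast_iff_dvd_sub _ _ _).1 this
  · intro h
    funext i
    exact (ZMod.intCast_eq_intCast_iff_dvd_sub _ _ _).2 (h i)

/-- A pigeonhole for shells: among the `m+1` shells `(jR, (j+1)R]`, `j = 0, …, m`, one contains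
none of at most `m` given values. -/
theorem empty_shell {V : Type} [DecidableEq V] (S : Finset V) {m : ℕ} (hS : S.card ≤ m) (f : V → ℝ)
    {R : ℝ} (hR : 0 < R) : ∃ j : ℕ, j ≤ m ∧ ∀ a ∈ S, f a ≤ j * R ∨ (j + 1) * R < f a := by
  classical
  by_contra hcon
  push Not at hcon
  -- each shell j ≤ m contains an element of S
  have h1 : ∀ j : Fin (m + 1), ∃ a ∈ S, (j : ℝ) * R < f a ∧ f a ≤ ((j : ℕ) + 1 : ℝ) * R := by
    intro j
    obtain ⟨a, ha, h2, h3⟩ := hcon j (by omega)
    exact ⟨a, ha, h2, h3⟩
  choose g hgS hg1 hg2 using h1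
  have hinj : Function.Injective g := by
    intro i j hij
    by_contra hne
    have hne' : (i : ℕ) ≠ j := fun h => hne (Fin.ext h)
    rcases lt_or_gt_of_ne hne' with h | h
    · have h3 : ((i : ℕ) + 1 : ℝ) ≤ (j : ℕ) := by exact_mod_cast h
      have h4 := hg2 i
      have h5 := hg1 j
      rw [hij] at h4
      nlinarith
    · have h3 : ((j : ℕ) + 1 : ℝ) ≤ (i : ℕ) := by exact_mod_cast h
      have h4 := hg2 j
      have h5 := hg1 i
      rw [hij] at h5
      nlinarith
  have h6 : Fintype.card (Fin (m + 1)) ≤ S.card := by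
    rw [← Finset.card_univ]
    exact Finset.card_le_card_of_injOn g (fun i _ => hgS i) (fun i _ j _ h => hinj h)
  rw [Fintype.card_fin] at h6
  omega

/-- The core: the torus instance of a strongly irreducible SFT is `m`-consistent. -/
theorem consistent_torus [Finite A] {E : Finset (Pt d)} {P : Set (E → A)} {R : ℝ} (hR0 : 0 < R)
    (hR : ∀ S T : Finset (Pt d), (∀ u ∈ S, ∀ w ∈ T, R < ‖u - w‖) →
      ∀ y ∈ sft E P, ∀ z ∈ sft E P,
        ∃ x ∈ sft E P, (∀ u ∈ S, x u = y u) ∧ (∀ w ∈ T, x w = z w))
    (hne : (sft E P).Nonempty) {K : ℕ} (hK : ∀ u ∈ E, ∀ i, |u i| ≤ K) (m : ℕ) {N : ℕ}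
    (hN1 : 2 * K < N) (hN2 : 2 * (m * R) < N) :
    ConsistentFamily P (scopes E N) m (Good (sft E P) N) := by
  classical
  have hN0 : 0 < N := by omega
  have hNz : (0 : ℤ) < N := by exact_mod_cast hN0
  haveI : NeZero N := ⟨hN0.ne'⟩
  -- the centred representative near a point `w`
  have hcen : ∀ (w : Pt d) (a : Tor d N), ∃ u : Pt d, red d N u = a ∧
      ∀ v : Pt d, red d N v = a → (∀ i, 2 * |v i - w i| < N) → v = u := by
    intro w a
    by_cases h : ∃ v : Pt d, red d N v = a ∧ ∀ i, 2 * |v i - w i| < (N : ℤ)
    · obtain ⟨u, hu, hu2⟩ := h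
      refine ⟨u, hu, fun v hv hv2 => ?_⟩
      have h1 : ∀ i, (N : ℤ) ∣ u i - v i := red_eq_iff.1 (hv.trans hu.symm)
      funext i
      have h2 := abs_lt.1 (show |v i - w i| < N by have := hv2 i; have := abs_nonneg (v i - w i); linarith)
      have h3 : |u i - v i| < N := by
        have e1 := hv2 i
        have e2 := hu2 i
        have e3 : |u i - v i| ≤ |u i - w i| + |v i - w i| := by
          have : u i - v i = (u i - w i) - (v i - w i) := by ring
          rw [this]; exact abs_sub _ _
        linarith
      have h4 := Int.eq_zero_of_abs_lt_dvd (h1 i) h3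
      linarith
    · refine ⟨fun i => ((a i).val : ℤ), ?_, fun v hv hv2 => absurd ⟨v, hv, hv2⟩ h⟩
      funext i
      simp [red]
  refine ⟨?_, ?_, ?_, ?_, ?_⟩
  · intro S s t hst hs l hl
    obtain ⟨x, hx, hx2⟩ := hs l hl
    exact ⟨x, hx, fun a ha => by rw [hx2 a ha, hst a ha]⟩
  · obtain ⟨x, hx⟩ := hne
    exact ⟨fun _ => x 0, fun l _ => ⟨x, hx, by simp⟩⟩
  · intro S T s _ hST hs l hl
    choose r hr _ using hcen 0
    obtain ⟨x, hx, hx2⟩ := hs (fun a => if a ∈ S then l a else r a) (by
      intro a _
      by_cases ha : a ∈ S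
      · simp only [ha, if_true]; exact hl a ha
      · simp only [ha, if_false]; exact hr a)
    refine ⟨x, hx, fun a ha => ?_⟩
    have := hx2 a (hST ha)
    simpa only [ha, if_true] using this
  · intro S s w hS hs
    by_cases hw : w ∈ S
    · refine ⟨s w, ?_⟩
      rw [Finset.insert_eq_of_mem hw, Function.update_eq_self]
      exact hs
    obtain ⟨w', hw', _⟩ := hcen 0 w
    choose l₀ hl₀ hl₀' using hcen w'
    obtain ⟨x, hx, hxS⟩ := hs l₀ (fun a _ => hl₀ a)
    refine ⟨x w', ?_⟩
    intro l hl
    -- translate so that `w` goes to `w'`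
    set μ : Pt d := l w - w' with hμ
    have hμN : ∀ i, (N : ℤ) ∣ μ i := by
      have h1 := hl w (Finset.mem_insert_self _ _)
      have h2 := red_eq_iff.1 (hw'.trans h1.symm)
      intro i
      exact h2 i
    let l' : Tor d N → Pt d := fun a => l a - μ
    have hl' : ∀ a ∈ S, red d N (l' a) = a := by
      intro a ha
      have h1 := hl a (Finset.mem_insert_of_mem ha)
      rw [← h1]
      refine red_eq_iff.2 fun i => ?_
      have : (l (red d N (l a))) i - (l' (red d N (l a))) i = μ i := by
        simp only [l', Pi.sub_apply]; ring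
      rw [h1]
      have : l a i - l' a i = μ i := by simp only [l', Pi.sub_apply]; ring
      rw [this]; exact hμN i
    obtain ⟨x', hx', hx'S⟩ := hs l' hl'
    obtain ⟨j, hj, hshell⟩ := empty_shell S (le_of_lt hS) (fun a => ‖l' a - w'‖) hR0
    -- glue
    obtain ⟨y, hy, hy1, hy2⟩ := hR (insert w' ((S.filter fun a => ‖l' a - w'‖ ≤ j * R).image l'))
      ((S.filter fun a => (j + 1) * R < ‖l' a - w'‖).image l') (by
        intro u hu v hv
        obtain ⟨b, hb, rfl⟩ := Finset.mem_image.1 hv
        have hb2 := (Finset.mem_filter.1 hb).2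
        have hu2 : ‖u - w'‖ ≤ j * R := by
          rcases Finset.mem_insert.1 hu with rfl | hu
          · rw [sub_self, norm_zero]; positivity
          · obtain ⟨a, ha, rfl⟩ := Finset.mem_image.1 hu
            exact (Finset.mem_filter.1 ha).2
        have h3 : ‖l' b - w'‖ ≤ ‖u - l' b‖ + ‖u - w'‖ := by
          have : l' b - w' = (u - w') - (u - l' b) := by abel
          rw [this]
          calc ‖(u - w') - (u - l' b)‖ ≤ ‖u - w'‖ + ‖u - l' b‖ := norm_sub_le _ _
            _ = _ := by ring
        nlinarith) x hx x' hx'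
    refine ⟨fun u => y (u + -μ), shift_mem hy _, fun a ha => ?_⟩
    have hlμ : l a + -μ = l' a := by simp only [l']; abel
    show y (l a + -μ) = _
    rw [hlμ]
    rcases Finset.mem_insert.1 ha with rfl | haS
    · rw [Function.update_self]
      have : l' a = w' := by simp only [l', hμ]; abel
      rw [this]
      exact hy1 w' (Finset.mem_insert_self _ _)
    · have haw : a ≠ w := fun h => hw (h ▸ haS)
      rw [Function.update_of_ne haw]
      rcases hshell a haS with h1 | h1
      · have h2 : l' a = l₀ a := by
          refine hl₀' a (l' a) (hl' a haS) fun i => ?_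
          have h3 := le_norm_sub (l' a) w' i
          have h4 : (j : ℝ) * R ≤ m * R := by
            have : (j : ℝ) ≤ m := by exact_mod_cast hj
            nlinarith
          have h5 : ((2 * |l' a i - w' i| : ℤ) : ℝ) < ((N : ℤ) : ℝ) := by
            push_cast at h3 ⊢
            linarith
          exact_mod_cast h5
        rw [hy1 _ (Finset.mem_insert_of_mem (Finset.mem_image.2
          ⟨a, Finset.mem_filter.2 ⟨haS, h1⟩, rfl⟩)), h2]
        exact hxS a haS
      · rw [hy2 _ (Finset.mem_image.2 ⟨a, Finset.mem_filter.2 ⟨haS, h1⟩, rfl⟩)]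
        exact hx'S a haS
  · intro S s c _ hc hcS hs
    obtain ⟨v, rfl⟩ := hc
    choose r hr _ using hcen 0
    -- a section that inverts `u ↦ red (u + v)` on `E`
    have hinj : ∀ u ∈ E, ∀ u' ∈ E, red d N (u + v) = red d N (u' + v) → u = u' := by
      intro u hu u' hu' h
      have h1 := red_eq_iff.1 h
      funext i
      have h2 : (u' + v) i - (u + v) i = u' i - u i := by simp only [Pi.add_apply]; ring
      have h3 : |u' i - u i| < N := by
        have e1 := hK u hu i
        have e2 := hK u' hu' i
        have e3 := abs_sub (u' i) (u i)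
        have : (2 * K : ℤ) < N := by exact_mod_cast hN1
        linarith
      have h4 := Int.eq_zero_of_abs_lt_dvd (h2 ▸ h1 i) h3
      linarith
    obtain ⟨x, hx, hx2⟩ := hs (fun a => if h : ∃ u ∈ E, red d N (u + v) = a
      then h.choose + v else r a) (by
      intro a _
      by_cases h : ∃ u ∈ E, red d N (u + v) = a
      · simp only [h, dif_pos]; exact h.choose_spec.2
      · simp only [h, dif_neg, not_false_eq_true]; exact hr a)
    have h3 := hx v
    have h4 : (fun u : E => s (red d N (u.1 + v))) = fun u : E => x (u.1 + v) := by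
      funext u
      have h5 : ∃ u' ∈ E, red d N (u' + v) = red d N (u.1 + v) := ⟨u.1, u.2, rfl⟩
      have h6 := hx2 (red d N (u.1 + v)) (hcS u)
      rw [dif_pos h5] at h6
      have h7 : h5.choose = u.1 := hinj _ h5.choose_spec.1 _ u.2 h5.choose_spec.2
      rw [h7] at h6
      exact h6.symm
    show (fun u : E => s (red d N (u.1 + v))) ∈ P
    rw [h4]; exact h3

/-- Strongly irreducible SFTs of bounded width have dense periodic points. -/
theorem dense_of_boundedWidth [Finite A] (E : Finset (Pt d)) (P : Set (E → A))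
    (hSI : StronglyIrreducible (sft E P)) (hbw : BoundedWidth P) : PeriodicDense (sft E P) := by
  classical
  rcases (sft E P).eq_empty_or_nonempty with hemp | hne
  · intro x hx; rw [hemp] at hx; exact absurd hx (notMem_empty x)
  have hSI' := hSI
  obtain ⟨R, hR0, hR⟩ := hSI'
  obtain ⟨K, hK⟩ := exists_bound E
  obtain ⟨m, hm⟩ := hbw
  obtain ⟨N, hN⟩ := exists_nat_gt (max (2 * (m * R)) (2 * K))
  have hN1 : 2 * K < N := by
    have := (le_max_right (2 * (m * R)) (2 * (K : ℝ))).trans_lt hN
    exact_mod_cast this
  have hN2 : 2 * (m * R) < N := (le_max_left _ _).trans_lt hN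
  have hN0 : 0 < N := by omega
  haveI : NeZero N := ⟨hN0.ne'⟩
  obtain ⟨s, hs⟩ := hm (Tor d N) (scopes E N) ⟨_, consistent_torus hR0 hR hne hK m hN1 hN2⟩
  let p : Conf d A := fun u => s (red d N u)
  have hp : p ∈ sft E P := fun v => hs _ ⟨v, rfl⟩
  refine dense_of_periodic hSI hp (N := (N : ℤ)) (by exact_mod_cast hN0) ?_
  intro v hv u
  show s _ = s _
  congr 1
  refine red_eq_iff.2 fun i => ?_
  have : u i - (u + v) i = -(v i) := by simp only [Pi.add_apply]; ring
  rw [this]
  exact (hv i).neg_right

end Pool.Agent.Lib_MP_499141
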